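import Pool.Statements.S00086

set_option autoImplicit false
open Pool Pool.MP_26e61c_ag

namespace Pool.Agent.S00086

/-- Allowed coordinates of the counterexample: the support of the point is the set of zero-sum
`g` with `g i` in the `i`-th list. -/
def supp (i : Fin 4) : List (ZMod 12) :=
  match i with
  | 0 => [0, 1, 3]
  | 1 => [0, 4, 1]
  | 2 => [0, 10, 4]
  | 3 => [0, 9, 4]

/-- Parameters of a point of the prolongation `A`. -/
def par (A : Finset (Fin 4)) (p : Option (Fin 4) × ZMod 12) : ℕ :=
  match p with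
  | (none, h) =>
      if A = {0, 1} then (if h = 5 then 2 else 1)
      else if A = {2, 3} then (if h = 7 then 2 else 1)
      else if A = {0, 2} then (if h = 0 then 2 else 1)
      else if A = {1, 3} then (if h = 0 then 2 else 1)
      else if A = {0, 3} then (if h = 10 then 2 else 1)
      else (if h = 2 then 2 else 1)
  | (some i, h) =>
      if h ∈ supp i then
        (if (A = {0, 2} ∨ A = {1, 3}) then (if i = 2 ∧ h = 10 then 2 else 1)
         else (if i = 3 ∧ h = 0 then 2 else 1))
      else 0

/-- The point. -/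
def pt (g : Fin 4 → ZMod 12) : ℕ :=
  par {0, 1} (none, ∑ i ∈ ({0, 1} : Finset (Fin 4)), g i) * ∏ i, par {0, 1} (some i, g i)

theorem key : ∀ A : Finset (Fin 4), A.card = 2 → ∀ a b c : ZMod 12,
    par A (none, ∑ i ∈ A, (![a, b, c, -(a + b + c)] : Fin 4 → ZMod 12) i) *
      ∏ i, par A (some i, (![a, b, c, -(a + b + c)] : Fin 4 → ZMod 12) i) =
    pt ![a, b, c, -(a + b + c)] := by
  decide +kernel

theorem key' (A : Finset (Fin 4)) (hA : A.card = 2) (g : Fin 4 → ZMod 12)
    (hg : ∑ i, g i = 0) :
    par A (none, ∑ i ∈ A, g i) * ∏ i, par A (some i, g i) = pt g := by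
  have h := key A hA (g 0) (g 1) (g 2)
  have e : (![g 0, g 1, g 2, -(g 0 + g 1 + g 2)] : Fin 4 → ZMod 12) = g := by
    funext i
    rw [Fin.sum_univ_four] at hg
    fin_cases i
    · rfl
    · rfl
    · rfl
    · show -(g 0 + g 1 + g 2) = g 3
      exact neg_eq_of_add_eq_zero_right hg
  rw [e] at h
  exact h

abbrev Idx : Type := {g : Fin 4 → ZMod 12 // ∑ i, g i = 0}

def s1 : Idx := ⟨![0, 0, 0, 0], by decide⟩
def s2 : Idx := ⟨![1, 4, 10, 9], by decide⟩
def s3 : Idx := ⟨![3, 1, 4, 4], by decide⟩
def r1 : Idx := ⟨![1, 1, 10, 0], by decide⟩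
def r2 : Idx := ⟨![3, 0, 0, 9], by decide⟩
def r3 : Idx := ⟨![0, 4, 4, 4], by decide⟩

theorem pt_s1 : pt s1.1 = 2 := by decide +kernel
theorem pt_s2 : pt s2.1 = 2 := by decide +kernel
theorem pt_s3 : pt s3.1 = 1 := by decide +kernel
theorem pt_r1 : pt r1.1 = 2 := by decide +kernel
theorem pt_r2 : pt r2.1 = 1 := by decide +kernel
theorem pt_r3 : pt r3.1 = 1 := by decide +kernel

noncomputable def f : MvPolynomial Idx ℂ :=
  MvPolynomial.X s1 * MvPolynomial.X s2 * MvPolynomial.X s3
    - MvPolynomial.X r1 * MvPolynomial.X r2 * MvPolynomial.X r3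

noncomputable def ev : MvPolynomial Idx ℂ →ₐ[ℂ] ℂ :=
  MvPolynomial.aeval (fun g : Idx => ((pt g.1 : ℕ) : ℂ))

theorem ker_le (A : Finset (Fin 4)) (hA : A.card = 2) :
    RingHom.ker (MvPolynomial.aeval (R := ℂ)
              (fun g : Idx =>
                (MvPolynomial.X (none, ∑ i ∈ A, g.1 i) *
                  ∏ i, MvPolynomial.X (some i, g.1 i) :
                  MvPolynomial (Option (Fin 4) × ZMod 12) ℂ))) ≤ RingHom.ker ev := by
  intro p hp
  rw [RingHom.mem_ker] at hp ⊢
  have hcomp : ev = (MvPolynomial.aeval (R := ℂ) (fun q => ((par A q : ℕ) : ℂ))).comp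
      (MvPolynomial.aeval (R := ℂ)
              (fun g : Idx =>
                (MvPolynomial.X (none, ∑ i ∈ A, g.1 i) *
                  ∏ i, MvPolynomial.X (some i, g.1 i) :
                  MvPolynomial (Option (Fin 4) × ZMod 12) ℂ))) := by
    apply MvPolynomial.algHom_ext
    intro g
    simp only [ev, MvPolynomial.aeval_X, AlgHom.comp_apply, map_mul, map_prod]
    rw [← key' A hA g.1 g.2]
    push_cast
    rfl
  rw [hcomp, AlgHom.comp_apply, hp, map_zero]

theorem f_mem : f ∈ RingHom.ker (MvPolynomial.aeval (R := ℂ)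
          (fun g : Idx =>
            (∏ i, MvPolynomial.X (some i, g.1 i) :
              MvPolynomial (Option (Fin 4) × ZMod 12) ℂ))) := by
  rw [RingHom.mem_ker]
  simp only [f, map_sub, map_mul, MvPolynomial.aeval_X, Fin.prod_univ_four, s1, s2, s3, r1, r2, r3]
  simp only [Matrix.cons_val_zero, Matrix.cons_val_one, Matrix.cons_val]
  ring

/-- The negation of the preceding statement: For every finite abelian G and n at least 4: every polynomial vanishing on the claw group-based model, times a high enough power of the irrelevant ideal, lies in the sum of the ideals of all prolongations splitting the leaves into two parts of size at least 2. -/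
theorem result :
    ¬ (∀ (G : Type) [AddCommGroup G] [Fintype G] (n : ℕ), 4 ≤ n →
      ∀ f : MvPolynomial {g : Fin n → G // ∑ i, g i = 0} ℂ,
        f ∈ RingHom.ker (MvPolynomial.aeval (R := ℂ)
          (fun g : {g : Fin n → G // ∑ i, g i = 0} =>
            (∏ i, MvPolynomial.X (some i, g.1 i) :
              MvPolynomial (Option (Fin n) × G) ℂ))) →
        ∃ k : ℕ, ∀ h ∈ (Ideal.span (Set.range
            (MvPolynomial.X : {g : Fin n → G // ∑ i, g i = 0} →
              MvPolynomial {g : Fin n → G // ∑ i, g i = 0} ℂ))) ^ k,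
          h * f ∈ ⨆ A : {A : Finset (Fin n) // 2 ≤ A.card ∧ A.card + 2 ≤ n},
            RingHom.ker (MvPolynomial.aeval (R := ℂ)
              (fun g : {g : Fin n → G // ∑ i, g i = 0} =>
                (MvPolynomial.X (none, ∑ i ∈ A.1, g.1 i) *
                  ∏ i, MvPolynomial.X (some i, g.1 i) :
                  MvPolynomial (Option (Fin n) × G) ℂ)))) := by
  intro H
  obtain ⟨k, hk⟩ := H (ZMod 12) 4 le_rfl f f_mem
  have hX : (MvPolynomial.X s1 : MvPolynomial Idx ℂ) ^ k ∈ (Ideal.span (Set.range
            (MvPolynomial.X : Idx → MvPolynomial Idx ℂ))) ^ k :=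
    Ideal.pow_mem_pow (Ideal.subset_span (Set.mem_range_self s1)) k
  have h1 := hk _ hX
  have hle : (⨆ A : {A : Finset (Fin 4) // 2 ≤ A.card ∧ A.card + 2 ≤ 4},
            RingHom.ker (MvPolynomial.aeval (R := ℂ)
              (fun g : Idx =>
                (MvPolynomial.X (none, ∑ i ∈ A.1, g.1 i) *
                  ∏ i, MvPolynomial.X (some i, g.1 i) :
                  MvPolynomial (Option (Fin 4) × ZMod 12) ℂ)))) ≤ RingHom.ker ev := by
    apply iSup_le
    rintro ⟨A, hA1, hA2⟩
    exact ker_le A (by omega)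
  have h2 := hle h1
  rw [RingHom.mem_ker] at h2
  simp only [ev, f, map_mul, map_pow, map_sub, MvPolynomial.aeval_X, pt_s1, pt_s2, pt_s3,
    pt_r1, pt_r2, pt_r3] at h2
  norm_num at h2

end Pool.Agent.S00086
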