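import Pool.Statements.S00643
import Pool.Agent.Lib.MP_066b7c_al.Main

set_option autoImplicit false
open Pool Pool.MP_066b7c_al

namespace Pool.Agent.S00643

/-- For all sizes with 1≤k_i≤a_i b_i, off a proper algebraic set of pairs of k_i-tuples of complex a_i×b_i matrices, the min rank of nonzero elements of span(M_i⊗N_j) equals the product of the min ranks of span(M) and span(N). -/
theorem result :
    ∀ (a1 b1 k1 a2 b2 k2 : ℕ), 1 ≤ k1 → k1 ≤ a1 * b1 → 1 ≤ k2 → k2 ≤ a2 * b2 →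
      ∃ P : MvPolynomial ((Fin k1 × Fin a1 × Fin b1) ⊕ (Fin k2 × Fin a2 × Fin b2)) ℂ,
        P ≠ 0 ∧
        ∀ (M : Fin k1 → Matrix (Fin a1) (Fin b1) ℂ) (N : Fin k2 → Matrix (Fin a2) (Fin b2) ℂ),
          MvPolynomial.eval
              (Sum.elim (fun t : Fin k1 × Fin a1 × Fin b1 => M t.1 t.2.1 t.2.2)
                (fun t : Fin k2 × Fin a2 × Fin b2 => N t.1 t.2.1 t.2.2)) P ≠ 0 →
          sInf {r : ℕ | ∃ s ∈ Submodule.span ℂ
              {x : Matrix (Fin a1 × Fin a2) (Fin b1 × Fin b2) ℂ |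
                ∃ i j, x = Matrix.kroneckerMap (fun u v : ℂ => u * v) (M i) (N j)},
              s ≠ 0 ∧ s.rank = r}
            = sInf {r : ℕ | ∃ s ∈ Submodule.span ℂ (Set.range M), s ≠ 0 ∧ s.rank = r} *
              sInf {r : ℕ | ∃ s ∈ Submodule.span ℂ (Set.range N), s ≠ 0 ∧ s.rank = r} := by
  intro a1 b1 k1 a2 b2 k2 h1 h2 h3 h4
  exact Pool.Agent.Lib.MP066b7c.main a1 b1 k1 a2 b2 k2 h1 h2 h3 h4

end Pool.Agent.S00643
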