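import Pool.Statements.S00801
import Pool.Agent.Lib.MP_166ce5_al.Lamp

/-!
# A positive answer: exponential word growth with sublinear (order square root) period growth

The group is the lamplighter group `Z/2 wr H` over an explicit finitely generated residually
finite torsion `2`-group `H` of tree automorphisms whose period growth is `O(sqrt n)`.
-/

set_option autoImplicit false
open Pool Pool.MP_166ce5_al

namespace Pool.Agent.S00801

/-- There is an infinite, residually finite, periodic group generated by a finite set S, whose S-balls grow at least like c^n for some c>1, and in which the maximal element order in the ball of radius n is o(n). -/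
theorem result :
    ∃ (G : Type) (_ : Group G) (S : Finset G),
      Infinite G ∧
      Subgroup.closure (S : Set G) = ⊤ ∧
      (∀ g : G, IsOfFinOrder g) ∧
      (∀ g : G, g ≠ 1 → ∃ N : Subgroup G, N.Normal ∧ N.index ≠ 0 ∧ g ∉ N) ∧
      (∃ c : ℝ, 1 < c ∧ ∀ n : ℕ,
        c ^ n ≤ (({g : G | ∃ l : List G, l.length ≤ n ∧
          (∀ x ∈ l, x ∈ S ∨ x⁻¹ ∈ S) ∧ l.prod = g}).ncard : ℝ)) ∧
      (∀ ε : ℝ, 0 < ε → ∃ N : ℕ, ∀ n : ℕ, N ≤ n → ∀ g : G,
        (∃ l : List G, l.length ≤ n ∧ (∀ x ∈ l, x ∈ S ∨ x⁻¹ ∈ S) ∧ l.prod = g) →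
        (orderOf g : ℝ) ≤ ε * n) := by
  refine ⟨Pool.Agent.Lib.MP_166ce5_al.GG, inferInstance, Pool.Agent.Lib.MP_166ce5_al.SS,
    Pool.Agent.Lib.MP_166ce5_al.infinite_GG, Pool.Agent.Lib.MP_166ce5_al.closure_SS,
    Pool.Agent.Lib.MP_166ce5_al.isOfFinOrder_GG, Pool.Agent.Lib.MP_166ce5_al.rf_GG,
    ⟨7 / 5, by norm_num, Pool.Agent.Lib.MP_166ce5_al.ball_growth⟩,
    Pool.Agent.Lib.MP_166ce5_al.sublinear⟩

end Pool.Agent.S00801
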