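import Pool.Statements.S00989
import Pool.Agent.Lib.MP_26f323_al.Main

set_option autoImplicit false
open Pool Pool.MP_26f323_al

namespace Pool.Agent.S00989

/-- There is a finite primitive permutation group of diagonal type (normal subgroup T^k, T nonabelian simple, k≥2, point stabilizer in it isomorphic to T) whose only invariant symmetric association scheme is the trivial one. -/
theorem result :
  ∃ (Ω : Type) (_ : Finite Ω) (G : Subgroup (Equiv.Perm Ω)),
    MulAction.IsPreprimitive G Ω ∧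
    (∃ (T : Type) (_ : Group T) (_ : Finite T), IsSimpleGroup T ∧
      (¬ ∀ a b : T, a * b = b * a) ∧
      ∃ k : ℕ, 2 ≤ k ∧ ∃ N : Subgroup (Equiv.Perm Ω), N ≤ G ∧
        (∀ g ∈ G, ∀ n ∈ N, g * n * g⁻¹ ∈ N) ∧
        Nonempty (N ≃* (Fin k → T)) ∧
        ∃ α : Ω, Nonempty
          ((MulAction.stabilizer (Equiv.Perm Ω) α ⊓ N : Subgroup (Equiv.Perm Ω)) ≃* T)) ∧
    ∀ c : Ω → Ω → ℕ,
      (∀ x y, c x y = 0 ↔ x = y) →
      (∀ x y, c x y = c y x) →
      (∀ (i j : ℕ) (x y x' y' : Ω), c x y = c x' y' →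
        Set.ncard {z : Ω | c x z = i ∧ c z y = j} =
          Set.ncard {z : Ω | c x' z = i ∧ c z y' = j}) →
      (∀ g ∈ G, ∀ x y, c (g x) (g y) = c x y) →
      ∀ x y x' y' : Ω, x ≠ y → x' ≠ y' → c x y = c x' y' := by
  exact MP26f323.frozen

end Pool.Agent.S00989
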