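import Pool.Statements.S01777
import Pool.Agent.Lib.MP_6947cd_al.L.End

set_option autoImplicit false
open scoped Matrix ComplexOrder
open Pool Pool.MP_6947cd_al

namespace Pool.Agent.S01777

/-- For every n and all complex positive semidefinite n by n matrices A and B, the permanent of the entrywise (Hadamard) product is at most the product of the permanents of A and B. -/
theorem result :
    ∀ n : ℕ, ∀ A B : Matrix (Fin n) (Fin n) ℂ,
      A.PosSemidef → B.PosSemidef →
        (A ⊙ B).permanent ≤ A.permanent * B.permanent := by
  exact Pool.Agent.Lib.MP_6947cd_al.chollet

end Pool.Agent.S01777
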