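import Pool.Statements.S02003
import Pool.Agent.Lib.MP_79a327_al.Inst

set_option autoImplicit false
open Pool Pool.MP_79a327_al

namespace Pool.Agent.S02003

open Pool.Agent.Lib.MP_79a327_al in
/-- There is a group with a bi-invariant total order in which every weakly abelian bi-invariant partial order (a≥1 implies x⁻¹ax≤a²) extends to a weakly abelian total order, yet some bi-invariant partial order has no total extension. -/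
theorem result :
    ∃ (G : Type) (_ : Group G),
      (∃ P : Set G, (1 : G) ∈ P ∧ (∀ a ∈ P, ∀ b ∈ P, a * b ∈ P) ∧
        (∀ a ∈ P, a⁻¹ ∈ P → a = 1) ∧ (∀ a ∈ P, ∀ x : G, x⁻¹ * a * x ∈ P) ∧
        (∀ a : G, a ∈ P ∨ a⁻¹ ∈ P)) ∧
      (∀ P : Set G, (1 : G) ∈ P → (∀ a ∈ P, ∀ b ∈ P, a * b ∈ P) →
        (∀ a ∈ P, a⁻¹ ∈ P → a = 1) → (∀ a ∈ P, ∀ x : G, x⁻¹ * a * x ∈ P) →
        (∀ a ∈ P, ∀ x : G, (x⁻¹ * a * x)⁻¹ * a ^ 2 ∈ P) →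
        ∃ Q : Set G, P ⊆ Q ∧ (1 : G) ∈ Q ∧ (∀ a ∈ Q, ∀ b ∈ Q, a * b ∈ Q) ∧
          (∀ a ∈ Q, a⁻¹ ∈ Q → a = 1) ∧ (∀ a ∈ Q, ∀ x : G, x⁻¹ * a * x ∈ Q) ∧
          (∀ a : G, a ∈ Q ∨ a⁻¹ ∈ Q) ∧
          (∀ a ∈ Q, ∀ x : G, (x⁻¹ * a * x)⁻¹ * a ^ 2 ∈ Q)) ∧
      ¬ (∀ P : Set G, (1 : G) ∈ P → (∀ a ∈ P, ∀ b ∈ P, a * b ∈ P) →
        (∀ a ∈ P, a⁻¹ ∈ P → a = 1) → (∀ a ∈ P, ∀ x : G, x⁻¹ * a * x ∈ P) →
        ∃ Q : Set G, P ⊆ Q ∧ (1 : G) ∈ Q ∧ (∀ a ∈ Q, ∀ b ∈ Q, a * b ∈ Q) ∧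
          (∀ a ∈ Q, a⁻¹ ∈ Q → a = 1) ∧ (∀ a ∈ Q, ∀ x : G, x⁻¹ * a * x ∈ Q) ∧
          (∀ a : G, a ∈ Q ∨ a⁻¹ ∈ Q)) := by
  refine ⟨TheGroup, inferInstance, ?_, ?_, ?_⟩
  · obtain ⟨Q, _, hQ, _, hT⟩ := theGroup_wstar {1} ⟨rfl, by
        rintro a ha b hb
        rw [Set.mem_singleton_iff] at *
        rw [ha, hb, one_mul], by
        intro a ha _
        exact ha, by
        intro a ha x
        rw [Set.mem_singleton_iff] at *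
        rw [ha, mul_one, inv_mul_cancel]⟩ (by
        intro a ha x
        rw [Set.mem_singleton_iff] at *
        rw [ha]; group)
    exact ⟨Q, hQ.one, hQ.mul, hQ.pt, hQ.conj, hT⟩
  · intro P h1 h2 h3 h4 h5
    obtain ⟨Q, hPQ, hQ, hW, hT⟩ := theGroup_wstar P ⟨h1, h2, h3, h4⟩ h5
    exact ⟨Q, hPQ, hQ.one, hQ.mul, hQ.pt, hQ.conj, hT, hW⟩
  · intro h
    have hb := dat.bad_PO
    obtain ⟨Q, hPQ, q1, q2, q3, q4, q5⟩ := h dat.bad hb.one hb.mul hb.pt hb.conj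
    exact dat.bad_ext Q hPQ ⟨q1, q2, q3, q4⟩ q5

end Pool.Agent.S02003
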