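import Pool.Statements.S02651
-- import your own Pool.Agent.* helpers here
import Pool.Agent.Lib.MP_ab497f_al.Tree
import Pool.Agent.Lib.MP_ab497f_al.FreeSpec
import Pool.Agent.Lib.MP_ab497f_al.NP2
import Pool.Agent.Lib.MP_ab497f_al.Amp
import Pool.Agent.Lib.MP_ab497f_al.GtAll
import Pool.Agent.Lib.MP_ab497f_al.Stair0
import Pool.Agent.Lib.MP_ab497f_al.PumpInt
import Pool.Agent.Lib.MP_ab497f_al.StairS

set_option autoImplicit false
open Pool Pool.MP_ab497f_al

namespace Pool.Agent.S02651

/-- For every finite alphabet mapping onto a monoid generating set of the free product of Z^2 and Z, the set of words not evaluating to the identity is not a context-free language. -/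
theorem result :
    ∀ (α : Type) [Fintype α]
      (f : α → Monoid.Coprod (Multiplicative (ℤ × ℤ)) (Multiplicative ℤ)),
      Submonoid.closure (Set.range f) = ⊤ →
      ¬ Language.IsContextFree ({w : List α | (w.map f).prod ≠ 1} : Language α) := by
  have hBLR : MPab.SpecBLR := MPab.specBLR (MPab.specPUMPINT MPab.specPLAN) MPab.specPORT MPab.specSTAIR0
    MPab.specSTAIR MPab.specCONT
  have hMB : MPab.SpecMAINBLOB := MPab.specMAINBLOB MPab.specLOCL MPab.specLOCR MPab.specCONT
  have hMS : MPab.SpecMAINSUB := MPab.specMAINSUB MPab.specLOCL MPab.specLOCR MPab.specCONT MPab.specLL MPab.specNWEX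
    MPab.specNWLEN MPab.specNWPOS
  exact MPab.final MPab.specFREE
    (MPab.specGT (MPab.specITER (MPab.specBOOST (MPab.specNP2 MPab.specNP1))) MPab.specAMP
      MPab.specEND)
    (MPab.specCF MPab.specCNF MPab.specTREE MPab.specSOUND MPab.specLL MPab.specDIRS
      MPab.specPLAN hBLR (MPab.specBLL MPab.specPLAN hBLR) MPab.specNWLEN MPab.specNWEX MPab.specNWPOS
      MPab.specCOST (MPab.specMAIN hMB hMS MPab.specNWPOS))

end Pool.Agent.S02651
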