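import Pool.Statements.S02767
import Pool.Agent.Lib.MP_b3fe82_al.Main

set_option autoImplicit false
open Pool Pool.MP_b3fe82_al

namespace Pool.Agent.S02767

/-- For every numerical semigroup with minimal generators g₀<…<g_e, the kernel congruence of the factorization map has a generating set of at most C(g_e−g₀+1, 2) relations, i.e. ρ(Γ) ≤ C(width+1, 2). -/
theorem result :
    ∀ (e : ℕ) (g : Fin (e + 1) → ℕ),
      StrictMono g → 0 < g 0 → Finset.univ.gcd g = 1 →
      (∀ i, g i ∉ AddSubmonoid.closure (g '' {j | j ≠ i})) →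
      ∃ R : Finset ((Fin (e + 1) → ℕ) × (Fin (e + 1) → ℕ)),
        R.card ≤ (g (Fin.last e) - g 0 + 1).choose 2 ∧
        ∀ a b : Fin (e + 1) → ℕ,
          (addConGen (fun x y => (x, y) ∈ R)) a b ↔
            ∑ i, a i * g i = ∑ i, b i * g i := by
  intro e g hg hg0 hgcd _
  exact Pool.Agent.Lib.MPb3fe82.main e g hg hg0 hgcd

end Pool.Agent.S02767
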