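import Pool.Statements.S02921
import Pool.Agent.Lib.MP_be1941_al.X.TopH

set_option autoImplicit false
open Pool Pool.MP_be1941_al

namespace Pool.Agent.S02921

/-- Every finite solvable group has an irreducible complex representation whose dimension has at least half as many distinct prime divisors as there are primes dividing the dimension of some irreducible representation of the group. -/
theorem result :
    ∀ (G : Type) [Group G] [Finite G], IsSolvable G →
      ∃ V : FDRep ℂ G, CategoryTheory.Simple V ∧
        {p : ℕ | p.Prime ∧ ∃ W : FDRep ℂ G, CategoryTheory.Simple W ∧
            p ∣ Module.finrank ℂ W}.ncard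
          ≤ 2 * (Module.finrank ℂ V).primeFactors.card := by
  intro G _ _ hG
  exact Pool.Agent.Lib.MPbe1941.X.TopD.hup G hG

end Pool.Agent.S02921
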