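import Pool.Statements.S03025
import Pool.Agent.Lib.MP_c91b70_al.NotComm
import Pool.Agent.Lib.MP_c91b70_al.QI

set_option autoImplicit false
open Pool Pool.MP_c91b70_al

namespace Pool.Agent.S03025

/-- There is a finite graph whose right-angled Coxeter group has no finite-index subgroup isomorphic to a finite-index subgroup of any right-angled Artin group, yet is quasi-isometric (word metrics) to some right-angled Artin group. -/
theorem result :
    ∃ (n : ℕ) (Γ : SimpleGraph (Fin n)),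
      (∀ (m : ℕ) (Λ : SimpleGraph (Fin m)),
        ¬ ∃ (H₁ : Subgroup (PresentedGroup {r : FreeGroup (Fin n) |
              (∃ a, r = FreeGroup.of a * FreeGroup.of a) ∨
              ∃ a b, Γ.Adj a b ∧ r = (FreeGroup.of a * FreeGroup.of b) ^ 2}))
            (H₂ : Subgroup (PresentedGroup {r : FreeGroup (Fin m) |
              ∃ a b, Λ.Adj a b ∧
                r = FreeGroup.of a * FreeGroup.of b * (FreeGroup.of a)⁻¹ * (FreeGroup.of b)⁻¹})),
          H₁.index ≠ 0 ∧ H₂.index ≠ 0 ∧ Nonempty (H₁ ≃* H₂)) ∧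
      ∃ (m : ℕ) (Λ : SimpleGraph (Fin m))
        (f : PresentedGroup {r : FreeGroup (Fin n) |
              (∃ a, r = FreeGroup.of a * FreeGroup.of a) ∨
              ∃ a b, Γ.Adj a b ∧ r = (FreeGroup.of a * FreeGroup.of b) ^ 2} →
            PresentedGroup {r : FreeGroup (Fin m) |
              ∃ a b, Λ.Adj a b ∧
                r = FreeGroup.of a * FreeGroup.of b * (FreeGroup.of a)⁻¹ * (FreeGroup.of b)⁻¹})
        (K C : ℕ),
        (∀ x y (N : ℕ),
          (∃ w : FreeGroup (Fin n), PresentedGroup.mk {r : FreeGroup (Fin n) |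
              (∃ a, r = FreeGroup.of a * FreeGroup.of a) ∨
              ∃ a b, Γ.Adj a b ∧ r = (FreeGroup.of a * FreeGroup.of b) ^ 2} w = x⁻¹ * y ∧
            w.toWord.length ≤ N) →
          ∃ w : FreeGroup (Fin m), PresentedGroup.mk {r : FreeGroup (Fin m) |
              ∃ a b, Λ.Adj a b ∧
                r = FreeGroup.of a * FreeGroup.of b * (FreeGroup.of a)⁻¹ * (FreeGroup.of b)⁻¹} w
              = (f x)⁻¹ * f y ∧ w.toWord.length ≤ K * N + C) ∧
        (∀ x y (N : ℕ),
          (∃ w : FreeGroup (Fin m), PresentedGroup.mk {r : FreeGroup (Fin m) |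
              ∃ a b, Λ.Adj a b ∧
                r = FreeGroup.of a * FreeGroup.of b * (FreeGroup.of a)⁻¹ * (FreeGroup.of b)⁻¹} w
              = (f x)⁻¹ * f y ∧ w.toWord.length ≤ N) →
          ∃ w : FreeGroup (Fin n), PresentedGroup.mk {r : FreeGroup (Fin n) |
              (∃ a, r = FreeGroup.of a * FreeGroup.of a) ∨
              ∃ a b, Γ.Adj a b ∧ r = (FreeGroup.of a * FreeGroup.of b) ^ 2} w = x⁻¹ * y ∧
            w.toWord.length ≤ K * N + C) ∧
        (∀ z, ∃ x, ∃ w : FreeGroup (Fin m), PresentedGroup.mk {r : FreeGroup (Fin m) |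
              ∃ a b, Λ.Adj a b ∧
                r = FreeGroup.of a * FreeGroup.of b * (FreeGroup.of a)⁻¹ * (FreeGroup.of b)⁻¹} w
              = (f x)⁻¹ * z ∧ w.toWord.length ≤ C) :=
  ⟨5 * 3, Pool.Agent.Lib.MP_c91b70_al.Gam15, Pool.Agent.Lib.MP_c91b70_al.not_commensurable,
    5 * 2, Pool.Agent.Lib.MP_c91b70_al.Lam10, Pool.Agent.Lib.MP_c91b70_al.qi_part⟩

end Pool.Agent.S03025
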