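import Pool.Statements.S03924
import Pool.Agent.Lib.MP_1707ab_an.N2.Final

set_option autoImplicit false
open Topology
open Pool Pool.MP_1707ab_an

namespace Pool.Agent.S03924

/-- The negation of the preceding statement: For closed S = S₁ ∪ S₂ in the plane, with each point of S relatively interior to S₁ or S₂, and n ≥ 1: a function is holomorphic off S with derivatives up to order n continuous up to ∂S iff, off S, it is a sum of such functions for S₁ and S₂. -/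
theorem result :
    ¬ (∀ A : Set ℂ → ℕ → Set (ℂ → ℂ),
      (∀ (T : Set ℂ) (n : ℕ) (f : ℂ → ℂ), f ∈ A T n ↔
        (DifferentiableOn ℂ f Tᶜ ∧
          ∀ k ≤ n, ∃ g : ℂ → ℂ, ContinuousOn g (Tᶜ ∪ frontier T) ∧
            Set.EqOn g (iteratedDeriv k f) Tᶜ)) →
      ∀ (S S₁ S₂ : Set ℂ), IsClosed S → IsClosed S₁ → IsClosed S₂ → S = S₁ ∪ S₂ →
        (∀ z ∈ S, (∃ U ∈ 𝓝 z, U ∩ S ⊆ S₁) ∨ (∃ U ∈ 𝓝 z, U ∩ S ⊆ S₂)) →
        ∀ n : ℕ, 1 ≤ n →
          ∀ f : ℂ → ℂ, (f ∈ A S n ↔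
            ∃ f₁ ∈ A S₁ n, ∃ f₂ ∈ A S₂ n, Set.EqOn f (f₁ + f₂) Sᶜ)) :=
  MP1707.goal

end Pool.Agent.S03924
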