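import Pool.Statements.S04414
import Pool.Agent.Lib.MP_3d1d78_an.Dist

set_option autoImplicit false
open MeasureTheory
open Pool Pool.MP_3d1d78_an

namespace Pool.Agent.S04414

/-- The negation of the preceding statement: For n ≥ 3, a domain Ω in ℝⁿ, and a nonconstant continuous W^{1,n} map of finite distortion whose inner distortion ∣adj Df∣ⁿ/J^{n−1} is in L^p for some p > 1, the map is open and discrete on Ω. -/
theorem result :
    ¬ (∀ (n : ℕ), 3 ≤ n → ∀ (Ω : Set (Fin n → ℝ)), IsOpen Ω → IsConnected Ω →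
  ∀ (f : (Fin n → ℝ) → (Fin n → ℝ)) (D : (Fin n → ℝ) → Matrix (Fin n) (Fin n) ℝ) (p : ℝ),
    ContinuousOn f Ω →
    (∀ i, MemLp (fun x => f x i) ((n : ℕ) : ENNReal) (volume.restrict Ω)) →
    (∀ i j, MemLp (fun x => D x i j) ((n : ℕ) : ENNReal) (volume.restrict Ω)) →
    (∀ φ : (Fin n → ℝ) → ℝ, ContDiff ℝ ((⊤ : ℕ∞) : WithTop ℕ∞) φ → HasCompactSupport φ →
      tsupport φ ⊆ Ω →
      ∀ i j, ∫ x in Ω, f x i * fderiv ℝ φ x (Pi.single j 1) = - ∫ x in Ω, D x i j * φ x) →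
    (∀ᵐ x ∂(volume.restrict Ω), 0 ≤ (D x).det ∧ ((D x).det = 0 → D x = 0)) →
    1 < p →
    MemLp (fun x => if 0 < (D x).det then
        (∑ i, ∑ j, ((D x).adjugate i j) ^ 2) ^ ((n : ℝ) / 2) / ((D x).det) ^ (n - 1)
      else 1) (ENNReal.ofReal p) (volume.restrict Ω) →
    (¬ ∃ c, ∀ x ∈ Ω, f x = c) →
    (∀ U ⊆ Ω, IsOpen U → IsOpen (f '' U)) ∧
    (∀ x ∈ Ω, ∃ ε > 0, ∀ y ∈ Ω, dist y x < ε → f y = f x → y = x)) := by
  intro H
  have h := H 3 le_rfl Pool.Agent.Lib.MP_3d1d78_an.cube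
    Pool.Agent.Lib.MP_3d1d78_an.isOpen_cube Pool.Agent.Lib.MP_3d1d78_an.isConnected_cube
    Pool.Agent.Lib.MP_3d1d78_an.ff Pool.Agent.Lib.MP_3d1d78_an.DD (3 / 2)
    (continuous_pi fun i => Pool.Agent.Lib.MP_3d1d78_an.continuous_ff i).continuousOn
    (fun i => Pool.Agent.Lib.MP_3d1d78_an.memLp_ff i _)
    (fun i j => Pool.Agent.Lib.MP_3d1d78_an.memLp_DD i j _)
    (fun φ h1 h2 h3 i j => Pool.Agent.Lib.MP_3d1d78_an.weak_deriv φ h1 h2 h3 i j)
    (by
      filter_upwards [ae_restrict_of_ae (Pool.Agent.Lib.MP_3d1d78_an.ae_ne 0)] with x hx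
      have h := Pool.Agent.Lib.MP_3d1d78_an.det_DD_pos hx
      exact ⟨h.le, fun h0 => absurd h0 h.ne'⟩)
    (by norm_num)
    Pool.Agent.Lib.MP_3d1d78_an.memLp_KK
    (by
      rintro ⟨c, hc⟩
      have h0 : (0 : Fin 3 → ℝ) ∈ Pool.Agent.Lib.MP_3d1d78_an.cube := fun i _ => by simp
      have h1 : (![1 / 2, 0, 0] : Fin 3 → ℝ) ∈ Pool.Agent.Lib.MP_3d1d78_an.cube := by
        intro i _
        fin_cases i <;> norm_num
      have e := (hc _ h1).trans (hc _ h0).symm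
      have e2 := congrFun e 2
      rw [Pool.Agent.Lib.MP_3d1d78_an.ff_zero_apply
        (x := 0) (by simp [Pool.Agent.Lib.MP_3d1d78_an.qq])] at e2
      simp [Pool.Agent.Lib.MP_3d1d78_an.ff, Pool.Agent.Lib.MP_3d1d78_an.uu] at e2)
  obtain ⟨ε, hε, h2⟩ := h.2 0 (fun i _ => by simp)
  have hmin : 0 < min (ε / 2) (1 / 2) := by positivity
  have hy : (![0, 0, min (ε / 2) (1 / 2)] : Fin 3 → ℝ) = 0 := by
    apply h2
    · intro i _
      have : min (ε / 2) (1 / 2) ≤ 1 / 2 := min_le_right _ _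
      fin_cases i
      · norm_num
      · norm_num
      · constructor
        · change (-1 : ℝ) < min (ε / 2) (1 / 2)
          linarith
        · change min (ε / 2) (1 / 2) < 1
          linarith
    · rw [dist_pi_lt_iff hε]
      intro i
      have : min (ε / 2) (1 / 2) ≤ ε / 2 := min_le_left _ _
      fin_cases i
      · simpa using hε
      · simpa using hε
      · simp only [Fin.reduceFinMk, Matrix.cons_val, Pi.zero_apply, dist_zero_right]
        rw [Real.norm_of_nonneg hmin.le]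
        linarith
    · funext i
      rw [Pool.Agent.Lib.MP_3d1d78_an.ff_zero_apply (by simp [Pool.Agent.Lib.MP_3d1d78_an.qq]),
        Pool.Agent.Lib.MP_3d1d78_an.ff_zero_apply (by simp [Pool.Agent.Lib.MP_3d1d78_an.qq])]
  have := congrFun hy 2
  simp only [Matrix.cons_val, Pi.zero_apply] at this
  exact hmin.ne' this

end Pool.Agent.S04414
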