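import Pool.Statements.S04615
import Pool.Agent.Lib.MP_4cd976_an.DN.ApxFinal

set_option autoImplicit false
open Pool Pool.MP_4cd976_an

namespace Pool.Agent.S04615

/-- If h, g are analytic on the unit disk with h(0)=0, h'(0)=1, g(0)=g'(0)=0, ∣g'∣<∣h'∣ there, and h+conj(g) is injective on the disk, then its image contains every w with ∣w∣<1/6. -/
theorem result :
    ∀ h g : ℂ → ℂ,
      DifferentiableOn ℂ h (Metric.ball (0 : ℂ) 1) →
      DifferentiableOn ℂ g (Metric.ball (0 : ℂ) 1) →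
      h 0 = 0 → deriv h 0 = 1 → g 0 = 0 → deriv g 0 = 0 →
      (∀ z ∈ Metric.ball (0 : ℂ) 1, ‖deriv g z‖ < ‖deriv h z‖) →
      Set.InjOn (fun z => h z + starRingEnd ℂ (g z)) (Metric.ball (0 : ℂ) 1) →
      Metric.ball (0 : ℂ) (1 / 6) ⊆
        (fun z => h z + starRingEnd ℂ (g z)) '' Metric.ball (0 : ℂ) 1 := by
  exact Pool.Agent.Lib.MP4cd976.sixth_of_apx Pool.Agent.Lib.MP4cd976.D.apx

end Pool.Agent.S04615
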