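import Pool.Statements.S04846
import Pool.Agent.Lib.MP_6153ad_an.Dim
import Pool.Agent.Lib.MP_6153ad_an.Four

set_option autoImplicit false
open scoped FourierTransform
open Pool Pool.MP_6153ad_an Pool.Agent.Lib.MP_6153ad_an

namespace Pool.Agent.S04846

/-- The negation of the preceding statement: For a compact metrizable real flow with mean dimension below a>0 and each r-periodic set of covering dimension at most ⌊ar⌋, there is a continuous injective shift-equivariant map into functions bounded by 1 whose Fourier transform is supported in [-a,a]. -/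
theorem result :
    ¬ (∀ (X : Type) [TopologicalSpace X] [CompactSpace X] [TopologicalSpace.MetrizableSpace X]
    [AddAction ℝ X] [ContinuousVAdd ℝ X] (a : ℝ), 0 < a →
    (∃ c : ℝ, c < a ∧ ∀ (k : ℕ) (α : Fin k → Set X), (∀ i, IsOpen (α i)) →
      (⋃ i, α i) = Set.univ →
      ∃ n : ℕ, 0 < n ∧ ∃ (m : ℕ) (γ : Fin m → Set X), (∀ j, IsOpen (γ j)) ∧
        (⋃ j, γ j) = Set.univ ∧
        (∀ j, ∃ s : Fin n → Fin k, γ j ⊆ {x | ∀ i : Fin n, ((i : ℕ) : ℝ) +ᵥ x ∈ α (s i)}) ∧
        ∀ x : X, (({j : Fin m | x ∈ γ j}.ncard : ℝ) - 1 < c * n)) →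
    (∀ r : ℝ, 0 < r → ∀ (k : ℕ) (α : Fin k → Set X), (∀ i, IsOpen (α i)) →
      {x : X | r +ᵥ x = x} ⊆ ⋃ i, α i →
      ∃ (m : ℕ) (γ : Fin m → Set X), (∀ j, IsOpen (γ j)) ∧
        {x : X | r +ᵥ x = x} ⊆ ⋃ j, γ j ∧
        (∀ j, ∃ i, γ j ∩ {x : X | r +ᵥ x = x} ⊆ α i) ∧
        ∀ x ∈ {x : X | r +ᵥ x = x}, {j : Fin m | x ∈ γ j}.ncard ≤ ⌊a * r⌋₊ + 1) →
    ∃ Φ : X → C(ℝ, ℝ), Continuous Φ ∧ Function.Injective Φ ∧
      (∀ (x : X) (t : ℝ), |Φ x t| ≤ 1) ∧
      (∀ (x : X) (φ : SchwartzMap ℝ ℂ), HasCompactSupport (⇑φ) →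
        Disjoint (tsupport (⇑φ)) (Set.Icc (-a) a) →
        ∫ t, ((Φ x t : ℝ) : ℂ) * 𝓕 (⇑φ : ℝ → ℂ) t = 0) ∧
      ∀ (r : ℝ) (x : X) (t : ℝ), Φ (r +ᵥ x) t = Φ x (t + r)) := by
  intro H
  obtain ⟨Φ, hΦc, hΦi, -, hΦs, hΦe⟩ := H XS 2 (by norm_num)
    (by
      refine ⟨3 / 2, by norm_num, fun k α hα hcov => ?_⟩
      obtain ⟨m, γ, h1, h2, h3, h4⟩ := cov_dim k α hα hcov
      refine ⟨1, one_pos, m, γ, h1, h2, ?_, ?_⟩
      · intro j
        obtain ⟨i, hi⟩ := h3 j
        refine ⟨fun _ => i, fun x hx l => ?_⟩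
        have hl : ((l : ℕ) : ℝ) = 0 := by
          have : (l : ℕ) = 0 := by omega
          rw [this, Nat.cast_zero]
        rw [hl, zero_vadd]
        exact hi hx
      · intro x
        have h5 : (({j : Fin m | x ∈ γ j}.ncard : ℕ) : ℝ) ≤ 2 := by exact_mod_cast h4 x
        push_cast
        linarith)
    (by
      intro r hr k α hα hcov
      have hcont : Continuous fun x : XS => r +ᵥ x := continuous_const_vadd r
      have hclosed : IsClosed {x : XS | r +ᵥ x = x} := isClosed_eq hcont continuous_id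
      rcases ({x : XS | r +ᵥ x = x}).eq_empty_or_nonempty with he | ⟨x₀, hx₀⟩
      · refine ⟨0, fun i => i.elim0, fun i => i.elim0, ?_, fun i => i.elim0, ?_⟩
        · rw [he]; exact Set.empty_subset _
        · intro x hx
          rw [he] at hx
          exact absurd hx (Set.notMem_empty x)
      · have hr2 : 1 / 2 ≤ r := period_ge hr hx₀
        have hfl : 1 ≤ ⌊(2 : ℝ) * r⌋₊ := by
          apply Nat.le_floor
          push_cast; linarith
        -- cover of the whole space
        set β : Fin (k + 1) → Set XS := Fin.lastCases ({x : XS | r +ᵥ x = x}ᶜ) α with hβ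
        have hβl : β (Fin.last k) = {x : XS | r +ᵥ x = x}ᶜ := by simp [hβ]
        have hβc : ∀ i : Fin k, β (Fin.castSucc i) = α i := by intro i; simp [hβ]
        have hβo : ∀ i, IsOpen (β i) := by
          intro i
          refine Fin.lastCases ?_ (fun i => ?_) i
          · rw [hβl]; exact hclosed.isOpen_compl
          · rw [hβc]; exact hα i
        have hβu : ⋃ i, β i = Set.univ := by
          rw [Set.eq_univ_iff_forall]
          intro x
          rw [Set.mem_iUnion]
          by_cases hx : x ∈ {x : XS | r +ᵥ x = x}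
          · obtain ⟨i, hi⟩ := Set.mem_iUnion.1 (hcov hx)
            exact ⟨Fin.castSucc i, by rw [hβc]; exact hi⟩
          · exact ⟨Fin.last k, by rw [hβl]; exact hx⟩
        obtain ⟨m, γ, h1, h2, h3, h4⟩ := cov_dim (k + 1) β hβo hβu
        -- a default index
        obtain ⟨i₀, -⟩ := Set.mem_iUnion.1 (hcov hx₀)
        refine ⟨m, γ, h1, ?_, ?_, ?_⟩
        · rw [h2]; exact Set.subset_univ _
        · intro j
          obtain ⟨i, hi⟩ := h3 j
          revert hi
          refine Fin.lastCases ?_ (fun i => ?_) i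
          · intro hi
            refine ⟨i₀, ?_⟩
            rintro x ⟨hx1, hx2⟩
            have := hi hx1
            rw [hβl] at this
            exact absurd hx2 this
          · intro hi
            refine ⟨i, fun x hx => ?_⟩
            have := hi hx.1
            rwa [hβc] at this
        · intro x _
          have := h4 x
          omega)
  -- limits of band-limited functions along the periodic orbits
  have heval : ∀ t : ℝ, Filter.Tendsto (fun k => Φ (pt k) t) Filter.atTop (nhds (Φ pt0 t)) := by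
    intro t
    have h1 : Continuous fun f : C(ℝ, ℝ) => f t := by fun_prop
    exact ((h1.comp hΦc).tendsto pt0).comp tendsto_pt
  have hjoint : ∀ t : ℝ, Filter.Tendsto (fun k => Φ (pt k) (t + per k / 2)) Filter.atTop
      (nhds (Φ pt0 (t + 1 / 2))) := by
    intro t
    have h1 : Continuous fun q : C(ℝ, ℝ) × ℝ => q.1 q.2 := by fun_prop
    have h2 : Filter.Tendsto (fun k => (Φ (pt k), t + per k / 2)) Filter.atTop
        (nhds (Φ pt0, t + 1 / 2)) :=
      ((hΦc.tendsto pt0).comp tendsto_pt).prodMk_nhds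
        (tendsto_const_nhds.add (tendsto_per.div_const 2))
    exact (h1.tendsto _).comp h2
  have hconst : ∀ k, ∃ c : ℝ, ∀ t, Φ (pt k) t + Φ (pt k) (t + per k / 2) = c := by
    intro k
    apply half_period (per_pos k) (per_lt_one k) (Φ (pt k))
    · intro t
      rw [← hΦe, per_vadd]
    · intro φ h1 h2
      exact hΦs (pt k) φ h1 h2
  have hlim : ∀ t, Φ pt0 t + Φ pt0 (t + 1 / 2) = Φ pt0 0 + Φ pt0 (0 + 1 / 2) := by
    intro t
    have h1 := (heval t).add (hjoint t)
    have h2 := (heval 0).add (hjoint 0)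
    refine tendsto_nhds_unique h1 (h2.congr fun k => ?_)
    obtain ⟨c, hc⟩ := hconst k
    rw [hc t, hc 0]
  have hper : ∀ t, Φ pt0 (t + 1 / 2) = Φ pt0 t := by
    intro t
    rw [← hΦe, half_vadd_pt0]
  have hc : ∀ t, Φ pt0 t = Φ pt0 0 := by
    intro t
    have := hlim t
    rw [hper, hper] at this
    linarith
  apply quarter_vadd_pt0
  apply hΦi
  ext t
  rw [hΦe, hc, hc t]

end Pool.Agent.S04846
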