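import Pool.Statements.S05316
import Pool.Agent.Lib.MP_8a8b2f_an.Final

set_option autoImplicit false
open Pool Pool.MP_8a8b2f_an

namespace Pool.Agent.S05316

/-- The negation of the preceding statement: Take a strongly continuous contraction semigroup on a complex Hilbert space with generator A, and some m>0 with ‖(μ−A)x‖ ≥ m∣Re μ∣‖x‖ for all x in D(A) and Re μ<0. Then some m₁>0 gives ‖T(t)x‖ ≥ m₁‖x‖ for all t≥0 and all x. -/
theorem result :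
    ¬ (∀ (H : Type) [NormedAddCommGroup H] [InnerProductSpace ℂ H] [CompleteSpace H]
      (T : ℝ → H →L[ℂ] H),
      T 0 = ContinuousLinearMap.id ℂ H →
      (∀ s t : ℝ, 0 ≤ s → 0 ≤ t → T (s + t) = (T s).comp (T t)) →
      (∀ x : H, ContinuousOn (fun t : ℝ => T t x) (Set.Ici 0)) →
      (∀ t : ℝ, 0 ≤ t → ‖T t‖ ≤ 1) →
      ∀ m : ℝ, 0 < m →
      (∀ x y : H,
        Filter.Tendsto (fun h : ℝ => ((h : ℂ)⁻¹) • (T h x - x))
          (nhdsWithin 0 (Set.Ioi 0)) (nhds y) →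
        ∀ μ : ℂ, μ.re < 0 → m * |μ.re| * ‖x‖ ≤ ‖μ • x - y‖) →
      ∃ m₁ : ℝ, 0 < m₁ ∧ ∀ t : ℝ, 0 ≤ t → ∀ x : H, m₁ * ‖x‖ ≤ ‖T t x‖) := by
  -- Counterexample: right translation on L^2((0,oo), (1+x)^(-2) dx).
  intro H
  obtain ⟨m₁, hm₁, hall⟩ := H Pool.Agent.Lib.MP_8a8b2f_an.H Pool.Agent.Lib.MP_8a8b2f_an.T
    Pool.Agent.Lib.MP_8a8b2f_an.T_zero
    (fun s t hs ht => Pool.Agent.Lib.MP_8a8b2f_an.T_add hs ht)
    (fun x => Pool.Agent.Lib.MP_8a8b2f_an.continuousOn_T x)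
    (fun t _ => Pool.Agent.Lib.MP_8a8b2f_an.norm_T_le t) (1 / 2) (by norm_num)
    (fun x y hxy μ hμ => Pool.Agent.Lib.MP_8a8b2f_an.resolvent_bound hxy hμ)
  obtain ⟨f, hf⟩ := Pool.Agent.Lib.MP_8a8b2f_an.exists_ne_zero
  have h1 := Pool.Agent.Lib.MP_8a8b2f_an.tendsto_T_atTop f
  have h2 : (m₁ * ‖f‖) ^ 2 ≤ 0 := by
    refine ge_of_tendsto h1 ?_
    filter_upwards [Filter.eventually_ge_atTop (0 : ℝ)] with t ht
    exact pow_le_pow_left₀ (by positivity) (hall t ht f) 2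
  have h3 : 0 < m₁ * ‖f‖ := mul_pos hm₁ (norm_pos_iff.2 hf)
  have h4 : 0 < (m₁ * ‖f‖) ^ 2 := by positivity
  linarith

end Pool.Agent.S05316
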