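import Pool.Statements.S05789
import Pool.Agent.Lib.MP_365485_an.Discrete

set_option autoImplicit false
open Pool Pool.MP_acb846_an

namespace Pool.Agent.S05789

/-- Lower sets of the rationals are the empty set, everything, or cuts at real numbers. -/
lemma lowerSet_rat (A : LowerSet ℚ) :
    (∀ q : ℚ, q ∉ A) ∨ (∀ q : ℚ, q ∈ A) ∨
      ∃ t : ℝ, (∀ q : ℚ, q ∉ A ↔ t < (q : ℝ)) ∨ (∀ q : ℚ, q ∉ A ↔ t ≤ (q : ℝ)) := by
  by_cases h0 : ∃ q : ℚ, q ∈ A
  swap
  · left; intro q hq; exact h0 ⟨q, hq⟩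
  by_cases h1 : ∃ q : ℚ, q ∉ A
  swap
  · right; left; intro q; by_contra hq; exact h1 ⟨q, hq⟩
  right; right
  obtain ⟨a, ha⟩ := h0
  obtain ⟨b, hb⟩ := h1
  set R : Set ℝ := {x | ∃ q : ℚ, q ∈ A ∧ (q : ℝ) = x} with hR
  have hne : R.Nonempty := ⟨a, a, ha, rfl⟩
  have hub : ∀ c : ℚ, c ∉ A → ∀ x ∈ R, x ≤ c := by
    rintro c hc x ⟨q, hq, rfl⟩
    by_contra hcon
    rw [not_le] at hcon
    exact hc (A.lower (by exact_mod_cast hcon.le) hq)
  have hbdd : BddAbove R := ⟨b, hub b hb⟩
  set t : ℝ := sSup R with ht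
  refine ⟨t, ?_⟩
  by_cases hmem : ∃ q : ℚ, q ∈ A ∧ (q : ℝ) = t
  · left
    obtain ⟨q₀, hq₀, hq₀t⟩ := hmem
    intro q
    constructor
    · intro hq
      rw [← hq₀t]
      by_contra hcon
      rw [not_lt] at hcon
      exact hq (A.lower (by exact_mod_cast hcon) hq₀)
    · intro hq hqA
      exact absurd (le_csSup hbdd ⟨q, hqA, rfl⟩) (not_le.mpr hq)
  · right
    intro q
    constructor
    · intro hq
      exact csSup_le hne (hub q hq)
    · intro hq hqA
      have h1 : (q : ℝ) ≤ t := le_csSup hbdd ⟨q, hqA, rfl⟩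
      exact hmem ⟨q, hqA, le_antisymm h1 hq⟩

/-- There is a bounded operator on ℓ²(ℚ) whose closed invariant subspaces are exactly 0, the whole space, and, for real t, the functions supported on rationals ≤ t or on rationals < t. -/
theorem result :
    ∃ T : lp (fun _ : ℚ => ℂ) 2 →L[ℂ] lp (fun _ : ℚ => ℂ) 2,
      ∀ M : Submodule ℂ (lp (fun _ : ℚ => ℂ) 2),
        (IsClosed (M : Set (lp (fun _ : ℚ => ℂ) 2)) ∧ ∀ x ∈ M, T x ∈ M) ↔
          (M = ⊥ ∨ M = ⊤ ∨
            ∃ t : ℝ,
              (∀ f : lp (fun _ : ℚ => ℂ) 2, f ∈ M ↔ ∀ q : ℚ, t < (q : ℝ) → f q = 0) ∨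
              (∀ f : lp (fun _ : ℚ => ℂ) 2, f ∈ M ↔ ∀ q : ℚ, t ≤ (q : ℝ) → f q = 0)) := by
  obtain ⟨T, hT⟩ := Pool.Agent.Lib.Nest.exists_unicellular_discrete ℚ
  refine ⟨T, fun M => ?_⟩
  rw [hT]
  constructor
  · rintro ⟨A, hA⟩
    rcases lowerSet_rat A with h | h | ⟨t, h | h⟩
    · left
      rw [eq_bot_iff]
      intro f hf
      rw [hA] at hf
      rw [Submodule.mem_bot]
      ext q
      exact hf q (h q)
    · right; left
      rw [eq_top_iff]
      intro f _
      rw [hA]
      intro q hq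
      exact absurd (h q) hq
    · right; right
      refine ⟨t, Or.inl fun f => ?_⟩
      rw [hA]
      exact ⟨fun hf q hq => hf q ((h q).mpr hq), fun hf q hq => hf q ((h q).mp hq)⟩
    · right; right
      refine ⟨t, Or.inr fun f => ?_⟩
      rw [hA]
      exact ⟨fun hf q hq => hf q ((h q).mpr hq), fun hf q hq => hf q ((h q).mp hq)⟩
  · rintro (rfl | rfl | ⟨t, h | h⟩)
    · refine ⟨⊥, fun f => ?_⟩
      rw [Submodule.mem_bot]
      constructor
      · rintro rfl q _
        rfl
      · intro hf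
        ext q
        exact hf q (LowerSet.notMem_bot)
    · refine ⟨⊤, fun f => ?_⟩
      constructor
      · intro _ q hq
        exact absurd LowerSet.mem_top hq
      · intro _
        exact Submodule.mem_top
    · refine ⟨⟨{q : ℚ | (q : ℝ) ≤ t}, ?_⟩, fun f => ?_⟩
      · intro a b hba ha
        have ha' : (a : ℝ) ≤ t := ha
        have hba' : (b : ℝ) ≤ a := by exact_mod_cast hba
        exact hba'.trans ha'
      · rw [h]
        constructor
        · intro hf q hq
          refine hf q ?_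
          by_contra hcon
          exact hq (not_lt.mp hcon)
        · intro hf q hq
          refine hf q ?_
          intro hcon
          exact absurd hq (not_lt.mpr hcon)
    · refine ⟨⟨{q : ℚ | (q : ℝ) < t}, ?_⟩, fun f => ?_⟩
      · intro a b hba ha
        have ha' : (a : ℝ) < t := ha
        have hba' : (b : ℝ) ≤ a := by exact_mod_cast hba
        exact hba'.trans_lt ha'
      · rw [h]
        constructor
        · intro hf q hq
          refine hf q ?_
          by_contra hcon
          exact hq (not_le.mp hcon)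
        · intro hf q hq
          refine hf q ?_
          intro hcon
          exact absurd hq (not_le.mpr hcon)

end Pool.Agent.S05789
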