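import Pool.Statements.S06251
import Pool.Agent.Lib.MP_d26cd8_an.Final.Frozen

set_option autoImplicit false
open MeasureTheory Filter Topology
open Pool Pool.MP_d26cd8_an

namespace Pool.Agent.S06251

/-- For ℓ≥2 nonconstant integer polynomials with nonconstant pairwise differences and any invertible measure-preserving system, if some bounded fⱼ has zero ℓ-th Host–Kra seminorm then the polynomial multiple averages tend to 0 in L², i.e. Z_{ℓ−1} is characteristic. -/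
theorem result :
    ∀ (ℓ : ℕ), 2 ≤ ℓ →
    ∀ (p : Fin ℓ → Polynomial ℤ),
      (∀ i, 0 < (p i).natDegree) →
      (∀ i j, i ≠ j → 0 < (p i - p j).natDegree) →
    ∀ (α : Type) [MeasurableSpace α] [StandardBorelSpace α]
      (μ : Measure α) [IsProbabilityMeasure μ] (T : Equiv.Perm α),
      Measurable (⇑T) → Measurable (⇑T.symm) → MeasurePreserving (⇑T) μ μ →
    ∀ (f : Fin ℓ → α → ℂ), (∀ i, Measurable (f i)) →
      (∃ C : ℝ, ∀ i x, ‖f i x‖ ≤ C) →
    ∀ j : Fin ℓ,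
      Tendsto (fun H : ℕ => ((H : ℂ) ^ ℓ)⁻¹ *
          ∑ h : Fin ℓ → Fin H, ∫ x, ∏ ε : Finset (Fin ℓ),
            (if Even ε.card then f j ((⇑T)^[∑ i ∈ ε, (h i : ℕ)] x)
             else starRingEnd ℂ (f j ((⇑T)^[∑ i ∈ ε, (h i : ℕ)] x))) ∂μ)
        atTop (𝓝 0) →
      Tendsto (fun N : ℕ => ∫ x, ‖((N : ℂ))⁻¹ *
          ∑ n ∈ Finset.range N, ∏ i : Fin ℓ,
            f i ((T ^ ((p i).eval (n : ℤ))) x)‖ ^ 2 ∂μ)
        atTop (𝓝 0) :=
  MPd26.HK.Fin.frozen

end Pool.Agent.S06251
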