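import Pool.Statements.S06383
import Pool.Agent.Lib.MP_dc9a2a_an.Density

set_option autoImplicit false
open Pool Pool.MP_dc9a2a_an

namespace Pool.Agent.S06383

/-- For the real Gurarij space (separable Banach space with the almost-isometric extension property), its linear isometry group has a locally finite subgroup dense in the pointwise-convergence topology. -/
theorem result :
    ∀ (G : Type) [NormedAddCommGroup G] [NormedSpace ℝ G] [CompleteSpace G]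
      [TopologicalSpace.SeparableSpace G],
      (∀ (F : Type) [NormedAddCommGroup F] [NormedSpace ℝ F] [FiniteDimensional ℝ F]
          (E : Submodule ℝ F) (T : E →ₗᵢ[ℝ] G) (ε : ℝ), 0 < ε →
          ∃ S : F →ₗ[ℝ] G, (∀ x : E, S (x : F) = T x) ∧
            ∀ x : F, (1 - ε) * ‖x‖ ≤ ‖S x‖ ∧ ‖S x‖ ≤ (1 + ε) * ‖x‖) →
      ∃ H : Subgroup (G ≃ₗᵢ[ℝ] G),
        (∀ s : Finset (G ≃ₗᵢ[ℝ] G),
            (↑s : Set (G ≃ₗᵢ[ℝ] G)) ⊆ (H : Set (G ≃ₗᵢ[ℝ] G)) →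
            ((Subgroup.closure (↑s : Set (G ≃ₗᵢ[ℝ] G)) : Subgroup (G ≃ₗᵢ[ℝ] G)) :
              Set (G ≃ₗᵢ[ℝ] G)).Finite) ∧
        (∀ g : G ≃ₗᵢ[ℝ] G, ∀ s : Finset G, ∀ ε : ℝ, 0 < ε →
            ∃ h ∈ H, ∀ x ∈ s, ‖h x - g x‖ < ε) := by
  intro G _ _ _ _ hG'
  classical
  have hG : Pool.Agent.Lib.MP_dc9a2a_an.GurProp G := hG'
  obtain ⟨Θ, _, ρ, Lv, hmono, hall, hfin, htask⟩ :=
    Pool.Agent.Lib.MP_dc9a2a_an.construct hG (TopologicalSpace.denseSeq G)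
      (TopologicalSpace.denseRange_denseSeq G)
  refine ⟨ρ.range, ?_, ?_⟩
  · intro s hs
    have hex : ∀ g : (↑s : Set (G ≃ₗᵢ[ℝ] G)), ∃ k, ∃ θ ∈ Lv k, ρ θ = g.1 := by
      rintro ⟨g, hg⟩
      obtain ⟨θ, hθ⟩ := hs hg
      obtain ⟨k, hk⟩ := hall θ
      exact ⟨k, θ, hk, hθ⟩
    choose k θ hθ1 hθ2 using hex
    obtain ⟨K, hK⟩ : ∃ K, ∀ g, k g ≤ K := by
      refine ⟨∑ g, k g, fun g => ?_⟩
      exact Finset.single_le_sum (f := k) (fun _ _ => Nat.zero_le _) (Finset.mem_univ g)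
    have hle : Subgroup.closure (↑s : Set (G ≃ₗᵢ[ℝ] G)) ≤ (Lv K).map ρ := by
      rw [Subgroup.closure_le]
      intro g hg
      exact ⟨θ ⟨g, hg⟩, hmono (hK ⟨g, hg⟩) (hθ1 ⟨g, hg⟩), hθ2 ⟨g, hg⟩⟩
    exact (hfin K).subset hle
  · intro g s ε hε
    obtain ⟨θ, hθ⟩ := Pool.Agent.Lib.MP_dc9a2a_an.dense_group hG
      (TopologicalSpace.denseRange_denseSeq G) ρ htask g s hε
    exact ⟨ρ θ, ⟨θ, rfl⟩, hθ⟩

end Pool.Agent.S06383
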