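import Pool.Statements.S06493
-- import your own Pool.Agent.* helpers here

set_option autoImplicit false
open Pool Pool.MP_e46b3e_an

open MeasureTheory Finset

namespace Pool.Agent.S06493

/-- cut points `(k/4)^(1/p)` -/
noncomputable def cut (p : ℝ) (k : ℕ) : ℝ := ((k:ℝ)/4) ^ (1/p)

lemma cut_nonneg (p : ℝ) (k : ℕ) : 0 ≤ cut p k := by unfold cut; positivity

lemma cut_lt {p : ℝ} (hp : 0 < p) {j k : ℕ} (h : j < k) : cut p j < cut p k := by
  unfold cut
  apply Real.rpow_lt_rpow (by positivity) _ (by positivity)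
  have : (j:ℝ) < k := by exact_mod_cast h
  linarith

lemma cut_zero {p : ℝ} (hp : 0 < p) : cut p 0 = 0 := by
  unfold cut
  simp only [Nat.cast_zero, zero_div]
  exact Real.zero_rpow (by positivity)

lemma cut_four (p : ℝ) : cut p 4 = 1 := by unfold cut; norm_num

lemma cut_rpow {p : ℝ} (hp : 0 < p) (k : ℕ) : cut p k ^ p = (k:ℝ)/4 := by
  unfold cut; rw [← Real.rpow_mul (by positivity), one_div, inv_mul_cancel₀ hp.ne', Real.rpow_one]

lemma cut_rpow_succ {p : ℝ} (hp : 0 < p) (k : ℕ) : cut p k ^ (p+1) = ((k:ℝ)/4) ^ (1 + 1/p) := by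
  unfold cut; rw [← Real.rpow_mul (by positivity)]
  congr 1
  field_simp

/-- integral of a step function against a power -/
lemma step_integral {p r : ℝ} (hp : 0 < p) (hr : 0 ≤ r) (F : ℝ → ℝ) (v : ℕ → ℝ)
    (hF : ∀ k < 4, ∀ t ∈ Set.Ioc (cut p k) (cut p (k+1)), F t = v k) :
    ∫ t in Set.Ioc (0:ℝ) 1, F t * t ^ r =
      ∑ k ∈ range 4, v k * (((cut p (k+1)) ^ (r+1) - (cut p k)^(r+1)) / (r+1)) := by
  have h01 : ∫ t in Set.Ioc (0:ℝ) 1, F t * t ^ r = ∫ t in (cut p 0)..(cut p 4), F t * t^r := by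
    rw [cut_zero hp, cut_four, intervalIntegral.integral_of_le zero_le_one]
  rw [h01, ← intervalIntegral.sum_integral_adjacent_intervals]
  · apply Finset.sum_congr rfl
    intro k hk
    have hle : cut p k ≤ cut p (k+1) := (cut_lt hp (Nat.lt_succ_self k)).le
    rw [intervalIntegral.integral_of_le hle]
    rw [setIntegral_congr_fun (g := fun t => v k * t ^ r) measurableSet_Ioc]
    · rw [← intervalIntegral.integral_of_le hle, intervalIntegral.integral_const_mul,
        integral_rpow (Or.inl (by linarith))]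
    · intro t ht
      simp only
      rw [hF k (by simpa using hk) t ht]
  · intro k hk
    have hle : cut p k ≤ cut p (k+1) := (cut_lt hp (Nat.lt_succ_self k)).le
    rw [intervalIntegrable_iff_integrableOn_Ioc_of_le hle]
    have h1 : IntegrableOn (fun t => v k * t^r) (Set.Ioc (cut p k) (cut p (k+1))) := by
      rw [← intervalIntegrable_iff_integrableOn_Ioc_of_le hle]
      apply IntervalIntegrable.const_mul
      exact intervalIntegral.intervalIntegrable_rpow' (by linarith)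
    refine h1.congr_fun ?_ measurableSet_Ioc
    intro t ht
    simp only
    rw [hF k hk t ht]

noncomputable def g0 (p δ t : ℝ) : ℝ :=
  if t ≤ cut p 1 then -δ else if t ≤ cut p 2 then δ else 0

noncomputable def g1 (p δ t : ℝ) : ℝ :=
  if t ≤ cut p 2 then 0 else if t ≤ cut p 3 then -δ else δ

noncomputable def G (p δ : ℝ) (k : Fin 3) (t : ℝ) : ℝ :=
  if k = 0 then g0 p δ t else if k = 1 then g1 p δ t else 1 - g0 p δ t - g1 p δ t

def v0 (δ : ℝ) (k : ℕ) : ℝ := if k = 0 then -δ else if k = 1 then δ else 0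
def v1 (δ : ℝ) (k : ℕ) : ℝ := if k = 2 then -δ else if k = 3 then δ else 0

noncomputable def V (δ : ℝ) (j : Fin 3) (k : ℕ) : ℝ :=
  if j = 0 then v0 δ k else if j = 1 then v1 δ k else 1 - v0 δ k - v1 δ k

lemma g0_eq {p δ : ℝ} (hp : 0 < p) {k : ℕ} (hk : k < 4) {t : ℝ}
    (ht : t ∈ Set.Ioc (cut p k) (cut p (k+1))) : g0 p δ t = v0 δ k := by
  have h01 := cut_lt hp (show 0 < 1 by norm_num)
  have h12 := cut_lt hp (show 1 < 2 by norm_num)
  have h23 := cut_lt hp (show 2 < 3 by norm_num)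
  have h34 := cut_lt hp (show 3 < 4 by norm_num)
  obtain ⟨h1, h2⟩ := ht
  interval_cases k <;> simp only [g0, v0] <;> norm_num at h1 h2 ⊢ <;> intros <;> split_ifs <;> linarith

lemma g1_eq {p δ : ℝ} (hp : 0 < p) {k : ℕ} (hk : k < 4) {t : ℝ}
    (ht : t ∈ Set.Ioc (cut p k) (cut p (k+1))) : g1 p δ t = v1 δ k := by
  have h01 := cut_lt hp (show 0 < 1 by norm_num)
  have h12 := cut_lt hp (show 1 < 2 by norm_num)
  have h23 := cut_lt hp (show 2 < 3 by norm_num)
  have h34 := cut_lt hp (show 3 < 4 by norm_num)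
  obtain ⟨h1, h2⟩ := ht
  interval_cases k <;> simp only [g1, v1] <;> norm_num at h1 h2 ⊢ <;> intros <;> split_ifs <;> linarith


lemma G_eq {p δ : ℝ} (hp : 0 < p) (j : Fin 3) {k : ℕ} (hk : k < 4) {t : ℝ}
    (ht : t ∈ Set.Ioc (cut p k) (cut p (k+1))) : G p δ j t = V δ j k := by
  unfold G V
  rw [g0_eq hp hk ht, g1_eq hp hk ht]

lemma g0_meas (p δ : ℝ) : Measurable (g0 p δ) := by
  unfold g0
  exact Measurable.ite measurableSet_Iic measurable_const
    (Measurable.ite measurableSet_Iic measurable_const measurable_const)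

lemma g1_meas (p δ : ℝ) : Measurable (g1 p δ) := by
  unfold g1
  exact Measurable.ite measurableSet_Iic measurable_const
    (Measurable.ite measurableSet_Iic measurable_const measurable_const)

lemma G_meas (p δ : ℝ) (j : Fin 3) : Measurable (G p δ j) := by
  have h0 := g0_meas p δ
  have h1 := g1_meas p δ
  unfold G
  fin_cases j
  · simpa using h0
  · simpa using h1
  · have h2 : Measurable (fun t => 1 - g0 p δ t - g1 p δ t) := (measurable_const.sub h0).sub h1
    simpa using h2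

lemma G_bound (p : ℝ) {δ : ℝ} (h0 : 0 < δ) (h1 : δ < 1) (j : Fin 3) (t : ℝ) : |G p δ j t| ≤ 3 := by
  have a0 : |g0 p δ t| ≤ 1 := by
    unfold g0; split_ifs <;> simp [abs_of_pos h0, h1.le]
  have a1 : |g1 p δ t| ≤ 1 := by
    unfold g1; split_ifs <;> simp [abs_of_pos h0, h1.le]
  rw [abs_le] at *
  unfold G
  split_ifs <;> constructor <;> linarith

lemma G_sum (p δ t : ℝ) : ∑ j : Fin 3, G p δ j t = 1 := by
  rw [Fin.sum_univ_three]
  simp [G]

/-- weights -/
noncomputable def B (p : ℝ) (k : ℕ) : ℝ :=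
  ((cut p (k+1)) ^ (p+1) - (cut p k)^(p+1)) / (p+1)

lemma B_pos {p : ℝ} (hp : 0 < p) (k : ℕ) : 0 < B p k := by
  unfold B
  apply div_pos _ (by linarith)
  have := Real.rpow_lt_rpow (cut_nonneg p k) (cut_lt hp (Nat.lt_succ_self k)) (show 0 < p + 1 by linarith)
  exact sub_pos.mpr this

lemma B_lt {p : ℝ} (hp : 0 < p) (k : ℕ) : B p k < B p (k+1) := by
  unfold B
  rw [cut_rpow_succ hp, cut_rpow_succ hp, cut_rpow_succ hp]
  apply div_lt_div_of_pos_right _ (by linarith)
  have hs : (1:ℝ) < 1 + 1/p := by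
    have : 0 < 1/p := by positivity
    linarith
  have hsc := strictConvexOn_rpow hs
  have hx : (k:ℝ)/4 ∈ Set.Ici (0:ℝ) := by simp only [Set.mem_Ici]; positivity
  have hy : ((k+1+1 : ℕ):ℝ)/4 ∈ Set.Ici (0:ℝ) := by simp only [Set.mem_Ici]; positivity
  have hxy : (k:ℝ)/4 ≠ ((k+1+1 : ℕ):ℝ)/4 := by
    push_cast; intro h; linarith
  have := hsc.2 hx hy hxy (show (0:ℝ) < 1/2 by norm_num) (show (0:ℝ) < 1/2 by norm_num)
    (by norm_num)
  simp only [smul_eq_mul] at this
  have h2 : (1:ℝ)/2 * ((k:ℝ)/4) + 1/2 * (((k+1+1 : ℕ):ℝ)/4) = ((k+1 : ℕ):ℝ)/4 := by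
    push_cast; ring
  rw [h2] at this
  linarith


/-- the key 1D lemma -/
lemma exists_family {p : ℝ} (hp : 1 < p) (N : ℕ) :
    ∃ (g : Fin 3 → ℝ → ℝ) (s : ℝ),
      (∀ j, Measurable (g j)) ∧ (∀ j t, |g j t| ≤ 3) ∧
      (∀ t, ∑ j : Fin 3, g j t = 1) ∧
      (∀ w : Fin N → Fin 3, 0 ≤ ∫ t in Set.Ioc (0:ℝ) 1, (∏ l, g (w l) t) * t ^ p) ∧
      (0 < ∫ t in Set.Ioc (0:ℝ) 1, g 0 t * t ^ p) ∧
      (0 < ∫ t in Set.Ioc (0:ℝ) 1, g 1 t * t ^ p) ∧
      (0 ≤ ∫ t in Set.Ioc (0:ℝ) 1, g 2 t * t ^ p) ∧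
      (∀ x, x < s → ∫ t in Set.Ioc (0:ℝ) 1,
        g 1 t * t ^ (p-1) * (if x < t then 1 else 0) = 0) ∧
      (∀ x, s ≤ x → ∫ t in Set.Ioc (0:ℝ) 1,
        g 0 t * t ^ (p-1) * (if x < t then 1 else 0) = 0) := by
  have hp0 : 0 < p := by linarith
  -- choose delta
  have hcont : ContinuousAt (fun δ : ℝ => ((1+δ)/(1-δ))^N) 0 := by
    apply ContinuousAt.pow
    apply ContinuousAt.div
    · fun_prop
    · fun_prop
    · norm_num
  have hK : ∀ᶠ δ in nhds (0:ℝ), ((1+δ)/(1-δ))^N < min (B p 1 / B p 0) (B p 3 / B p 2) := by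
    apply hcont.eventually_lt continuousAt_const
    simp only [add_zero, sub_zero, div_self (one_ne_zero), one_pow, lt_min_iff]
    constructor
    · rw [one_lt_div (B_pos hp0 0)]; exact B_lt hp0 0
    · rw [one_lt_div (B_pos hp0 2)]; exact B_lt hp0 2
  have hK1 : ∀ᶠ δ in nhds (0:ℝ), δ < 1 := eventually_lt_nhds (by norm_num)
  obtain ⟨δ, hδ0, hδK, hδ1⟩ := ((frequently_gt_nhds (0:ℝ)).and_eventually (hK.and hK1)).exists
  have hδ0 : 0 < δ := hδ0
  set K : ℝ := (1+δ)/(1-δ) with hKdef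
  have h1δ : 0 < 1 - δ := by linarith
  have hKpos : 0 < K := by positivity
  have hK1' : 1 ≤ K := by
    rw [hKdef, le_div_iff₀ h1δ]; linarith
  rw [lt_min_iff] at hδK
  obtain ⟨hKa, hKb⟩ := hδK
  rw [lt_div_iff₀ (B_pos hp0 0)] at hKa
  rw [lt_div_iff₀ (B_pos hp0 2)] at hKb
  have hKmul : K * (1 - δ) = 1 + δ := by rw [hKdef]; field_simp
  -- values
  have hV0 : ∀ j : Fin 3, |V δ j 0| ≤ K * V δ j 1 := by
    intro j
    fin_cases j
    · simp [V, v0, abs_of_pos hδ0]
      nlinarith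
    · simp [V, v1]
    · simp [V, v0, v1]
      rw [abs_of_pos (by linarith)]
      linarith
  have hV2 : ∀ j : Fin 3, |V δ j 2| ≤ K * V δ j 3 := by
    intro j
    fin_cases j
    · simp [V, v0]
    · simp [V, v1, abs_of_pos hδ0]
      nlinarith
    · simp [V, v0, v1]
      rw [abs_of_pos (by linarith)]
      linarith
  have hV1 : ∀ j : Fin 3, 0 ≤ V δ j 1 := by
    intro j
    fin_cases j <;> simp [V, v0, v1] <;> linarith
  have hV3 : ∀ j : Fin 3, 0 ≤ V δ j 3 := by
    intro j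
    fin_cases j <;> simp [V, v0, v1] <;> linarith
  have hB0 := B_pos hp0 0
  have hB1 := B_pos hp0 1
  have hB2 := B_pos hp0 2
  have hB3 := B_pos hp0 3
  have hB01 := B_lt hp0 0
  have hB23 := B_lt hp0 2
  have hint : ∀ j : Fin 3, ∫ t in Set.Ioc (0:ℝ) 1, G p δ j t * t ^ p
      = ∑ k ∈ range 4, V δ j k * B p k := by
    intro j
    exact step_integral hp0 hp0.le (G p δ j) (V δ j) (fun k hk t ht => G_eq hp0 j hk ht)
  refine ⟨G p δ, cut p 2, G_meas p δ, G_bound p hδ0 hδ1, G_sum p δ, ?_, ?_, ?_, ?_, ?_, ?_⟩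
  · intro w
    rw [step_integral hp0 hp0.le (fun t => ∏ l, G p δ (w l) t) (fun k => ∏ l, V δ (w l) k)]
    · change 0 ≤ ∑ k ∈ range 4, (∏ l, V δ (w l) k) * B p k
      have e0 : |∏ l, V δ (w l) 0| ≤ K^N * ∏ l, V δ (w l) 1 := by
        rw [Finset.abs_prod]
        calc ∏ l, |V δ (w l) 0| ≤ ∏ l : Fin N, (K * V δ (w l) 1) :=
              Finset.prod_le_prod (fun l _ => abs_nonneg _) (fun l _ => hV0 _)
          _ = K^N * ∏ l, V δ (w l) 1 := by
              rw [Finset.prod_mul_distrib, Finset.prod_const, Finset.card_univ, Fintype.card_fin]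
      have e2 : |∏ l, V δ (w l) 2| ≤ K^N * ∏ l, V δ (w l) 3 := by
        rw [Finset.abs_prod]
        calc ∏ l, |V δ (w l) 2| ≤ ∏ l : Fin N, (K * V δ (w l) 3) :=
              Finset.prod_le_prod (fun l _ => abs_nonneg _) (fun l _ => hV2 _)
          _ = K^N * ∏ l, V δ (w l) 3 := by
              rw [Finset.prod_mul_distrib, Finset.prod_const, Finset.card_univ, Fintype.card_fin]
      have p1 : 0 ≤ ∏ l, V δ (w l) 1 := Finset.prod_nonneg (fun l _ => hV1 _)
      have p3 : 0 ≤ ∏ l, V δ (w l) 3 := Finset.prod_nonneg (fun l _ => hV3 _)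
      simp only [Finset.sum_range_succ, Finset.sum_range_zero, zero_add]
      have f0 := (abs_le.mp e0).1
      have f2 := (abs_le.mp e2).1
      have a0 : -(∏ l, V δ (w l) 0) * B p 0 ≤ (∏ l, V δ (w l) 1) * B p 1 := by
        calc -(∏ l, V δ (w l) 0) * B p 0 ≤ (K^N * ∏ l, V δ (w l) 1) * B p 0 := by
              apply mul_le_mul_of_nonneg_right _ hB0.le
              linarith
          _ = (∏ l, V δ (w l) 1) * (K^N * B p 0) := by ring
          _ ≤ (∏ l, V δ (w l) 1) * B p 1 := mul_le_mul_of_nonneg_left hKa.le p1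
      have a2 : -(∏ l, V δ (w l) 2) * B p 2 ≤ (∏ l, V δ (w l) 3) * B p 3 := by
        calc -(∏ l, V δ (w l) 2) * B p 2 ≤ (K^N * ∏ l, V δ (w l) 3) * B p 2 := by
              apply mul_le_mul_of_nonneg_right _ hB2.le
              linarith
          _ = (∏ l, V δ (w l) 3) * (K^N * B p 2) := by ring
          _ ≤ (∏ l, V δ (w l) 3) * B p 3 := mul_le_mul_of_nonneg_left hKb.le p3
      linarith
    · intro k hk t ht
      apply Finset.prod_congr rfl
      intro l _
      exact G_eq hp0 (w l) hk ht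
  · rw [hint]
    simp [Finset.sum_range_succ, V, v0]
    nlinarith
  · rw [hint]
    simp [Finset.sum_range_succ, V, v1]
    nlinarith
  · rw [hint]
    simp [Finset.sum_range_succ, V, v0, v1]
    have : 0 < 1 + δ := by linarith
    positivity
  · intro x hx
    have h1 : ∀ t, G p δ 1 t * t ^ (p-1) * (if x < t then 1 else 0) = G p δ 1 t * t ^ (p-1) := by
      intro t
      by_cases hxt : x < t
      · simp [hxt]
      · have : t ≤ cut p 2 := by linarith
        simp [G, g1, this]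
    simp only [h1]
    rw [step_integral hp0 (by linarith) (G p δ 1) (V δ 1) (fun k hk t ht => G_eq hp0 1 hk ht)]
    have h2 : p - 1 + 1 = p := by ring
    simp only [h2, cut_rpow hp0]
    simp [Finset.sum_range_succ, V, v1]
    field_simp
    ring
  · intro x hx
    have h1 : ∀ t, G p δ 0 t * t ^ (p-1) * (if x < t then 1 else 0) = 0 := by
      intro t
      by_cases hxt : x < t
      · have h2 : ¬ t ≤ cut p 2 := by linarith
        have h3 : ¬ t ≤ cut p 1 := by
          have := cut_lt hp0 (show 1 < 2 by norm_num)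
          linarith
        simp [G, g0, h2, h3]
      · simp [hxt]
    simp only [h1]
    simp


/-- product measure on the half-open unit cube -/
noncomputable abbrev lam : Measure ℝ := volume.restrict (Set.Ioc (0:ℝ) 1)

noncomputable abbrev Q (d : ℕ) : Measure (Fin d → ℝ) := Measure.pi (fun _ : Fin d => lam)

lemma cube_measure (d : ℕ) :
    (volume : Measure (Fin d → ℝ)).restrict (Set.Icc (0 : Fin d → ℝ) 1) = Q d := by
  have h : lam = volume.restrict (Set.Icc (0:ℝ) 1) :=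
    Measure.restrict_congr_set Ioc_ae_eq_Icc
  unfold Q
  rw [h, volume_pi, ← Measure.restrict_pi_pi, Set.pi_univ_Icc]
  rfl

instance (d : ℕ) : IsFiniteMeasure (Q d) := by
  unfold Q lam; infer_instance

/-- a.e. point of the cube has coordinates in (0,1] -/
lemma ae_pos (d : ℕ) : ∀ᵐ t ∂(Q d), ∀ i, 0 < t i ∧ t i ≤ 1 := by
  rw [ae_all_iff]
  intro i
  have h : ∀ᵐ s ∂lam, 0 < s ∧ s ≤ 1 := by
    have := ae_restrict_mem (μ := (volume : Measure ℝ)) (s := Set.Ioc (0:ℝ) 1) measurableSet_Ioc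
    filter_upwards [this] with s hs using hs
  exact (Measure.tendsto_eval_ae_ae (μ := fun _ : Fin d => lam) (i := i)).eventually h

lemma integrable_of_bdd {d : ℕ} {f : (Fin d → ℝ) → ℝ} (hf : Measurable f) (C : ℝ)
    (hb : ∀ᵐ t ∂(Q d), |f t| ≤ C) : Integrable f (Q d) :=
  Integrable.of_bound hf.aestronglyMeasurable C (by simpa using hb)

section multi

variable {p : ℝ} (hp : 1 < p) {N : ℕ} {g : Fin 3 → ℝ → ℝ} {s : ℝ}
  (hgm : ∀ j, Measurable (g j)) (hgb : ∀ j t, |g j t| ≤ 3)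
  (hgs : ∀ t, ∑ j : Fin 3, g j t = 1)

/-- product function -/
noncomputable def GP {d : ℕ} (g : Fin 3 → ℝ → ℝ) (σ : Fin d → Fin 3) (t : Fin d → ℝ) : ℝ :=
  ∏ i, g (σ i) (t i)

/-- The sum of the good product functions -/
noncomputable def GT {d : ℕ} (g : Fin 3 → ℝ → ℝ) (S : Finset (Fin d → Fin 3)) (t : Fin d → ℝ) : ℝ :=
  ∑ σ ∈ S, GP g σ t

include hgm in
lemma GP_meas {d : ℕ} (σ : Fin d → Fin 3) : Measurable (GP g σ) := by
  unfold GP
  apply Finset.measurable_prod
  intro i _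
  exact (hgm (σ i)).comp (measurable_pi_apply i)

include hgb in
lemma GP_bdd {d : ℕ} (σ : Fin d → Fin 3) (t : Fin d → ℝ) : |GP g σ t| ≤ 3 ^ d := by
  unfold GP
  rw [Finset.abs_prod]
  calc ∏ i, |g (σ i) (t i)| ≤ ∏ i : Fin d, (3:ℝ) :=
        Finset.prod_le_prod (fun i _ => abs_nonneg _) (fun i _ => hgb _ _)
    _ = 3 ^ d := by simp

include hgm in
lemma GT_meas {d : ℕ} (S : Finset (Fin d → Fin 3)) : Measurable (GT g S) := by
  unfold GT
  apply Finset.measurable_sum
  intro σ _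
  exact GP_meas hgm σ

include hgb in
lemma GT_bdd {d : ℕ} (S : Finset (Fin d → Fin 3)) (t : Fin d → ℝ) :
    |GT g S t| ≤ S.card * 3 ^ d := by
  unfold GT
  calc |∑ σ ∈ S, GP g σ t| ≤ ∑ σ ∈ S, |GP g σ t| := Finset.abs_sum_le_sum_abs _ _
    _ ≤ ∑ σ ∈ S, (3:ℝ) ^ d := Finset.sum_le_sum (fun σ _ => GP_bdd hgb σ t)
    _ = S.card * 3 ^ d := by simp

lemma pow_meas (d : ℕ) (r : ℝ) : Measurable (fun t : Fin d → ℝ => ∏ i, (t i) ^ r) := by
  apply Finset.measurable_prod
  intro i _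
  exact (measurable_pi_apply i).pow_const r

lemma pow_bdd (d : ℕ) {r : ℝ} (hr : 0 ≤ r) : ∀ᵐ t ∂(Q d), |∏ i, (t i) ^ r| ≤ 1 := by
  filter_upwards [ae_pos d] with t ht
  rw [Finset.abs_prod]
  apply Finset.prod_le_one (fun i _ => abs_nonneg _)
  intro i _
  rw [abs_of_nonneg (Real.rpow_nonneg (ht i).1.le _)]
  exact Real.rpow_le_one (ht i).1.le (ht i).2 hr

/-- the one dimensional weights -/
noncomputable def m (p : ℝ) (g : Fin 3 → ℝ → ℝ) (j : Fin 3) : ℝ := ∫ t, g j t * t ^ p ∂lam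

noncomputable def M {N : ℕ} (p : ℝ) (g : Fin 3 → ℝ → ℝ) (w : Fin N → Fin 3) : ℝ :=
  ∫ t, (∏ l, g (w l) t) * t ^ p ∂lam

noncomputable def Z (p : ℝ) : ℝ := ∫ t, t ^ p ∂lam

lemma int_GP {d : ℕ} (σ : Fin d → Fin 3) :
    ∫ t, GP g σ t * ∏ i, (t i) ^ p ∂(Q d) = ∏ i, m p g (σ i) := by
  unfold GP m Q
  simp_rw [← Finset.prod_mul_distrib]
  rw [integral_fintype_prod_eq_prod (fun i t => g (σ i) t * t ^ p)]

lemma int_one {d : ℕ} : ∫ t, ∏ i, (t i) ^ p ∂(Q d) = Z p ^ d := by
  unfold Z Q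
  rw [integral_fintype_prod_eq_prod (fun _ t => t ^ p)]
  simp

include hp hgm hgb in
lemma int_GT {d : ℕ} (S : Finset (Fin d → Fin 3)) :
    ∫ t, GT g S t * ∏ i, (t i) ^ p ∂(Q d) = ∑ σ ∈ S, ∏ i, m p g (σ i) := by
  unfold GT
  simp_rw [Finset.sum_mul]
  rw [integral_finsetSum]
  · simp_rw [int_GP]
  · intro σ _
    apply integrable_of_bdd ((GP_meas hgm σ).mul (pow_meas d p)) (3 ^ d * 1)
    filter_upwards [pow_bdd d (show 0 ≤ p by linarith)] with t ht
    rw [Pi.mul_apply, abs_mul]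
    exact mul_le_mul (GP_bdd hgb σ t) ht (abs_nonneg _) (by positivity)

end multi


section multi2

variable {p : ℝ} (hp : 1 < p) {N : ℕ} {g : Fin 3 → ℝ → ℝ} {s : ℝ}
  (hgm : ∀ j, Measurable (g j)) (hgb : ∀ j t, |g j t| ≤ 3)
  (hgs : ∀ t, ∑ j : Fin 3, g j t = 1)

include hp hgm hgb in
lemma int_GT_pow {d : ℕ} (N : ℕ) (S : Finset (Fin d → Fin 3)) :
    ∫ t, (GT g S t) ^ N * ∏ i, (t i) ^ p ∂(Q d) =
      ∑ P ∈ Fintype.piFinset (fun _ : Fin N => S), ∏ i, M p g (fun l => P l i) := by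
  have h1 : ∀ t : Fin d → ℝ, (GT g S t) ^ N * ∏ i, (t i) ^ p =
      ∑ P ∈ Fintype.piFinset (fun _ : Fin N => S), ∏ i, ((∏ l, g (P l i) (t i)) * (t i) ^ p) := by
    intro t
    unfold GT
    rw [Finset.sum_pow', Finset.sum_mul]
    apply Finset.sum_congr rfl
    intro P _
    unfold GP
    rw [Finset.prod_comm, Finset.prod_mul_distrib]
  simp_rw [h1]
  rw [integral_finsetSum]
  · apply Finset.sum_congr rfl
    intro P _
    unfold M Q
    rw [integral_fintype_prod_eq_prod (fun i t => (∏ l, g (P l i) t) * t ^ p)]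
  · intro P _
    have hm : Measurable (fun t : Fin d → ℝ => ∏ i, ((∏ l, g (P l i) (t i)) * (t i) ^ p)) := by
      apply Finset.measurable_prod
      intro i _
      apply Measurable.mul
      · apply Finset.measurable_prod
        intro l _
        exact (hgm _).comp (measurable_pi_apply i)
      · exact (measurable_pi_apply i).pow_const p
    apply integrable_of_bdd hm ((3 ^ N) ^ d)
    filter_upwards [ae_pos d] with t ht
    rw [Finset.abs_prod]
    calc ∏ i, |(∏ l, g (P l i) (t i)) * (t i) ^ p| ≤ ∏ i : Fin d, ((3:ℝ) ^ N) := by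
          apply Finset.prod_le_prod (fun i _ => abs_nonneg _)
          intro i _
          rw [abs_mul, Finset.abs_prod]
          have e1 : ∏ l, |g (P l i) (t i)| ≤ (3:ℝ)^N := by
            calc ∏ l, |g (P l i) (t i)| ≤ ∏ l : Fin N, (3:ℝ) :=
                  Finset.prod_le_prod (fun i _ => abs_nonneg _) (fun i _ => hgb _ _)
              _ = 3 ^ N := by simp
          have e2 : |(t i) ^ p| ≤ 1 := by
            rw [abs_of_nonneg (Real.rpow_nonneg (ht i).1.le _)]
            exact Real.rpow_le_one (ht i).1.le (ht i).2 (by linarith)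
          calc (∏ l, |g (P l i) (t i)|) * |(t i) ^ p| ≤ 3 ^ N * 1 :=
                mul_le_mul e1 e2 (abs_nonneg _) (by positivity)
            _ = 3 ^ N := by ring
      _ = (3 ^ N) ^ d := by simp

include hgs in
lemma GT_univ {d : ℕ} (t : Fin d → ℝ) : GT g (Finset.univ : Finset (Fin d → Fin 3)) t = 1 := by
  unfold GT GP
  have h := Finset.prod_univ_sum (fun _ : Fin d => (Finset.univ : Finset (Fin 3)))
    (fun i j => g j (t i))
  rw [Fintype.piFinset_univ] at h
  rw [← h]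
  simp [hgs]

include hp hgm hgb hgs in
lemma int_GT_pow_le {d : ℕ} (N : ℕ) (S : Finset (Fin d → Fin 3))
    (hM : ∀ w : Fin N → Fin 3, 0 ≤ M p g w) :
    ∫ t, (GT g S t) ^ N * ∏ i, (t i) ^ p ∂(Q d) ≤ Z p ^ d := by
  have h1 : ∫ t, (GT g (Finset.univ : Finset (Fin d → Fin 3)) t) ^ N * ∏ i, (t i) ^ p ∂(Q d)
      = Z p ^ d := by
    simp_rw [GT_univ hgs]
    simp only [one_pow, one_mul]
    exact int_one
  rw [← h1, int_GT_pow hp hgm hgb, int_GT_pow hp hgm hgb]
  apply Finset.sum_le_sum_of_subset_of_nonneg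
  · intro P _
    simp
  · intro P _ _
    exact Finset.prod_nonneg (fun i _ => hM _)

include hp hgm hgb in
/-- orthogonality to the indicator of a corner box -/
lemma int_GT_ind {d : ℕ} (S : Finset (Fin d → Fin 3)) (x : Fin d → ℝ)
    (hS : ∀ σ ∈ S, ∃ i, ∫ t, g (σ i) t * t ^ (p-1) * (if x i < t then 1 else 0) ∂lam = 0) :
    ∫ t, GT g S t * (∏ i, (t i) ^ (p-1)) *
      Set.indicator {y : Fin d → ℝ | ∀ i, x i < y i} (fun _ => (1 : ℝ)) t ∂(Q d) = 0 := by
  have hind : ∀ t : Fin d → ℝ, Set.indicator {y : Fin d → ℝ | ∀ i, x i < y i}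
      (fun _ => (1 : ℝ)) t = ∏ i, (if x i < t i then (1:ℝ) else 0) := by
    intro t
    by_cases h : ∀ i, x i < t i
    · rw [Set.indicator_of_mem (by exact h)]
      simp [h]
    · rw [Set.indicator_of_notMem (by exact h)]
      push Not at h
      obtain ⟨i, hi⟩ := h
      rw [Finset.prod_eq_zero (Finset.mem_univ i)]
      simp [not_lt.mpr hi]
  have h1 : ∀ t : Fin d → ℝ, GT g S t * (∏ i, (t i) ^ (p-1)) *
      Set.indicator {y : Fin d → ℝ | ∀ i, x i < y i} (fun _ => (1 : ℝ)) t =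
      ∑ σ ∈ S, ∏ i, (g (σ i) (t i) * (t i) ^ (p-1) * (if x i < t i then 1 else 0)) := by
    intro t
    rw [hind]
    unfold GT GP
    rw [Finset.sum_mul, Finset.sum_mul]
    apply Finset.sum_congr rfl
    intro σ _
    rw [Finset.prod_mul_distrib, Finset.prod_mul_distrib]
  simp_rw [h1]
  rw [integral_finsetSum]
  · apply Finset.sum_eq_zero
    intro σ hσ
    unfold Q
    rw [integral_fintype_prod_eq_prod
      (fun i t => g (σ i) t * t ^ (p-1) * (if x i < t then 1 else 0))]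
    obtain ⟨i, hi⟩ := hS σ hσ
    exact Finset.prod_eq_zero (Finset.mem_univ i) hi
  · intro σ _
    have hm : Measurable (fun t : Fin d → ℝ =>
        ∏ i, (g (σ i) (t i) * (t i) ^ (p-1) * (if x i < t i then 1 else 0))) := by
      apply Finset.measurable_prod
      intro i _
      apply Measurable.mul
      · apply Measurable.mul
        · exact (hgm _).comp (measurable_pi_apply i)
        · exact (measurable_pi_apply i).pow_const _
      · apply Measurable.ite _ measurable_const measurable_const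
        exact measurableSet_lt measurable_const (measurable_pi_apply i)
    apply integrable_of_bdd hm (3 ^ d)
    filter_upwards [ae_pos d] with t ht
    rw [Finset.abs_prod]
    calc ∏ i, |g (σ i) (t i) * (t i) ^ (p-1) * (if x i < t i then 1 else 0)|
        ≤ ∏ i : Fin d, (3:ℝ) := by
          apply Finset.prod_le_prod (fun i _ => abs_nonneg _)
          intro i _
          rw [abs_mul, abs_mul]
          have e2 : |(t i) ^ (p-1)| ≤ 1 := by
            rw [abs_of_nonneg (Real.rpow_nonneg (ht i).1.le _)]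
            exact Real.rpow_le_one (ht i).1.le (ht i).2 (by linarith)
          have e3 : |(if x i < t i then (1:ℝ) else 0)| ≤ 1 := by split_ifs <;> simp
          calc |g (σ i) (t i)| * |(t i) ^ (p-1)| * |(if x i < t i then (1:ℝ) else 0)|
              ≤ 3 * 1 * 1 := mul_le_mul (mul_le_mul (hgb _ _) e2 (abs_nonneg _) (by norm_num))
                e3 (abs_nonneg _) (by norm_num)
            _ = 3 := by ring
      _ = 3 ^ d := by simp

end multi2

lemma Z_pos {p : ℝ} (hp : 1 < p) : 0 < Z p := by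
  unfold Z
  rw [← intervalIntegral.integral_of_le zero_le_one, integral_rpow (Or.inl (by linarith))]
  have : (0:ℝ) < p + 1 := by linarith
  simp [Real.zero_rpow this.ne', this]

lemma m_sum {p : ℝ} (hp : 1 < p) {g : Fin 3 → ℝ → ℝ}
    (hgm : ∀ j, Measurable (g j)) (hgb : ∀ j t, |g j t| ≤ 3)
    (hgs : ∀ t, ∑ j : Fin 3, g j t = 1) : ∑ j : Fin 3, m p g j = Z p := by
  unfold m Z
  rw [← integral_finsetSum]
  · simp_rw [← Finset.sum_mul, hgs, one_mul]
  · intro j _
    have hm : Measurable (fun t : ℝ => g j t * t ^ p) :=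
      (hgm j).mul (measurable_id.pow_const p)
    refine Integrable.of_bound hm.aestronglyMeasurable 3 ?_
    have := ae_restrict_mem (μ := (volume : Measure ℝ)) (s := Set.Ioc (0:ℝ) 1) measurableSet_Ioc
    filter_upwards [this] with t ht
    rw [Real.norm_eq_abs, abs_mul, abs_of_nonneg (Real.rpow_nonneg ht.1.le _)]
    calc |g j t| * t ^ p ≤ 3 * 1 := mul_le_mul (hgb _ _)
          (Real.rpow_le_one ht.1.le ht.2 (by linarith)) (Real.rpow_nonneg ht.1.le _) (by norm_num)
      _ = 3 := by ring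


lemma sum_bad_le {d n : ℕ} (mm : Fin 3 → ℝ) (hmm : ∀ j, 0 ≤ mm j) (κ : ℝ)
    (hκ0 : mm 2 + mm 0 ≤ κ) (hκ1 : mm 2 + mm 1 ≤ κ)
    (c : Fin n → Fin d → Fin 3) (hc : ∀ j i, c j i = 0 ∨ c j i = 1)
    (S : Finset (Fin d → Fin 3))
    (hS : S = Finset.univ.filter (fun σ => ∀ j, ∃ i, σ i ≠ 2 ∧ σ i ≠ c j i)) :
    (∑ j, mm j) ^ d - n * κ ^ d ≤ ∑ σ ∈ S, ∏ i, mm (σ i) := by
  have hall : (∑ j, mm j) ^ d = ∑ σ : Fin d → Fin 3, ∏ i, mm (σ i) := by
    have h := Finset.prod_univ_sum (fun _ : Fin d => (Finset.univ : Finset (Fin 3)))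
      (fun i j => mm j)
    rw [Fintype.piFinset_univ] at h
    rw [← h]
    simp
  have hsplit : ∑ σ : Fin d → Fin 3, ∏ i, mm (σ i) =
      ∑ σ ∈ S, ∏ i, mm (σ i) + ∑ σ ∈ Sᶜ, ∏ i, mm (σ i) := by
    rw [Finset.sum_add_sum_compl]
  have hnn : ∀ σ : Fin d → Fin 3, 0 ≤ ∏ i, mm (σ i) := fun σ => Finset.prod_nonneg (fun i _ => hmm _)
  have hbad : ∑ σ ∈ Sᶜ, ∏ i, mm (σ i) ≤ n * κ ^ d := by
    let T : Fin n → Finset (Fin d → Fin 3) := fun j => Fintype.piFinset (fun i => {2, c j i})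
    calc ∑ σ ∈ Sᶜ, ∏ i, mm (σ i)
        ≤ ∑ σ ∈ Sᶜ, ∑ j : Fin n, (if σ ∈ T j then ∏ i, mm (σ i) else 0) := by
          apply Finset.sum_le_sum
          intro σ hσ
          rw [hS] at hσ
          simp only [ne_eq, compl_filter, not_forall, not_exists, mem_filter, mem_univ,
            true_and] at hσ
          obtain ⟨j, hj⟩ := hσ
          have hmem : σ ∈ T j := by
            simp only [T, Fintype.mem_piFinset, mem_insert, mem_singleton]
            intro i
            have := hj i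
            tauto
          calc ∏ i, mm (σ i) = (if σ ∈ T j then ∏ i, mm (σ i) else 0) := by simp [hmem]
            _ ≤ _ := Finset.single_le_sum
              (f := fun j => (if σ ∈ T j then ∏ i, mm (σ i) else 0)) (fun j _ => by
                split_ifs
                · exact hnn σ
                · exact le_refl _) (Finset.mem_univ j)
      _ ≤ ∑ σ : Fin d → Fin 3, ∑ j : Fin n, (if σ ∈ T j then ∏ i, mm (σ i) else 0) := by
          apply Finset.sum_le_sum_of_subset_of_nonneg (Finset.subset_univ _)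
          intro σ _ _
          apply Finset.sum_nonneg
          intro j _
          split_ifs
          · exact hnn σ
          · exact le_refl _
      _ = ∑ j : Fin n, ∑ σ ∈ T j, ∏ i, mm (σ i) := by
          rw [Finset.sum_comm]
          apply Finset.sum_congr rfl
          intro j _
          rw [← Finset.sum_filter]
          congr 1
          ext σ
          simp
      _ ≤ ∑ j : Fin n, κ ^ d := by
          apply Finset.sum_le_sum
          intro j _
          have h := Finset.prod_univ_sum (fun i : Fin d => ({2, c j i} : Finset (Fin 3)))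
            (fun i k => mm k)
          rw [← h]
          calc ∏ i : Fin d, ∑ k ∈ ({2, c j i} : Finset (Fin 3)), mm k ≤ ∏ i : Fin d, κ := by
                apply Finset.prod_le_prod
                · intro i _
                  exact Finset.sum_nonneg (fun k _ => hmm k)
                · intro i _
                  rcases hc j i with h0 | h0 <;> rw [h0]
                  · rw [Finset.sum_pair (by decide)]; exact hκ0
                  · rw [Finset.sum_pair (by decide)]; exact hκ1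
            _ = κ ^ d := by simp
      _ = n * κ ^ d := by simp
  linarith

lemma pointwise_ineq {p : ℝ} (hp : 1 < p) {k : ℕ} (hk : p / (p - 1) ≤ (2 * k : ℕ))
    {G h D : ℝ} (hh : 0 < h) :
    G * h ^ (p - 1) * D ≤ (1/8) * ((1 + G ^ (2 * k)) * h ^ p) + 8 ^ p * |D| ^ p := by
  have hq : p.HolderConjugate (p / (p - 1)) := Real.HolderConjugate.conjExponent hp
  set q := p / (p - 1) with hqdef
  have hp1 : 0 < p - 1 := by linarith
  have hp0 : 0 < p := by linarith
  have hq1 : 1 < q := hq.symm.lt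
  have hq0 : 0 < q := by linarith
  have hW : 0 < h ^ (p - 1) := Real.rpow_pos_of_pos hh _
  have hy := Real.young_inequality_of_nonneg (a := 8 * |D|) (b := (1/8) * (|G| * h ^ (p-1)))
    (by positivity) (by positivity) hq
  have h1 : G * h ^ (p - 1) * D ≤ 8 * |D| * ((1/8) * (|G| * h ^ (p-1))) := by
    calc G * h ^ (p - 1) * D ≤ |G * h ^ (p - 1) * D| := le_abs_self _
      _ = 8 * |D| * ((1/8) * (|G| * h ^ (p-1))) := by
        rw [abs_mul, abs_mul, abs_of_pos hW]; ring
  have h2 : (8 * |D|) ^ p / p ≤ 8 ^ p * |D| ^ p := by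
    rw [Real.mul_rpow (by norm_num) (abs_nonneg _)]
    apply div_le_self (by positivity) hp.le
  have h3 : ((1/8) * (|G| * h ^ (p-1))) ^ q / q ≤ (1/8) * ((1 + G ^ (2 * k)) * h ^ p) := by
    rw [Real.mul_rpow (by norm_num) (by positivity), Real.mul_rpow (abs_nonneg _) hW.le,
      ← Real.rpow_mul hh.le]
    have e1 : (p - 1) * q = p := by rw [hqdef]; field_simp
    rw [e1]
    have e2 : ((1:ℝ)/8) ^ q ≤ 1/8 := by
      calc ((1:ℝ)/8) ^ q ≤ (1/8) ^ (1:ℝ) :=
            Real.rpow_le_rpow_of_exponent_ge (by norm_num) (by norm_num) hq1.le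
        _ = 1/8 := by simp
    have e3 : |G| ^ q ≤ 1 + G ^ (2 * k) := by
      have e4 : G ^ (2 * k) = |G| ^ ((2 * k : ℕ) : ℝ) := by
        rw [Real.rpow_natCast, pow_mul, pow_mul, sq_abs]
      rw [e4]
      rcases le_total |G| 1 with hG | hG
      · have : |G| ^ q ≤ 1 := Real.rpow_le_one (abs_nonneg _) hG hq0.le
        have : 0 ≤ |G| ^ ((2 * k : ℕ) : ℝ) := Real.rpow_nonneg (abs_nonneg _) _
        linarith
      · have : |G| ^ q ≤ |G| ^ ((2 * k : ℕ) : ℝ) := Real.rpow_le_rpow_of_exponent_le hG hk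
        linarith
    have e5 : 0 ≤ |G| ^ q := Real.rpow_nonneg (abs_nonneg _) _
    have e6 : 0 < h ^ p := Real.rpow_pos_of_pos hh _
    calc (1/8:ℝ) ^ q * (|G| ^ q * h ^ p) / q ≤ (1/8:ℝ) ^ q * (|G| ^ q * h ^ p) :=
          div_le_self (by positivity) hq1.le
      _ ≤ (1/8) * ((1 + G ^ (2 * k)) * h ^ p) := by
          apply mul_le_mul e2 _ (by positivity) (by norm_num)
          exact mul_le_mul_of_nonneg_right e3 e6.le
  linarith

theorem main (p : ℝ) (hp : 1 < p) :
    ∃ C : ℝ, 0 < C ∧ ∃ τ : ℝ, 0 < τ ∧ ∃ ε₀ : ℝ, 0 < ε₀ ∧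
      ∀ d : ℕ,
        ∀ ε : ℝ, 0 < ε → ε ≤ ε₀ →
        ∀ n : ℕ, ∀ x : Fin n → Fin d → ℝ, ∀ a : Fin n → ℝ,
          (∫ t in Set.Icc (0 : Fin d → ℝ) 1,
              |(∏ i, t i) - ∑ j, a j *
                  Set.indicator {y : Fin d → ℝ | ∀ i, x j i < y i} (fun _ => (1 : ℝ)) t| ^ p)
            ≤ ε ^ p * ∫ t in Set.Icc (0 : Fin d → ℝ) 1, |∏ i, t i| ^ p →
          C * (1 + τ) ^ d ≤ (n : ℝ) := by
  have hp0 : 0 < p := by linarith
  set k : ℕ := ⌈p / (p - 1)⌉₊ with hkdef
  have hq0 : 0 < p / (p - 1) := by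
    have : 0 < p - 1 := by linarith
    positivity
  have hk : p / (p - 1) ≤ (2 * k : ℕ) := by
    have : p / (p - 1) ≤ k := Nat.le_ceil _
    push_cast
    linarith
  obtain ⟨g, s, hgm, hgb, hgs, hM, hm0, hm1, hm2, ho1, ho0⟩ := exists_family hp (2 * k)
  have hm0 : 0 < m p g 0 := hm0
  have hm1 : 0 < m p g 1 := hm1
  have hm2 : 0 ≤ m p g 2 := hm2
  have hmZ : m p g 0 + m p g 1 + m p g 2 = Z p := by
    rw [← m_sum hp hgm hgb hgs, Fin.sum_univ_three]
  have hZ := Z_pos hp
  set κ := max (m p g 2 + m p g 0) (m p g 2 + m p g 1) with hκ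
  have hκZ : κ < Z p := by
    rw [hκ, max_lt_iff]
    constructor <;> linarith
  have hκ0 : 0 < κ := by
    rw [hκ]
    apply lt_max_of_lt_left
    linarith
  refine ⟨1/2, by norm_num, Z p / κ - 1, ?_, 1/32, by norm_num, ?_⟩
  · rw [sub_pos, one_lt_div hκ0]
    exact hκZ
  intro d ε hε hε0 n x a hineq
  rw [cube_measure] at hineq
  set c : Fin n → Fin d → Fin 3 := fun j i => if x j i < s then 0 else 1 with hcdef
  have hc : ∀ j i, c j i = 0 ∨ c j i = 1 := by
    intro j i
    simp only [hcdef]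
    split_ifs
    · left; rfl
    · right; rfl
  set S : Finset (Fin d → Fin 3) :=
    Finset.univ.filter (fun σ => ∀ j, ∃ i, σ i ≠ 2 ∧ σ i ≠ c j i) with hSdef
  have hmnn : ∀ j, 0 ≤ m p g j := by
    intro j
    fin_cases j
    · exact hm0.le
    · exact hm1.le
    · exact hm2
  have hlow := sum_bad_le (m p g) hmnn κ (le_max_left _ _) (le_max_right _ _) c hc S hSdef
  rw [m_sum hp hgm hgb hgs] at hlow
  -- orthogonality
  have horth : ∀ j, ∫ t, GT g S t * (∏ i, (t i) ^ (p-1)) *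
      Set.indicator {y : Fin d → ℝ | ∀ i, x j i < y i} (fun _ => (1 : ℝ)) t ∂(Q d) = 0 := by
    intro j
    apply int_GT_ind hp hgm hgb
    intro σ hσ
    rw [hSdef, Finset.mem_filter] at hσ
    obtain ⟨i, hi2, hic⟩ := hσ.2 j
    refine ⟨i, ?_⟩
    by_cases hxs : x j i < s
    · have h0 : c j i = 0 := by simp [hcdef, hxs]
      rw [h0] at hic
      have h1 : σ i = 1 := by
        generalize σ i = z at hi2 hic
        revert hi2 hic
        fin_cases z <;> simp
      rw [h1]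
      exact ho1 _ hxs
    · have h0 : c j i = 1 := by simp [hcdef, hxs]
      rw [h0] at hic
      have h1 : σ i = 0 := by
        generalize σ i = z at hi2 hic
        revert hi2 hic
        fin_cases z <;> simp
      rw [h1]
      exact ho0 _ (not_lt.mp hxs)
  -- the discrepancy function
  set Dd : (Fin d → ℝ) → ℝ := fun t => (∏ i, t i) - ∑ j, a j *
    Set.indicator {y : Fin d → ℝ | ∀ i, x j i < y i} (fun _ => (1 : ℝ)) t with hDd
  have hindm : ∀ j, Measurable (fun t : Fin d → ℝ =>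
      Set.indicator {y : Fin d → ℝ | ∀ i, x j i < y i} (fun _ => (1 : ℝ)) t) := by
    intro j
    apply Measurable.indicator measurable_const
    have : {y : Fin d → ℝ | ∀ i, x j i < y i} = ⋂ i, {y : Fin d → ℝ | x j i < y i} := by
      ext y; simp
    rw [this]
    exact MeasurableSet.iInter (fun i => measurableSet_lt measurable_const (measurable_pi_apply i))
  have hindb : ∀ j t, |Set.indicator {y : Fin d → ℝ | ∀ i, x j i < y i} (fun _ => (1 : ℝ)) t| ≤ 1 := by
    intro j t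
    by_cases h : t ∈ {y : Fin d → ℝ | ∀ i, x j i < y i}
    · simp [Set.indicator_of_mem h]
    · simp [Set.indicator_of_notMem h]
  have hprodm : Measurable (fun t : Fin d → ℝ => ∏ i, t i) :=
    Finset.measurable_prod _ (fun i _ => measurable_pi_apply i)
  have hDm : Measurable Dd := by
    apply hprodm.sub
    apply Finset.measurable_sum
    intro j _
    exact (hindm j).const_mul (a j)
  have hDb : ∀ᵐ t ∂(Q d), |Dd t| ≤ 1 + ∑ j, |a j| := by
    filter_upwards [ae_pos d] with t ht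
    have e1 : |∏ i, t i| ≤ 1 := by
      rw [Finset.abs_prod]
      apply Finset.prod_le_one (fun i _ => abs_nonneg _)
      intro i _
      rw [abs_of_nonneg (ht i).1.le]
      exact (ht i).2
    have e2 : |∑ j, a j * Set.indicator {y : Fin d → ℝ | ∀ i, x j i < y i}
        (fun _ => (1 : ℝ)) t| ≤ ∑ j, |a j| := by
      apply (Finset.abs_sum_le_sum_abs _ _).trans
      apply Finset.sum_le_sum
      intro j _
      rw [abs_mul]
      calc |a j| * _ ≤ |a j| * 1 := mul_le_mul_of_nonneg_left (hindb j t) (abs_nonneg _)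
        _ = |a j| := mul_one _
    calc |Dd t| ≤ |∏ i, t i| + _ := abs_sub _ _
      _ ≤ _ := add_le_add e1 e2
  -- identities for the weights
  have hHp : ∀ t : Fin d → ℝ, (∀ i, 0 < t i ∧ t i ≤ 1) → ∀ r : ℝ,
      ∏ i, (t i) ^ r = (∏ i, t i) ^ r := by
    intro t ht r
    rw [Real.finsetProd_rpow]
    intro i _
    exact (ht i).1.le
  have hprodpos : ∀ t : Fin d → ℝ, (∀ i, 0 < t i ∧ t i ≤ 1) → 0 < ∏ i, t i :=
    fun t ht => Finset.prod_pos (fun i _ => (ht i).1)
  -- left side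
  have hGb : ∀ t, |GT g S t| ≤ S.card * 3 ^ d := GT_bdd hgb S
  have hGm : Measurable (GT g S) := GT_meas hgm S
  have hleft : ∫ t, GT g S t * (∏ i, (t i) ^ (p-1)) * Dd t ∂(Q d) =
      ∑ σ ∈ S, ∏ i, m p g (σ i) := by
    have e1 : ∀ t, GT g S t * (∏ i, (t i) ^ (p-1)) * Dd t =
        GT g S t * (∏ i, (t i) ^ (p-1)) * (∏ i, t i) -
        ∑ j, a j * (GT g S t * (∏ i, (t i) ^ (p-1)) *
          Set.indicator {y : Fin d → ℝ | ∀ i, x j i < y i} (fun _ => (1 : ℝ)) t) := by
      intro t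
      rw [hDd]
      simp only
      rw [mul_sub, Finset.mul_sum]
      congr 1
      apply Finset.sum_congr rfl
      intro j _
      ring
    simp_rw [e1]
    have hI1 : Integrable (fun t => GT g S t * (∏ i, (t i) ^ (p-1)) * (∏ i, t i)) (Q d) := by
      apply integrable_of_bdd ((hGm.mul (pow_meas d (p-1))).mul hprodm) (S.card * 3 ^ d * 1 * 1)
      filter_upwards [pow_bdd d (show 0 ≤ p-1 by linarith), pow_bdd d (show (0:ℝ) ≤ 1 by norm_num)]
        with t h1 h2
      simp only [Real.rpow_one] at h2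
      rw [Pi.mul_apply, Pi.mul_apply, abs_mul, abs_mul]
      exact mul_le_mul (mul_le_mul (hGb t) h1 (abs_nonneg _) (by positivity)) h2 (abs_nonneg _)
        (by positivity)
    have hI2 : ∀ j, Integrable (fun t => GT g S t * (∏ i, (t i) ^ (p-1)) *
          Set.indicator {y : Fin d → ℝ | ∀ i, x j i < y i} (fun _ => (1 : ℝ)) t) (Q d) := by
      intro j
      apply integrable_of_bdd ((hGm.mul (pow_meas d (p-1))).mul (hindm j)) (S.card * 3 ^ d * 1 * 1)
      filter_upwards [pow_bdd d (show 0 ≤ p-1 by linarith)] with t h1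
      rw [Pi.mul_apply, Pi.mul_apply, abs_mul, abs_mul]
      exact mul_le_mul (mul_le_mul (hGb t) h1 (abs_nonneg _) (by positivity)) (hindb j t)
        (abs_nonneg _) (by positivity)
    rw [integral_sub hI1 (integrable_finsetSum _ (fun j _ => (hI2 j).const_mul (a j))),
      integral_finsetSum _ (fun j _ => (hI2 j).const_mul (a j))]
    simp_rw [integral_const_mul, horth, mul_zero, Finset.sum_const_zero, sub_zero]
    rw [← int_GT hp hgm hgb S]
    apply integral_congr_ae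
    filter_upwards [ae_pos d] with t ht
    rw [hHp t ht, hHp t ht, mul_assoc, ← Real.rpow_add_one (hprodpos t ht).ne']
    congr 2
    ring
  -- right side
  have hI3 : Integrable (fun t => (GT g S t) ^ (2 * k) * ∏ i, (t i) ^ p) (Q d) := by
    apply integrable_of_bdd ((hGm.pow_const _).mul (pow_meas d p)) ((S.card * 3 ^ d)^(2*k) * 1)
    filter_upwards [pow_bdd d hp0.le] with t h1
    rw [Pi.mul_apply, abs_mul, abs_pow]
    exact mul_le_mul (pow_le_pow_left₀ (abs_nonneg _) (hGb t) _) h1 (abs_nonneg _) (by positivity)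
  have hI4 : Integrable (fun t : Fin d → ℝ => ∏ i, (t i) ^ p) (Q d) :=
    integrable_of_bdd (pow_meas d p) 1 (pow_bdd d hp0.le)
  have hI5 : Integrable (fun t => |Dd t| ^ p) (Q d) := by
    apply integrable_of_bdd (hDm.abs.pow_const p) ((1 + ∑ j, |a j|) ^ p)
    filter_upwards [hDb] with t h1
    rw [abs_of_nonneg (Real.rpow_nonneg (abs_nonneg _) _)]
    exact Real.rpow_le_rpow (abs_nonneg _) h1 hp0.le
  have hI6 : Integrable (fun t => GT g S t * (∏ i, (t i) ^ (p-1)) * Dd t) (Q d) := by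
    apply integrable_of_bdd ((hGm.mul (pow_meas d (p-1))).mul hDm)
      (S.card * 3 ^ d * 1 * (1 + ∑ j, |a j|))
    filter_upwards [pow_bdd d (show 0 ≤ p-1 by linarith), hDb] with t h1 h2
    rw [Pi.mul_apply, Pi.mul_apply, abs_mul, abs_mul]
    exact mul_le_mul (mul_le_mul (hGb t) h1 (abs_nonneg _) (by positivity)) h2 (abs_nonneg _)
      (by positivity)
  have hI7 : Integrable (fun t => ∏ i, (t i) ^ p + (GT g S t) ^ (2 * k) * ∏ i, (t i) ^ p) (Q d) :=
    hI4.add hI3
  have hI8 : Integrable (fun t => (1/8:ℝ) *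
      (∏ i, (t i) ^ p + (GT g S t) ^ (2 * k) * ∏ i, (t i) ^ p)) (Q d) := hI7.const_mul _
  have hI9 : Integrable (fun t => (8:ℝ) ^ p * |Dd t| ^ p) (Q d) := hI5.const_mul _
  have hkey : ∫ t, GT g S t * (∏ i, (t i) ^ (p-1)) * Dd t ∂(Q d) ≤
      ∫ t, ((1/8) * (∏ i, (t i) ^ p + (GT g S t) ^ (2 * k) * ∏ i, (t i) ^ p)
        + 8 ^ p * |Dd t| ^ p) ∂(Q d) := by
    apply integral_mono_ae hI6
    · exact hI8.add hI9
    · filter_upwards [ae_pos d] with t ht
      have := pointwise_ineq hp hk (G := GT g S t) (D := Dd t) (hprodpos t ht)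
      rw [hHp t ht, hHp t ht]
      calc _ ≤ _ := this
        _ = _ := by ring
  have hright : ∫ t, ((1/8) * (∏ i, (t i) ^ p + (GT g S t) ^ (2 * k) * ∏ i, (t i) ^ p)
        + 8 ^ p * |Dd t| ^ p) ∂(Q d) ≤ (1/2) * Z p ^ d := by
    rw [integral_add hI8 hI9, integral_const_mul,
      integral_const_mul, integral_add hI4 hI3, int_one]
    have e1 := int_GT_pow_le hp hgm hgb hgs (2 * k) S hM
    have e2 : ∫ t, |Dd t| ^ p ∂(Q d) ≤ ε ^ p * Z p ^ d := by
      calc ∫ t, |Dd t| ^ p ∂(Q d) ≤ ε ^ p * ∫ t, |∏ i, t i| ^ p ∂(Q d) := hineq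
        _ = ε ^ p * Z p ^ d := by
          congr 1
          rw [← int_one]
          apply integral_congr_ae
          filter_upwards [ae_pos d] with t ht
          rw [hHp t ht, abs_of_pos (hprodpos t ht)]
    have e3 : (8:ℝ) ^ p * ε ^ p ≤ 1/4 := by
      rw [← Real.mul_rpow (by norm_num) hε.le]
      have e4 : 8 * ε ≤ 1/4 := by linarith
      calc (8 * ε) ^ p ≤ (1/4 : ℝ) ^ p := Real.rpow_le_rpow (by positivity) e4 hp0.le
        _ ≤ (1/4 : ℝ) ^ (1:ℝ) :=
          Real.rpow_le_rpow_of_exponent_ge (by norm_num) (by norm_num) hp.le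
        _ = 1/4 := by simp
    have hZd : 0 < Z p ^ d := by positivity
    have e5 : (8:ℝ) ^ p * ∫ t, |Dd t| ^ p ∂(Q d) ≤ (1/4) * Z p ^ d := by
      calc (8:ℝ) ^ p * ∫ t, |Dd t| ^ p ∂(Q d) ≤ 8 ^ p * (ε ^ p * Z p ^ d) :=
            mul_le_mul_of_nonneg_left e2 (by positivity)
        _ = (8 ^ p * ε ^ p) * Z p ^ d := by ring
        _ ≤ (1/4) * Z p ^ d := mul_le_mul_of_nonneg_right e3 hZd.le
    linarith
  have hfin : Z p ^ d - n * κ ^ d ≤ (1/2) * Z p ^ d := by
    rw [hleft] at hkey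
    linarith
  have hfin2 : (1/2) * Z p ^ d ≤ n * κ ^ d := by linarith
  have hκd : 0 < κ ^ d := by positivity
  have : 1 + (Z p / κ - 1) = Z p / κ := by ring
  rw [this, div_pow, mul_div_assoc', div_le_iff₀ hκd]
  exact hfin2



/-- For every finite p>1 there are C,τ,ε₀>0 such that for infinitely many d, any real-weighted quadrature rule whose L_p-discrepancy is at most ε₀ times the initial one uses at least C(1+τ)^d points. -/
theorem result :
  ∀ p : ℝ, 1 < p →
    ∃ C : ℝ, 0 < C ∧ ∃ τ : ℝ, 0 < τ ∧ ∃ ε₀ : ℝ, 0 < ε₀ ∧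
      ∀ D : ℕ, ∃ d : ℕ, D ≤ d ∧
        ∀ ε : ℝ, 0 < ε → ε ≤ ε₀ →
        ∀ n : ℕ, ∀ x : Fin n → Fin d → ℝ, ∀ a : Fin n → ℝ,
          (∀ j, x j ∈ Set.Icc (0 : Fin d → ℝ) 1) →
          (∫ t in Set.Icc (0 : Fin d → ℝ) 1,
              |(∏ i, t i) - ∑ j, a j *
                  Set.indicator {y : Fin d → ℝ | ∀ i, x j i < y i} (fun _ => (1 : ℝ)) t| ^ p)
            ≤ ε ^ p * ∫ t in Set.Icc (0 : Fin d → ℝ) 1, |∏ i, t i| ^ p →
          C * (1 + τ) ^ d ≤ (n : ℝ) := by
  intro p hp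
  obtain ⟨C, hC, τ, hτ, ε₀, hε₀, h⟩ := main p hp
  exact ⟨C, hC, τ, hτ, ε₀, hε₀, fun D => ⟨D, le_refl D,
    fun ε hε hε' n x a _ hin => h D ε hε hε' n x a hin⟩⟩

end Pool.Agent.S06493
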