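import Pool.Statements.S06530
import Pool.Agent.Lib.MP_e87d84_an.All

set_option autoImplicit false
open Filter Topology
open Pool Pool.MP_e87d84_an

namespace Pool.Agent.S06530

/-- The negation of the preceding statement: Over the reals or complexes, every Banach space with a uniformly bounded sequence of finite-rank projections that have increasing ranges and converge pointwise to the identity also has such a sequence with v_k v_n = v_min(k,n). -/
theorem result :
    ¬ (∀ (𝕜 : Type) [RCLike 𝕜] (E : Type) [NormedAddCommGroup E] [NormedSpace 𝕜 E] [CompleteSpace E],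
      (∃ (u : ℕ → E →L[𝕜] E) (lam : ℝ),
          (∀ n, (u n).comp (u n) = u n) ∧
          (∀ n, FiniteDimensional 𝕜 (LinearMap.range ((u n : E →L[𝕜] E) : E →ₗ[𝕜] E))) ∧
          (∀ n, ‖u n‖ ≤ lam) ∧
          (∀ x : E, Tendsto (fun n => u n x) atTop (𝓝 x)) ∧
          Monotone (fun n => LinearMap.range ((u n : E →L[𝕜] E) : E →ₗ[𝕜] E))) →
      ∃ (v : ℕ → E →L[𝕜] E) (C : ℝ),
          (∀ k n, (v k).comp (v n) = v (min k n)) ∧
          (∀ n, FiniteDimensional 𝕜 (LinearMap.range ((v n : E →L[𝕜] E) : E →ₗ[𝕜] E))) ∧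
          (∀ n, ‖v n‖ ≤ C) ∧
          (∀ x : E, Tendsto (fun n => v n x) atTop (𝓝 x)) ∧
          Monotone (fun n => LinearMap.range ((v n : E →L[𝕜] E) : E →ₗ[𝕜] E))) := by
  exact Pool.Agent.MP_e87d84.allFinal

end Pool.Agent.S06530
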