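import Pool.Statements.S06663
import Pool.Agent.Lib.MP_f1e3b4_an.All
import Pool.Agent.Lib.MP_f1e3b4_an.KI1

set_option autoImplicit false
open MeasureTheory ProbabilityTheory
open Pool Pool.MP_f1e3b4_an

namespace Pool.Agent.S06663

/-- For a random (4M−5)×M matrix A with i.i.d. standard complex Gaussian entries, the probability that ∣Ax∣ = ∣Ay∣ entrywise forces y = c·x with ∣c∣ = 1 tends to 0 as M → ∞. -/
theorem result :
    Filter.Tendsto (fun M : ℕ =>
      (Measure.pi (fun _ : Fin (4 * M - 5) => Measure.pi (fun _ : Fin M =>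
        ((gaussianReal 0 1).prod (gaussianReal 0 1)).map
          (fun p : ℝ × ℝ => (p.1 : ℂ) + (p.2 : ℂ) * Complex.I))))
        {A : Fin (4 * M - 5) → Fin M → ℂ | ∀ x y : Fin M → ℂ,
          (∀ i, ‖(Matrix.of A).mulVec x i‖ = ‖(Matrix.of A).mulVec y i‖) →
            ∃ c : ℂ, ‖c‖ = 1 ∧ y = c • x})
      Filter.atTop (nhds 0) := by
  exact MPf1e3.specFinal (MPf1e3.All.main (MPf1e3.specKI1 MPf1e3.specProb MPf1e3.specAvg
    MPf1e3.specPos)) MPf1e3.Collis.specColl

end Pool.Agent.S06663
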