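import Pool.Statements.S06789
import Pool.Agent.Lib.MP_fabde4_an.All
import Pool.Agent.Lib.MP_fabde4_an.N.RxA

set_option autoImplicit false
open MeasureTheory Set
open Pool Pool.MP_fabde4_an

namespace Pool.Agent.S06789

/-- For every bounded smooth connected 3D domain, nonempty open boundary part S missing some boundary component, smooth divergence-free tangent v0, v1, T>0, finite p≥1 and ε>0, a smooth Euler solution from v0, tangent off S, ends within ε of v1 in L^p. -/
theorem result :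
    ∀ (Om : Set (EuclideanSpace ℝ (Fin 3))) (rho : EuclideanSpace ℝ (Fin 3) → ℝ)
      (S : Set (EuclideanSpace ℝ (Fin 3))),
      IsOpen Om → IsConnected Om → Bornology.IsBounded Om →
      ContDiff ℝ ((⊤ : ENat) : WithTop ENat) rho →
      Om = {x | rho x < 0} →
      (∀ x, rho x = 0 → gradient rho x ≠ 0) →
      S ⊆ frontier Om → S.Nonempty →
      (∃ U : Set (EuclideanSpace ℝ (Fin 3)), IsOpen U ∧ S = U ∩ frontier Om) →
      (∃ x ∈ frontier Om, Disjoint (connectedComponentIn (frontier Om) x) S) →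
      ∀ T : ℝ, 0 < T →
      ∀ v0 v1 : EuclideanSpace ℝ (Fin 3) → EuclideanSpace ℝ (Fin 3),
      ContDiff ℝ ((⊤ : ENat) : WithTop ENat) v0 →
      ContDiff ℝ ((⊤ : ENat) : WithTop ENat) v1 →
      (∀ x ∈ closure Om, ∑ i : Fin 3,
          inner ℝ (fderiv ℝ v0 x (EuclideanSpace.single i 1)) (EuclideanSpace.single i 1) = 0) →
      (∀ x ∈ closure Om, ∑ i : Fin 3,
          inner ℝ (fderiv ℝ v1 x (EuclideanSpace.single i 1)) (EuclideanSpace.single i 1) = 0) →
      (∀ x ∈ frontier Om, inner ℝ (v0 x) (gradient rho x) = 0) →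
      (∀ x ∈ frontier Om, inner ℝ (v1 x) (gradient rho x) = 0) →
      ∀ p : ENNReal, 1 ≤ p → p ≠ ⊤ →
      ∀ ε : ℝ, 0 < ε →
      ∃ (V : ℝ × EuclideanSpace ℝ (Fin 3) → EuclideanSpace ℝ (Fin 3))
        (Pr : ℝ × EuclideanSpace ℝ (Fin 3) → ℝ),
        ContDiff ℝ ((⊤ : ENat) : WithTop ENat) V ∧
        ContDiff ℝ ((⊤ : ENat) : WithTop ENat) Pr ∧
        (∀ t ∈ Icc (0 : ℝ) T, ∀ x ∈ closure Om,
          deriv (fun s => V (s, x)) t
            + fderiv ℝ (fun y => V (t, y)) x (V (t, x))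
            + gradient (fun y => Pr (t, y)) x = 0) ∧
        (∀ t ∈ Icc (0 : ℝ) T, ∀ x ∈ closure Om, ∑ i : Fin 3,
          inner ℝ (fderiv ℝ (fun y => V (t, y)) x (EuclideanSpace.single i 1))
            (EuclideanSpace.single i 1) = 0) ∧
        (∀ t ∈ Icc (0 : ℝ) T, ∀ x ∈ frontier Om \ S, inner ℝ (V (t, x)) (gradient rho x) = 0) ∧
        (∀ x ∈ closure Om, V (0, x) = v0 x) ∧
        eLpNorm (fun x => V (T, x) - v1 x) p (volume.restrict Om) < ENNReal.ofReal ε :=
  MPfab.main1 MPfab.allNormal MPfab.allDom2 MPfab.allLeray MPfab.allRelax MPfab.allLast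
    MPfab.allRealize MPfab.allFinal MPfab.allFlowA MPfab.allCTan MPfab.allBrkT

end Pool.Agent.S06789
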