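import Pool.Statements.S06826
import Pool.Agent.Lib.MP_fd6009_an.Local
import Pool.Agent.Lib.MP_fd6009_an.NormalCone

set_option autoImplicit false
open scoped Pointwise
open Pool Pool.MP_fd6009_an

namespace Pool.Agent.S06826

/-- The negation of the preceding statement: In every real Banach space, if A and B are maximally monotone, A is of type (FPV), and dom A meets the interior of dom B, then the pointwise sum A+B is maximally monotone. -/
theorem result :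
    ¬ (∀ (X : Type) [NormedAddCommGroup X] [NormedSpace ℝ X] [CompleteSpace X]
    (A B : X → Set (X →L[ℝ] ℝ)),
    (∀ (x y : X) (a b : X →L[ℝ] ℝ), a ∈ A x → b ∈ A y → 0 ≤ (a - b) (x - y)) →
    (∀ (x : X) (a : X →L[ℝ] ℝ),
        (∀ (y : X) (b : X →L[ℝ] ℝ), b ∈ A y → 0 ≤ (a - b) (x - y)) → a ∈ A x) →
    (∀ (x y : X) (a b : X →L[ℝ] ℝ), a ∈ B x → b ∈ B y → 0 ≤ (a - b) (x - y)) →
    (∀ (x : X) (a : X →L[ℝ] ℝ),
        (∀ (y : X) (b : X →L[ℝ] ℝ), b ∈ B y → 0 ≤ (a - b) (x - y)) → a ∈ B x) →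
    ({x : X | (A x).Nonempty} ∩ interior {x : X | (B x).Nonempty}).Nonempty →
    (∀ U : Set X, IsOpen U → Convex ℝ U → (U ∩ {x : X | (A x).Nonempty}).Nonempty →
      ∀ x ∈ U, ∀ a : X →L[ℝ] ℝ,
        (∀ y ∈ U, ∀ b ∈ A y, 0 ≤ (a - b) (x - y)) → a ∈ A x) →
    ((∀ (x y : X) (a b : X →L[ℝ] ℝ), a ∈ A x + B x → b ∈ A y + B y →
        0 ≤ (a - b) (x - y)) ∧
     (∀ (x : X) (a : X →L[ℝ] ℝ),
        (∀ (y : X) (b : X →L[ℝ] ℝ), b ∈ A y + B y → 0 ≤ (a - b) (x - y)) →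
          a ∈ A x + B x))) := by
  intro H
  obtain ⟨y₁, hy₁⟩ := SumCE.Op_cu_nonempty (g := 0) (τ := -1) le_rfl (by norm_num)
  obtain ⟨y₂, a₂, ha₂⟩ := SumCE.Op_cu_nonempty (g := 0) (τ := 1) le_rfl (by norm_num)
  have h := H SumCE.E1 (SumCE.Op (SumCE.cu 0)) SumCE.NC (SumCE.Op_cu_monotone 0)
    (SumCE.Op_cu_maximal le_rfl) SumCE.NC_monotone SumCE.NC_maximal
    ⟨(y₁, -1), hy₁, SumCE.interior_NC (by norm_num)⟩
    (fun U hU _ _ x hx a h => SumCE.Op_local hU hx a h)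
  have h2 := h.2 (y₂, 1) a₂ ?_
  · obtain ⟨b, hb, c, hc, _⟩ := h2
    have := hc.1
    norm_num at this
  · rintro y _ ⟨b, hb, c, hc, rfl⟩
    have hy : y.2 < 0 := by
      rcases lt_or_eq_of_le hc.1 with h3 | h3
      · exact h3
      · exfalso
        have h4 := SumCE.Op_cu_empty (g := 0) (x := y) (by simp [h3])
        rw [h4] at hb
        exact hb
    have hc0 := SumCE.NC_of_neg hy hc
    subst hc0
    have h5 := SumCE.Op_cu_monotone 0 (y₂, 1) y a₂ b ha₂ hb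
    simpa using h5

end Pool.Agent.S06826
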