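import Pool.Statements.S07545
import Pool.Agent.Lib.MP_1e9f59_co.Fin54c
import Pool.Agent.Lib.MP_1e9f59_co.Dis
import Pool.Agent.Lib.MP_1e9f59_co.Three
import Pool.Agent.Lib.MP_1e9f59_co.Fin54
import Pool.Agent.Lib.MP_1e9f59_co.FinPent
import Pool.Agent.Lib.MP_1e9f59_co.ThrExt
import Pool.Agent.Lib.MP_1e9f59_co.Iso
import Pool.Agent.Lib.MP_1e9f59_co.U2
import Pool.Agent.Lib.MP_1e9f59_co.NC
import Pool.Agent.Lib.MP_1e9f59_co.All
import Pool.Agent.Lib.MP_1e9f59_co.Reduce
import Pool.Agent.Lib.MP_1e9f59_co.SqDom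
import Pool.Agent.Lib.MP_1e9f59_co.Twelve
import Pool.Agent.Lib.MP_1e9f59_co.X6

/-!
MP_1e9f59_co: acyclic 3-colourability of cubic planar 3-connected graphs (full positive answer).
The proof is by induction over cubic maps given by darts (planarity in homological form); all
modules are in Pool/Agent/Lib/MP_1e9f59_co (Defs.lean and Spec.lean contain all definitions and
the statements of the modules). Authors: helpers 75 (proof, Defs, Spec, Main, Final), 3, 11, 30,
35, 36, 42, 43, 46, 51, 54, 67, 73, 78, 87, 89, 96 (modules).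
-/

set_option autoImplicit false
open Pool Pool.MP_1e9f59_co

namespace Pool.Agent.S07545

/-- Every finite cubic 3-connected planar graph (planar via a genus-0 rotation system) not isomorphic to K4, the cube Q3, or the dual of P4 join K2 has a proper 3-colouring in which every two colour classes induce a forest. -/
theorem result :
    ∀ (V : Type) [Fintype V] (G : SimpleGraph V),
      (∀ v : V, Nat.card (G.neighborSet v) = 3) →
      G.Connected →
      4 ≤ Fintype.card V →
      (∀ u v : V, (G.induce ({u, v}ᶜ : Set V)).Connected) →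
      (∃ k : ℕ, k + Fintype.card V = 2 + Nat.card G.edgeSet ∧
        ∃ (σ φ : Equiv.Perm G.Dart) (face : G.Dart → Fin k),
          (∀ d : G.Dart, (σ d).fst = d.fst) ∧
          (∀ d d' : G.Dart, d.fst = d'.fst → ∃ n : ℕ, (σ ^ n) d = d') ∧
          (∀ d : G.Dart, φ d = σ d.symm) ∧
          (∀ d d' : G.Dart, face d = face d' ↔ ∃ n : ℕ, (φ ^ n) d = d') ∧
          Function.Surjective face) →
      ¬ Nonempty (G ≃g (⊤ : SimpleGraph (Fin 4))) →
      ¬ Nonempty (G ≃g SimpleGraph.fromRel
          (fun x y : Fin 3 → Bool => ∃ i, x i ≠ y i ∧ ∀ j, j ≠ i → x j = y j)) →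
      ¬ Nonempty (G ≃g SimpleGraph.fromRel
          (fun a b : Fin 8 => (a, b) ∈ ({(0, 6), (0, 1), (1, 2), (2, 7), (3, 6), (3, 4),
            (4, 5), (5, 7), (0, 3), (1, 4), (2, 5), (6, 7)} : Finset (Fin 8 × Fin 8)))) →
      ∃ c : G.Coloring (Fin 3),
        ∀ i j : Fin 3, (G.induce {v : V | c v = i ∨ c v = j}).IsAcyclic := by
  have hCut : Acyc75.SpecCut := Acyc75.specCut
  have hSimple : Acyc75.SpecSimple := Acyc75.specSimple
  have hState : Acyc75.SpecState := Acyc75.specState
  have hGlue : Acyc75.SpecGlue := Acyc75.specGlue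
  have hBdry : Acyc75.SpecBdry := Acyc75.specBdry
  have hThrExt : Acyc75.SpecThrExt := Acyc75.specThrExt hState hGlue hBdry
  have hFinPent : Acyc75.SpecFinPent := Acyc75.specFinPent
  have hFin53 : Acyc75.SpecFin53 := Acyc75.specFin53
  have hNC53 : Acyc75.SpecNC53 := Acyc75.specNC53
  have hPentExt53 : Acyc75.SpecPentExt53 := Acyc75.specPentExt53 hState hGlue hBdry hFinPent hFin53 hNC53
  have hFin54 : Acyc75.SpecFin54 := Acyc75.specFin54
  have hNC54 : Acyc75.SpecNC54 := Acyc75.specNC54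
  have hPentExt54 : Acyc75.SpecPentExt54 := Acyc75.specPentExt54 hState hGlue hBdry hFinPent hFin54 hNC54
  have hFinThr : Acyc75.SpecFinThr := Acyc75.specFinThr
  have hThrEx : Acyc75.SpecThrEx := Acyc75.specThrEx
  have hThrTEC : Acyc75.SpecThrTEC := Acyc75.specThrTEC
  have hThrPlan : Acyc75.SpecThrPlan := Acyc75.specThrPlan
  have hPentEx : Acyc75.SpecPentEx := Acyc75.specPentEx
  have hPentTEC : Acyc75.SpecPentTEC := Acyc75.specPentTEC
  have hPentPlan : Acyc75.SpecPentPlan := Acyc75.specPentPlan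
  have hJC3 : Acyc75.SpecJC3 := Acyc75.specJC3 hSimple
  have hMir : Acyc75.SpecMir := Acyc75.specMir
  have hEuler : Acyc75.SpecEuler := Acyc75.specEuler
  have hDis : Acyc75.SpecDis := Acyc75.specDis hEuler hSimple
  have hEdgeFace : Acyc75.SpecEdgeFace := Acyc75.specEdgeFace
  have hTJoin : Acyc75.SpecTJoin := Acyc75.specTJoin
  have hCtr : Acyc75.SpecCtr := Acyc75.specCtr hEdgeFace hTJoin
  have hCtrGood : Acyc75.SpecCtrGood := Acyc75.specCtrGood
  have hMerge : Acyc75.SpecMerge := Acyc75.specMerge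
  have hSix : Acyc75.SpecSix := Acyc75.specSix hSimple hDis
  have hEight : Acyc75.SpecEight := Acyc75.specEight hSimple hJC3 hDis hCtr hSix
  have hU2 : Acyc75.SpecU2 := Acyc75.specU2 hEight hSimple
  have hThree : Acyc75.SpecThree := Acyc75.specThree hCut hCtr hCtrGood hMerge hU2
  have hTwelve : Acyc75.SpecTwelve := Acyc75.specTwelve hSimple hBdry hEight
  have hX4 : Acyc75.SpecX4 := Acyc75.specX4 hJC3
  have hX6 : Acyc75.SpecX6 := Acyc75.specX6
  have hSq : Acyc75.SpecSq := Acyc75.specSq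
  have hDom : Acyc75.SpecDom := Acyc75.specDom hJC3
  have hJC4 : Acyc75.SpecJC4 := Acyc75.specJC4 hSimple
  have hJC5 : Acyc75.SpecJC5 := Acyc75.specJC5 hSimple
  have hEmb5 : Acyc75.SpecEmb5 := Acyc75.specEmb5 hJC3 hJC4 hJC5
  have hPinch : Acyc75.SpecPinch := Acyc75.specPinch
  have hPair : Acyc75.SpecPair := Acyc75.specPair hEmb5 hPinch hMir
  have hMain : Acyc75.SpecMain := Acyc75.specMain hCut hSimple hThrExt hPentExt53 hPentExt54 hFinThr hThrEx hThrTEC hThrPlan hPentEx hPentTEC hPentPlan hJC3 hMir hDis hThree hSix hTwelve hX4 hX6 hSq hDom hPair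
  have hPlanEuler : Acyc75.SpecPlanEuler := Acyc75.specPlanEuler hTJoin
  have hInit : Acyc75.SpecInit := Acyc75.specInit hPlanEuler
  have hFin : Acyc75.SpecFin := Acyc75.specFin
  have hFour : Acyc75.SpecFour := Acyc75.specFour hSimple
  have hIso : Acyc75.SpecIso := Acyc75.specIso hFour hEight
  exact Acyc75.final hMain hInit hFin hIso hSimple

end Pool.Agent.S07545
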