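import Pool.Statements.S08073
import Pool.Agent.Lib.MP_35b3f5_co.Final

set_option autoImplicit false
open Pool Pool.MP_35b3f5_co

namespace Pool.Agent.S08073

/-- For every sequence of 3-element sets of letters, there is an infinite word choosing its n-th letter from the n-th set that contains no two identical adjacent nonempty blocks (it is square-free). -/
theorem result :
    ∀ A : ℕ → Finset ℕ, (∀ n, (A n).card = 3) →
      ∃ w : ℕ → ℕ, (∀ n, w n ∈ A n) ∧
        ∀ i l : ℕ, 0 < l → ¬ (∀ k, k < l → w (i + k) = w (i + l + k)) := by
  intro A hA
  exact Pool.Agent.Lib.MP35b3f5.exists_squarefree A hA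

end Pool.Agent.S08073
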