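import Pool.Statements.S08351
import Pool.Agent.Lib.MP_4146e4_co.Full.Base
import Pool.Agent.Lib.MP_4146e4_co.Full.Sparse
import Pool.Agent.Lib.MP_4146e4_co.Full.Dual
import Pool.Agent.Lib.MP_4146e4_co.Full.Cluster
import Pool.Agent.Lib.MP_4146e4_co.Full.PP
import Pool.Agent.Lib.MP_4146e4_co.Full.Round
import Pool.Agent.Lib.MP_4146e4_co.Full.Colour
import Pool.Agent.Lib.MP_4146e4_co.Full.Final

set_option autoImplicit false
open Pool Pool.MP_4146e4_co

namespace Pool.Agent.S08351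

/-- For every r ≥ 3 there are c > 0 and d₀ such that for all d ≥ d₀, every finite K_r-free d-degenerate graph with chromatic number exactly d+1 has at least e^{c·d} vertices. -/
theorem result :
    ∀ r : ℕ, 3 ≤ r → ∃ c : ℝ, 0 < c ∧ ∃ d₀ : ℕ, ∀ d : ℕ, d₀ ≤ d →
      ∀ (V : Type) [Fintype V] (G : SimpleGraph V),
        G.CliqueFree r →
        (∀ s : Set V, s.Nonempty → ∃ v ∈ s, (G.neighborSet v ∩ s).ncard ≤ d) →
        G.chromaticNumber = ((d + 1 : ℕ) : ℕ∞) →
        Real.exp (c * (d : ℝ)) ≤ (Fintype.card V : ℝ) :=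
  Pool.Agent.MP4146e4.specFinal
    (Pool.Agent.MP4146e4.specPP Pool.Agent.MP4146e4.base_spec Pool.Agent.MP4146e4.sparse_spec
      Pool.Agent.MP4146e4.specDual Pool.Agent.MP4146e4.specCluster)
    (Pool.Agent.MP4146e4.specRound Pool.Agent.MP4146e4.specDual) Pool.Agent.MP4146e4.specColour

end Pool.Agent.S08351
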