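import Pool.Statements.S08642
import Pool.Agent.Lib.MP_4d044e_co.TW.FIN
import Pool.Agent.Lib.MP_4d044e_co.TW.WRAP

set_option autoImplicit false
open Pool Pool.MP_4d044e_co

namespace Pool.Agent.S08642

/-- The negation of the preceding statement: For every odd d ≥ 5: if some ε ≥ 0 and constant C let every finite graph of max degree ≤ d be cut into components of size ≤ C by deleting at most ε·∣V∣ vertices, then ε ≥ (d−2)/(d+2). -/
theorem result :
    ¬ (∀ d : ℕ, Odd d → 5 ≤ d → ∀ ε : ℝ, 0 ≤ ε →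
      (∃ C : ℕ, ∀ (n : ℕ) (G : SimpleGraph (Fin n)),
        (∀ v : Fin n, (G.neighborSet v).ncard ≤ d) →
        ∃ X : Finset (Fin n), (X.card : ℝ) ≤ ε * (n : ℝ) ∧
          ∀ c : (G.induce ((↑X : Set (Fin n))ᶜ)).ConnectedComponent,
            c.supp.ncard ≤ C) →
      ((d : ℝ) - 2) / ((d : ℝ) + 2) ≤ ε) := by
  intro hmain
  obtain ⟨d, k, δ, η, hd5, hodd, hδ, H⟩ := Pool.Agent.Lib.MP_4d044e_co.TW.fin
  obtain ⟨ε, hε0, hε, C, hC⟩ := Pool.Agent.Lib.MP_4d044e_co.TW.wrap d k δ η hd5 hδ H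
  have := hmain d hodd hd5 ε hε0 ⟨C, hC⟩
  linarith

end Pool.Agent.S08642
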