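import Pool.Statements.S08733
-- import your own Pool.Agent.* helpers here
import Pool.Agent.Lib.MP_50d2fe_co.Body
import Pool.Agent.Lib.MP_50d2fe_co.Cover
import Pool.Agent.Lib.MP_50d2fe_co.Dual
import Pool.Agent.Lib.MP_50d2fe_co.Edge
import Pool.Agent.Lib.MP_50d2fe_co.Facet
import Pool.Agent.Lib.MP_50d2fe_co.Final
import Pool.Agent.Lib.MP_50d2fe_co.First
import Pool.Agent.Lib.MP_50d2fe_co.Layer
import Pool.Agent.Lib.MP_50d2fe_co.MainP
import Pool.Agent.Lib.MP_50d2fe_co.Match
import Pool.Agent.Lib.MP_50d2fe_co.Norm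
import Pool.Agent.Lib.MP_50d2fe_co.Plane
import Pool.Agent.Lib.MP_50d2fe_co.Side
import Pool.Agent.Lib.MP_50d2fe_co.Tri

set_option autoImplicit false
open Pool Pool.MP_50d2fe_co

namespace Pool.Agent.S08733

/-- Any compact convex set with nonempty interior in 3-space that is touched by 25 translates, none overlapping it or each other in interior, must be a parallelepiped. -/
theorem result :
    ∀ K : Set (EuclideanSpace ℝ (Fin 3)), IsCompact K → Convex ℝ K → (interior K).Nonempty →
      ∀ v : Fin 25 → EuclideanSpace ℝ (Fin 3),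
        (∀ i, ((fun x => x + v i) '' K ∩ K).Nonempty) →
        (∀ i, Disjoint (interior ((fun x => x + v i) '' K)) (interior K)) →
        (∀ i j, i ≠ j →
          Disjoint (interior ((fun x => x + v i) '' K)) (interior ((fun x => x + v j) '' K))) →
        ∃ p : EuclideanSpace ℝ (Fin 3), ∃ u : Fin 3 → EuclideanSpace ℝ (Fin 3),
          LinearIndependent ℝ u ∧
          K = {x | ∃ t : Fin 3 → ℝ, (∀ k, t k ∈ Set.Icc (0:ℝ) 1) ∧ x = p + ∑ k, t k • u k} := by
  have hA : MP50d2fe.SpecCoverA := MP50d2fe.specCoverA MP50d2fe.specMatch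
  have hB : MP50d2fe.SpecCoverB := MP50d2fe.specCoverB MP50d2fe.specMatch
  have hC : MP50d2fe.SpecCoverC := MP50d2fe.specCoverC MP50d2fe.specMatch
  have hD : MP50d2fe.SpecDual := MP50d2fe.specDual hA
  have hH : MP50d2fe.SpecHull := MP50d2fe.specHull hD
  have hS : MP50d2fe.SpecSide :=
    MP50d2fe.specSide (MP50d2fe.specExpo hH hD) (MP50d2fe.specEdge hA hB)
  have hM : MP50d2fe.SpecMain :=
    MP50d2fe.specMainP (MP50d2fe.specFacet hD)
      (MP50d2fe.specPlane MP50d2fe.specFirst hS hH) (MP50d2fe.specLayer hA hC) MP50d2fe.specTri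
  exact MP50d2fe.final (MP50d2fe.specNorm hM) MP50d2fe.specBody MP50d2fe.specDiff

end Pool.Agent.S08733
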