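import Pool.Statements.S09842
import Pool.Agent.Lib.MP_8421da_co.Partition

set_option autoImplicit false
open Pool Pool.MP_8421da_co

namespace Pool.Agent.S09842

/-- The negation of the preceding statement: For every ε>0 and all large n, E(K_n)×E(K_n) can be partitioned into at most (4/5+ε)n² products of complete bipartite edge sets, and every such partition uses at least (4/5−ε)n² parts. -/
theorem result :
    ¬ ((∀ ε : ℝ, 0 < ε → ∃ N : ℕ, ∀ n : ℕ, N ≤ n → ∃ k : ℕ,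
      (k : ℝ) ≤ (4 / 5 + ε) * (n : ℝ) ^ 2 ∧
      ∃ A B C D : Fin k → Finset (Fin n),
        (∀ i, Disjoint (A i) (B i) ∧ Disjoint (C i) (D i)) ∧
        ∀ x y u v : Fin n, x ≠ y → u ≠ v →
          ∃! i : Fin k, ((x ∈ A i ∧ y ∈ B i) ∨ (x ∈ B i ∧ y ∈ A i)) ∧
            ((u ∈ C i ∧ v ∈ D i) ∨ (u ∈ D i ∧ v ∈ C i))) ∧
    (∀ ε : ℝ, 0 < ε → ∃ N : ℕ, ∀ n : ℕ, N ≤ n → ∀ k : ℕ,
      (∃ A B C D : Fin k → Finset (Fin n),
        (∀ i, Disjoint (A i) (B i) ∧ Disjoint (C i) (D i)) ∧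
        ∀ x y u v : Fin n, x ≠ y → u ≠ v →
          ∃! i : Fin k, ((x ∈ A i ∧ y ∈ B i) ∨ (x ∈ B i ∧ y ∈ A i)) ∧
            ((u ∈ C i ∧ v ∈ D i) ∨ (u ∈ D i ∧ v ∈ C i))) →
      (4 / 5 - ε) * (n : ℝ) ^ 2 ≤ (k : ℝ))) := by
  rintro ⟨-, h⟩
  obtain ⟨N, hN⟩ := h (1 / 40) (by norm_num)
  have hM : NeZero (N + 800) := ⟨by omega⟩
  have h1 := hN (2 * ((N + 800) * (N + 800))) (by nlinarith) _
    (Pool.Agent.Biclique.exists_partition (N + 800))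
  push_cast at h1
  have hN0 : (0 : ℝ) ≤ N := Nat.cast_nonneg N
  have hx : (800 : ℝ) ≤ (N : ℝ) + 800 := by linarith
  generalize (N : ℝ) + 800 = z at h1 hx
  have h3 : 0 < z ^ 3 := by positivity
  have h4 : 800 * z ^ 3 ≤ z * z ^ 3 := mul_le_mul_of_nonneg_right hx h3.le
  nlinarith

end Pool.Agent.S09842
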