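import Pool.Statements.S10340
import Pool.Agent.Lib.MP_9a0e7c_co.Config

set_option autoImplicit false
open Pool Pool.MP_9a0e7c_co

namespace Pool.Agent.S10340

/-- The negation of the preceding statement: For any two N-point configurations on the 2-sphere, placed in the 4-sphere, there is a continuous piecewise-analytic motion in the 4-sphere from one to the other along which every pairwise distance changes monotonically. -/
theorem result :
    ¬ (∀ (N : ℕ) (p q : Fin N → EuclideanSpace ℝ (Fin 3)),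
    (∀ i, ‖p i‖ = 1) → (∀ i, ‖q i‖ = 1) →
    ∀ ι : EuclideanSpace ℝ (Fin 3) →ₗᵢ[ℝ] EuclideanSpace ℝ (Fin 5),
    ∃ m : ℝ → Fin N → EuclideanSpace ℝ (Fin 5),
      m 0 = (fun i => ι (p i)) ∧ m 1 = (fun i => ι (q i)) ∧
      ContinuousOn m (Set.Icc 0 1) ∧
      (∀ t ∈ Set.Icc (0:ℝ) 1, ∀ i, ‖m t i‖ = 1) ∧
      (∃ (K : ℕ) (s : ℕ → ℝ), s 0 = 0 ∧ s K = 1 ∧ (∀ k < K, s k < s (k+1)) ∧
         ∀ k < K, AnalyticOn ℝ m (Set.Icc (s k) (s (k+1)))) ∧
      ∀ i j, MonotoneOn (fun t => dist (m t i) (m t j)) (Set.Icc 0 1) ∨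
             AntitoneOn (fun t => dist (m t i) (m t j)) (Set.Icc 0 1)) := by
  intro hall
  let e := (Fintype.equivFin (Lib.MP_9a0e7c_co.Idx 2)).symm
  obtain ⟨ι, -⟩ := Lib.MP_9a0e7c_co.exists_isometry
    (fun k : Fin 3 => EuclideanSpace.single k (1:ℝ))
    (fun k : Fin 3 => EuclideanSpace.single (Fin.castLE (by norm_num : 3 ≤ 5) k) (1:ℝ))
    (Lib.MP_9a0e7c_co.top_le_of_ev _ fun k => Submodule.subset_span ⟨k, rfl⟩)
    (by
      intro i j
      simp [EuclideanSpace.inner_single_left, PiLp.single_apply])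
  obtain ⟨m, h0, h1, hc, hn, -, hmono⟩ := hall _ (fun i => Lib.MP_9a0e7c_co.P 2 (e i))
    (fun i => Lib.MP_9a0e7c_co.Q 2 (e i)) (fun i => Lib.MP_9a0e7c_co.norm_P 2 _)
    (fun i => Lib.MP_9a0e7c_co.norm_Q 2 _) ι
  have key := Lib.MP_9a0e7c_co.finrank_ge (d := 2) le_rfl
    (fun t i => m t (e.symm i)) (fun t ht i => hn t ht _)
    (fun i => (continuous_apply (e.symm i)).comp_continuousOn hc)
    (fun i j => by simp only [h0, Equiv.apply_symm_apply]; exact ι.dist_map _ _)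
    (fun i j => by simp only [h1, Equiv.apply_symm_apply]; exact ι.dist_map _ _)
    (fun i j => hmono _ _)
  simp at key

end Pool.Agent.S10340
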