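import Pool.Statements.S11510

set_option autoImplicit false
open Pool Pool.MP_cde6cd_co

namespace Pool.Agent.S11510

/-- Exponent table for `f₁` on `ZMod 8 × ZMod 8` (powers of `I`). -/
def T1 (a b : ZMod 8) : ℕ :=
  (([[1, 0, 0, 2, 0, 1, 3, 1], [0, 0, 2, 2, 1, 1, 1, 1], [0, 0, 2, 1, 1, 1, 3, 0],
     [0, 0, 1, 1, 1, 1, 0, 0], [0, 1, 3, 3, 1, 0, 0, 0], [1, 1, 3, 3, 0, 0, 0, 0],
     [1, 1, 1, 0, 0, 0, 0, 1], [1, 1, 0, 0, 0, 0, 1, 1]] : List (List ℕ)).getD a.val []).getD b.val 0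

/-- Exponent table for `f₂`. -/
def T2 (a b : ZMod 8) : ℕ :=
  (([[2, 3, 0, 1, 0, 1, 2, 1], [3, 3, 3, 3, 1, 1, 3, 3], [3, 3, 1, 1, 1, 1, 1, 3],
     [3, 3, 1, 1, 1, 1, 3, 3], [1, 0, 3, 0, 1, 0, 3, 2], [0, 0, 2, 2, 0, 0, 0, 0],
     [0, 0, 2, 0, 0, 0, 0, 0], [0, 0, 0, 0, 0, 0, 0, 0]] : List (List ℕ)).getD a.val []).getD b.val 0

/-- Exponent table for `f₃`. -/
def T3 (a b : ZMod 8) : ℕ :=
  (([[1, 2, 3, 2, 3, 0, 3, 0], [0, 0, 2, 2, 2, 2, 0, 0], [0, 2, 2, 2, 0, 0, 0, 0],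
     [2, 2, 2, 2, 0, 0, 0, 0], [3, 2, 3, 0, 3, 2, 1, 0], [0, 0, 0, 0, 0, 0, 0, 0],
     [2, 0, 0, 0, 0, 0, 0, 0], [0, 0, 0, 0, 0, 0, 0, 0]] : List (List ℕ)).getD a.val []).getD b.val 0

theorem T_zero : ∀ x₁ x₂ : ZMod 8,
    (T1 x₂ (0 - x₁ - x₂) + T2 x₁ (0 - x₁ - x₂) + T3 x₁ x₂) % 4 = 0 := by decide

theorem T_one : ∀ x₁ x₂ : ZMod 8,
    (T1 x₂ (1 - x₁ - x₂) + T2 x₁ (1 - x₁ - x₂) + T3 x₁ x₂) % 4 = 0 := by decide

theorem T_four : ∀ x₁ x₂ : ZMod 8,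
    (T1 x₂ (4 - x₁ - x₂) + T2 x₁ (4 - x₁ - x₂) + T3 x₁ x₂) % 4 = 1 := by decide

theorem I_pow_mod (n : ℕ) : Complex.I ^ n = Complex.I ^ (n % 4) := by
  conv_lhs => rw [← Nat.div_add_mod n 4]
  rw [pow_add, pow_mul, Complex.I_pow_four, one_pow, one_mul]

/-- The value of the average at `g` when the exponents are constant mod 4. -/
theorem avg_val (g : ZMod 8) (k : ℕ)
    (h : ∀ x₁ x₂ : ZMod 8, (T1 x₂ (g - x₁ - x₂) + T2 x₁ (g - x₁ - x₂) + T3 x₁ x₂) % 4 = k) :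
    ((Fintype.card (ZMod 8) : ℂ) ^ 2)⁻¹ *
            ∑ x₁ : ZMod 8, ∑ x₂ : ZMod 8, (Complex.I ^ (T1 x₂ (g - x₁ - x₂))) *
              (Complex.I ^ (T2 x₁ (g - x₁ - x₂))) * (Complex.I ^ (T3 x₁ x₂)) = Complex.I ^ k := by
  have h1 : ∀ x₁ x₂ : ZMod 8, (Complex.I ^ (T1 x₂ (g - x₁ - x₂))) *
              (Complex.I ^ (T2 x₁ (g - x₁ - x₂))) * (Complex.I ^ (T3 x₁ x₂)) = Complex.I ^ k := by
    intro x₁ x₂
    rw [← pow_add, ← pow_add, I_pow_mod, h x₁ x₂]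
  simp only [h1, Finset.sum_const, Finset.card_univ, ZMod.card]
  norm_num
  ring

/-- If an average of 64 complex numbers of norm at most one has real part at least one
then all of them are `1`. -/
theorem all_one (F : ZMod 8 → ZMod 8 → ℂ) (hF : ∀ a b, ‖F a b‖ ≤ 1)
    (h : 1 ≤ (((Fintype.card (ZMod 8) : ℂ) ^ 2)⁻¹ * ∑ a, ∑ b, F a b).re) :
    ∀ a b, F a b = 1 := by
  have hre : ∀ a b, (F a b).re ≤ 1 := fun a b => (Complex.re_le_norm _).trans (hF a b)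
  have hsum : (((Fintype.card (ZMod 8) : ℂ) ^ 2)⁻¹ * ∑ a, ∑ b, F a b).re
      = (64 : ℝ)⁻¹ * ∑ a, ∑ b, (F a b).re := by
    have : ((Fintype.card (ZMod 8) : ℂ) ^ 2)⁻¹ = (((64 : ℝ)⁻¹ : ℝ) : ℂ) := by
      simp only [ZMod.card]; push_cast; norm_num
    rw [this, Complex.re_ofReal_mul]
    simp only [Complex.re_sum]
  rw [hsum] at h
  have h64 : (64 : ℝ) ≤ ∑ a : ZMod 8, ∑ b : ZMod 8, (F a b).re := by linarith
  have hle : ∑ a : ZMod 8, ∑ b : ZMod 8, (1 - (F a b).re) ≤ 0 := by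
    simp only [Finset.sum_sub_distrib, Finset.sum_const, Finset.card_univ, ZMod.card]
    norm_num
    linarith
  have hnn : ∀ a ∈ (Finset.univ : Finset (ZMod 8)), 0 ≤ ∑ b : ZMod 8, (1 - (F a b).re) :=
    fun a _ => Finset.sum_nonneg (fun b _ => by linarith [hre a b])
  have h0 : ∑ a : ZMod 8, ∑ b : ZMod 8, (1 - (F a b).re) = 0 :=
    le_antisymm hle (Finset.sum_nonneg hnn)
  intro a b
  have h1 := (Finset.sum_eq_zero_iff_of_nonneg hnn).1 h0 a (Finset.mem_univ _)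
  have h2 := (Finset.sum_eq_zero_iff_of_nonneg
    (fun b _ => by linarith [hre a b] : ∀ b ∈ (Finset.univ : Finset (ZMod 8)),
      0 ≤ (1 - (F a b).re))).1 h1 b (Finset.mem_univ _)
  have h3 : (F a b).re = 1 := by linarith
  have h4 : (F a b).im = 0 := by
    have h5 := hF a b
    have h6 : ‖F a b‖ ^ 2 ≤ 1 := by
      have := norm_nonneg (F a b)
      nlinarith
    rw [← Complex.normSq_eq_norm_sq, Complex.normSq_apply, h3] at h6
    nlinarith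
  exact Complex.ext (by simpa using h3) (by simpa using h4)

theorem no_h (f₁ f₂ : ZMod 8 → ZMod 8 → ℂ) (h : ZMod 8 → ℂ)
    (e0 : ∀ x₁ x₂ : ZMod 8, f₁ x₂ (0 - x₁ - x₂) * f₂ x₁ (0 - x₁ - x₂) * h (x₁ + x₂) = 1)
    (e1 : ∀ x₁ x₂ : ZMod 8, f₁ x₂ (1 - x₁ - x₂) * f₂ x₁ (1 - x₁ - x₂) * h (x₁ + x₂) = 1)
    (e4 : ∀ x₁ x₂ : ZMod 8,
      f₁ x₂ (4 - x₁ - x₂) * f₂ x₁ (4 - x₁ - x₂) * h (x₁ + x₂) = Complex.I) : False := by
  have key : ∀ y : ZMod 8, h y ^ 8 = h (y + 1) ^ 8 ∧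
      h (y + 4) * h y ^ 3 = Complex.I * h (y + 1) ^ 4 := by
    intro y
    -- the third coordinate is `-y`
    have a0 : ∀ x : ZMod 8, f₁ x (-y) * f₂ (y - x) (-y) * h y = 1 := by
      intro x
      have := e0 (y - x) x
      have t1 : (0 : ZMod 8) - (y - x) - x = -y := by ring
      have t2 : (y - x) + x = y := by ring
      rwa [t1, t2] at this
    have a1 : ∀ x : ZMod 8, f₁ (x + 1) (-y) * f₂ (y - x) (-y) * h (y + 1) = 1 := by
      intro x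
      have := e1 (y - x) (x + 1)
      have t1 : (1 : ZMod 8) - (y - x) - (x + 1) = -y := by ring
      have t2 : (y - x) + (x + 1) = y + 1 := by ring
      rwa [t1, t2] at this
    have a4 : ∀ x : ZMod 8, f₁ (x + 4) (-y) * f₂ (y - x) (-y) * h (y + 4) = Complex.I := by
      intro x
      have := e4 (y - x) (x + 4)
      have t1 : (4 : ZMod 8) - (y - x) - (x + 4) = -y := by ring
      have t2 : (y - x) + (x + 4) = y + 4 := by ring
      rwa [t1, t2] at this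
    have hy : h y ≠ 0 := by
      intro hh; have := a0 0; rw [hh, mul_zero] at this; exact zero_ne_one this
    have hy1 : h (y + 1) ≠ 0 := by
      intro hh; have := a1 0; rw [hh, mul_zero] at this; exact zero_ne_one this
    have hb : ∀ x : ZMod 8, f₂ (y - x) (-y) ≠ 0 := by
      intro x hh; have := a0 x; rw [hh, mul_zero, zero_mul] at this; exact zero_ne_one this
    have ha : ∀ x : ZMod 8, f₁ x (-y) ≠ 0 := by
      intro x hh; have := a0 x; rw [hh, zero_mul, zero_mul] at this; exact zero_ne_one this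
    -- step relation
    have st : ∀ x : ZMod 8, f₁ (x + 1) (-y) * h (y + 1) = f₁ x (-y) * h y := by
      intro x
      have e := (a1 x).trans (a0 x).symm
      have : f₂ (y - x) (-y) * (f₁ (x + 1) (-y) * h (y + 1)) =
          f₂ (y - x) (-y) * (f₁ x (-y) * h y) := by linear_combination e
      exact mul_left_cancel₀ (hb x) this
    have st4 : ∀ x : ZMod 8, f₁ (x + 4) (-y) * h (y + 1) ^ 4 = f₁ x (-y) * h y ^ 4 := by
      intro x
      have s0 := st x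
      have s1 := st (x + 1)
      have s2 := st (x + 2)
      have s3 := st (x + 3)
      have u1 : x + 1 + 1 = x + 2 := by ring
      have u2 : x + 2 + 1 = x + 3 := by ring
      have u3 : x + 3 + 1 = x + 4 := by ring
      rw [u1] at s1
      rw [u2] at s2
      rw [u3] at s3
      calc f₁ (x + 4) (-y) * h (y + 1) ^ 4 = (f₁ (x + 4) (-y) * h (y + 1)) * h (y + 1) ^ 3 := by ring
        _ = (f₁ (x + 3) (-y) * h y) * h (y + 1) ^ 3 := by rw [s3]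
        _ = (f₁ (x + 3) (-y) * h (y + 1)) * h y * h (y + 1) ^ 2 := by ring
        _ = (f₁ (x + 2) (-y) * h y) * h y * h (y + 1) ^ 2 := by rw [s2]
        _ = (f₁ (x + 2) (-y) * h (y + 1)) * h y ^ 2 * h (y + 1) := by ring
        _ = (f₁ (x + 1) (-y) * h y) * h y ^ 2 * h (y + 1) := by rw [s1]
        _ = (f₁ (x + 1) (-y) * h (y + 1)) * h y ^ 3 := by ring
        _ = (f₁ x (-y) * h y) * h y ^ 3 := by rw [s0]
        _ = f₁ x (-y) * h y ^ 4 := by ring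
    have st8 : h (y + 1) ^ 8 = h y ^ 8 := by
      have s0 := st4 0
      have s4 := st4 4
      have u : (4 : ZMod 8) + 4 = 0 := by decide
      rw [u] at s4
      rw [zero_add] at s0
      -- f(0) h1^4 = f(4) h0^4 and f(4) h1^4 = f(0) h0^4
      have : f₁ 0 (-y) * h (y + 1) ^ 8 = f₁ 0 (-y) * h y ^ 8 := by
        calc f₁ 0 (-y) * h (y + 1) ^ 8 = (f₁ 0 (-y) * h (y + 1) ^ 4) * h (y + 1) ^ 4 := by ring
          _ = (f₁ 4 (-y) * h y ^ 4) * h (y + 1) ^ 4 := by rw [s4]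
          _ = (f₁ 4 (-y) * h (y + 1) ^ 4) * h y ^ 4 := by ring
          _ = (f₁ 0 (-y) * h y ^ 4) * h y ^ 4 := by rw [s0]
          _ = f₁ 0 (-y) * h y ^ 8 := by ring
      exact mul_left_cancel₀ (ha 0) this
    refine ⟨st8.symm, ?_⟩
    -- f(4) b h4 = I ; f(0) b h0 = 1
    have e := a4 0
    have e' := a0 0
    have s0 := st4 0
    rw [zero_add] at e s0
    -- I * f(0) b h0 = f(4) b h4
    have p1 : f₁ 4 (-y) * h (y + 4) = Complex.I * (f₁ 0 (-y) * h y) := by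
      have : f₂ (y - 0) (-y) * (f₁ 4 (-y) * h (y + 4)) =
          f₂ (y - 0) (-y) * (Complex.I * (f₁ 0 (-y) * h y)) := by
        linear_combination e - Complex.I * e'
      exact mul_left_cancel₀ (hb 0) this
    -- multiply by h1^4
    have p2 : (f₁ 0 (-y) * h y) * (h (y + 4) * h y ^ 3) =
        (f₁ 0 (-y) * h y) * (Complex.I * h (y + 1) ^ 4) := by
      calc (f₁ 0 (-y) * h y) * (h (y + 4) * h y ^ 3) = (f₁ 0 (-y) * h y ^ 4) * h (y + 4) := by ring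
        _ = (f₁ 4 (-y) * h (y + 1) ^ 4) * h (y + 4) := by rw [s0]
        _ = (f₁ 4 (-y) * h (y + 4)) * h (y + 1) ^ 4 := by ring
        _ = (Complex.I * (f₁ 0 (-y) * h y)) * h (y + 1) ^ 4 := by rw [p1]
        _ = (f₁ 0 (-y) * h y) * (Complex.I * h (y + 1) ^ 4) := by ring
    exact mul_left_cancel₀ (mul_ne_zero (ha 0) hy) p2
  have h0ne : h 0 ≠ 0 := by
    intro hh; have := e0 0 0; rw [add_zero, hh, mul_zero] at this; exact zero_ne_one this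
  have h1ne : h 1 ≠ 0 := by
    intro hh; have := e0 1 0; rw [add_zero, hh, mul_zero] at this; exact zero_ne_one this
  have h4ne : h 4 ≠ 0 := by
    intro hh; have := e0 4 0; rw [add_zero, hh, mul_zero] at this; exact zero_ne_one this
  obtain ⟨k0, m0⟩ := key 0
  obtain ⟨k4, m4⟩ := key 4
  obtain ⟨k1, m1⟩ := key 1
  have v1 : (4 : ZMod 8) + 4 = 0 := by decide
  have v2 : (4 : ZMod 8) + 1 = 5 := by decide
  have v3 : (1 : ZMod 8) + 4 = 5 := by decide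
  have v4 : (1 : ZMod 8) + 1 = 2 := by decide
  rw [zero_add] at k0 m0
  rw [zero_add] at m0
  rw [v1, v2] at m4
  rw [v3, v4] at m1
  rw [v4] at k1
  have I2 : Complex.I ^ 2 = -1 := Complex.I_sq
  -- h5^2 = -h1^2
  have q1 : h 5 ^ 2 = - h 1 ^ 2 := by
    have : h 1 ^ 6 * h 5 ^ 2 = h 1 ^ 6 * (- h 1 ^ 2) := by
      calc h 1 ^ 6 * h 5 ^ 2 = (h 5 * h 1 ^ 3) ^ 2 := by ring
        _ = (Complex.I * h 2 ^ 4) ^ 2 := by rw [m1]
        _ = Complex.I ^ 2 * h 2 ^ 8 := by ring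
        _ = h 1 ^ 6 * (- h 1 ^ 2) := by rw [I2, ← k1]; ring
    exact mul_left_cancel₀ (pow_ne_zero _ h1ne) this
  have q2 : h 4 ^ 2 = - h 0 ^ 2 := by
    have : h 0 ^ 6 * h 4 ^ 2 = h 0 ^ 6 * (- h 0 ^ 2) := by
      calc h 0 ^ 6 * h 4 ^ 2 = (h 4 * h 0 ^ 3) ^ 2 := by ring
        _ = (Complex.I * h 1 ^ 4) ^ 2 := by rw [m0]
        _ = Complex.I ^ 2 * h 1 ^ 8 := by ring
        _ = h 0 ^ 6 * (- h 0 ^ 2) := by rw [I2, ← k0]; ring
    exact mul_left_cancel₀ (pow_ne_zero _ h0ne) this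
  have q3 : h 4 ^ 2 = h 0 ^ 2 := by
    have : (h 4 * h 0) * h 4 ^ 2 = (h 4 * h 0) * h 0 ^ 2 := by
      calc (h 4 * h 0) * h 4 ^ 2 = h 0 * h 4 ^ 3 := by ring
        _ = Complex.I * h 5 ^ 4 := m4
        _ = Complex.I * (h 5 ^ 2) ^ 2 := by ring
        _ = Complex.I * h 1 ^ 4 := by rw [q1]; ring
        _ = h 4 * h 0 ^ 3 := m0.symm
        _ = (h 4 * h 0) * h 0 ^ 2 := by ring
    exact mul_left_cancel₀ (mul_ne_zero h4ne h0ne) this
  have q4 : h 0 ^ 2 = 0 := by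
    have : h 0 ^ 2 = - h 0 ^ 2 := by rw [← q3]; nth_rewrite 1 [q2]; rw [q3]
    linear_combination (1 / 2 : ℂ) * this
  exact h0ne (pow_eq_zero_iff (two_ne_zero)|>.1 q4)

/-- The negation of the preceding statement: For every finite abelian group G, the convex hull of the averages E over x1+x2+x3=g of f1(x2,x3)f2(x1,x3)f3(x1,x2), with complex f_i bounded by 1, equals the convex hull obtained when f3(x1,x2) is replaced by h(x1+x2). -/
theorem result :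
    ¬ (∀ (G : Type) [AddCommGroup G] [Fintype G],
      convexHull ℝ {φ : G → ℂ | ∃ f₁ f₂ f₃ : G → G → ℂ,
          (∀ a b, ‖f₁ a b‖ ≤ 1) ∧ (∀ a b, ‖f₂ a b‖ ≤ 1) ∧ (∀ a b, ‖f₃ a b‖ ≤ 1) ∧
          φ = fun g => ((Fintype.card G : ℂ) ^ 2)⁻¹ *
            ∑ x₁ : G, ∑ x₂ : G, f₁ x₂ (g - x₁ - x₂) * f₂ x₁ (g - x₁ - x₂) * f₃ x₁ x₂}
      = convexHull ℝ {φ : G → ℂ | ∃ f₁ f₂ : G → G → ℂ, ∃ h : G → ℂ,
          (∀ a b, ‖f₁ a b‖ ≤ 1) ∧ (∀ a b, ‖f₂ a b‖ ≤ 1) ∧ (∀ a, ‖h a‖ ≤ 1) ∧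
          φ = fun g => ((Fintype.card G : ℂ) ^ 2)⁻¹ *
            ∑ x₁ : G, ∑ x₂ : G, f₁ x₂ (g - x₁ - x₂) * f₂ x₁ (g - x₁ - x₂) * h (x₁ + x₂)}) := by
  intro H
  have H8 := H (ZMod 8)
  -- the witness
  set ψ : ZMod 8 → ℂ := fun g => ((Fintype.card (ZMod 8) : ℂ) ^ 2)⁻¹ *
            ∑ x₁ : ZMod 8, ∑ x₂ : ZMod 8, (Complex.I ^ (T1 x₂ (g - x₁ - x₂))) *
              (Complex.I ^ (T2 x₁ (g - x₁ - x₂))) * (Complex.I ^ (T3 x₁ x₂)) with hψ
  have hmem : ψ ∈ convexHull ℝ {φ : ZMod 8 → ℂ | ∃ f₁ f₂ f₃ : ZMod 8 → ZMod 8 → ℂ,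
          (∀ a b, ‖f₁ a b‖ ≤ 1) ∧ (∀ a b, ‖f₂ a b‖ ≤ 1) ∧ (∀ a b, ‖f₃ a b‖ ≤ 1) ∧
          φ = fun g => ((Fintype.card (ZMod 8) : ℂ) ^ 2)⁻¹ *
            ∑ x₁ : ZMod 8, ∑ x₂ : ZMod 8,
              f₁ x₂ (g - x₁ - x₂) * f₂ x₁ (g - x₁ - x₂) * f₃ x₁ x₂} := by
    apply subset_convexHull
    refine ⟨fun a b => Complex.I ^ (T1 a b), fun a b => Complex.I ^ (T2 a b),
      fun a b => Complex.I ^ (T3 a b), ?_, ?_, ?_, rfl⟩ <;>
    · intro a b; simp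
  rw [H8] at hmem
  -- the open half space
  let ℓ : (ZMod 8 → ℂ) →ₗ[ℝ] ℝ :=
    Complex.reLm.comp (LinearMap.proj 0) + Complex.reLm.comp (LinearMap.proj 1) +
      Complex.imLm.comp (LinearMap.proj 4)
  have hℓ : ∀ φ : ZMod 8 → ℂ, ℓ φ = (φ 0).re + (φ 1).re + (φ 4).im := fun φ => rfl
  have hconv : Convex ℝ {φ : ZMod 8 → ℂ | ℓ φ < 3} := convex_halfSpace_lt ℓ.isLinear 3
  have hsub : {φ : ZMod 8 → ℂ | ∃ f₁ f₂ : ZMod 8 → ZMod 8 → ℂ, ∃ h : ZMod 8 → ℂ,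
          (∀ a b, ‖f₁ a b‖ ≤ 1) ∧ (∀ a b, ‖f₂ a b‖ ≤ 1) ∧ (∀ a, ‖h a‖ ≤ 1) ∧
          φ = fun g => ((Fintype.card (ZMod 8) : ℂ) ^ 2)⁻¹ *
            ∑ x₁ : ZMod 8, ∑ x₂ : ZMod 8,
              f₁ x₂ (g - x₁ - x₂) * f₂ x₁ (g - x₁ - x₂) * h (x₁ + x₂)} ⊆
        {φ : ZMod 8 → ℂ | ℓ φ < 3} := by
    rintro φ ⟨f₁, f₂, h, hf₁, hf₂, hh, hφ⟩
    by_contra hcon
    simp only [Set.mem_ofPred_eq, not_lt] at hcon
    rw [hℓ] at hcon
    have hterm : ∀ g x₁ x₂ : ZMod 8,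
        ‖f₁ x₂ (g - x₁ - x₂) * f₂ x₁ (g - x₁ - x₂) * h (x₁ + x₂)‖ ≤ 1 := by
      intro g x₁ x₂
      rw [norm_mul, norm_mul]
      have := hf₁ x₂ (g - x₁ - x₂)
      have := hf₂ x₁ (g - x₁ - x₂)
      have := hh (x₁ + x₂)
      exact mul_le_one₀ (mul_le_one₀ (by assumption) (norm_nonneg _) (by assumption))
        (norm_nonneg _) (by assumption)
    have hnorm : ∀ g, ‖φ g‖ ≤ 1 := by
      intro g
      rw [hφ]
      simp only [norm_mul, norm_inv, norm_pow]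
      have h8 : ‖((Fintype.card (ZMod 8) : ℂ))‖ = 8 := by
        simp [ZMod.card]
      rw [h8]
      have hs : ‖∑ x₁ : ZMod 8, ∑ x₂ : ZMod 8,
              f₁ x₂ (g - x₁ - x₂) * f₂ x₁ (g - x₁ - x₂) * h (x₁ + x₂)‖ ≤ 64 := by
        calc _ ≤ ∑ x₁ : ZMod 8, ‖∑ x₂ : ZMod 8,
              f₁ x₂ (g - x₁ - x₂) * f₂ x₁ (g - x₁ - x₂) * h (x₁ + x₂)‖ := norm_sum_le _ _
          _ ≤ ∑ x₁ : ZMod 8, ∑ x₂ : ZMod 8,
              ‖f₁ x₂ (g - x₁ - x₂) * f₂ x₁ (g - x₁ - x₂) * h (x₁ + x₂)‖ :=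
              Finset.sum_le_sum (fun _ _ => norm_sum_le _ _)
          _ ≤ ∑ x₁ : ZMod 8, ∑ x₂ : ZMod 8, (1 : ℝ) :=
              Finset.sum_le_sum (fun _ _ => Finset.sum_le_sum (fun _ _ => hterm _ _ _))
          _ = 64 := by
              simp only [Finset.sum_const, Finset.card_univ, ZMod.card]; norm_num
      calc ((8 : ℝ) ^ 2)⁻¹ * _ ≤ ((8 : ℝ) ^ 2)⁻¹ * 64 := by gcongr
        _ = 1 := by norm_num
    have r0 : (φ 0).re ≤ 1 := (Complex.re_le_norm _).trans (hnorm 0)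
    have r1 : (φ 1).re ≤ 1 := (Complex.re_le_norm _).trans (hnorm 1)
    have r4 : (φ 4).im ≤ 1 := (Complex.abs_im_le_norm _ |> (le_abs_self _).trans).trans (hnorm 4)
    have s0 : 1 ≤ (φ 0).re := by linarith
    have s1 : 1 ≤ (φ 1).re := by linarith
    have s4 : 1 ≤ (φ 4).im := by linarith
    rw [hφ] at s0 s1 s4
    have e0 := all_one _ (fun a b => hterm 0 a b) s0
    have e1 := all_one _ (fun a b => hterm 1 a b) s1
    have e4 : ∀ x₁ x₂ : ZMod 8,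
        f₁ x₂ (4 - x₁ - x₂) * f₂ x₁ (4 - x₁ - x₂) * h (x₁ + x₂) = Complex.I := by
      have hb : ∀ a b : ZMod 8, ‖(-Complex.I) *
          (f₁ b (4 - a - b) * f₂ a (4 - a - b) * h (a + b))‖ ≤ 1 := by
        intro a b
        rw [norm_mul, norm_neg, Complex.norm_I, one_mul]
        exact hterm 4 a b
      have e := all_one (fun a b => (-Complex.I) *
        (f₁ b (4 - a - b) * f₂ a (4 - a - b) * h (a + b))) hb (by
          have : ((Fintype.card (ZMod 8) : ℂ) ^ 2)⁻¹ * ∑ a : ZMod 8, ∑ b : ZMod 8, (-Complex.I) *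
              (f₁ b (4 - a - b) * f₂ a (4 - a - b) * h (a + b)) =
              (-Complex.I) * (((Fintype.card (ZMod 8) : ℂ) ^ 2)⁻¹ * ∑ a : ZMod 8, ∑ b : ZMod 8,
              (f₁ b (4 - a - b) * f₂ a (4 - a - b) * h (a + b))) := by
            simp only [← Finset.mul_sum]
            ring
          rw [this]
          simp only [Complex.mul_re, Complex.neg_re, Complex.I_re, Complex.neg_im, Complex.I_im]
          simp only [neg_zero, zero_mul, zero_sub, neg_mul, neg_neg, one_mul]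
          exact s4)
      intro x₁ x₂
      have := e x₁ x₂
      have I2 : Complex.I * Complex.I = -1 := Complex.I_mul_I
      linear_combination Complex.I * this + (f₁ x₂ (4 - x₁ - x₂) * f₂ x₁ (4 - x₁ - x₂) *
        h (x₁ + x₂)) * I2
    exact no_h f₁ f₂ h e0 e1 e4
  have hlt : ℓ ψ < 3 := (convexHull_min hsub hconv) hmem
  rw [hℓ] at hlt
  have w0 : ψ 0 = 1 := by
    rw [hψ]; simpa using avg_val 0 0 T_zero
  have w1 : ψ 1 = 1 := by
    rw [hψ]; simpa using avg_val 1 0 T_one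
  have w4 : ψ 4 = Complex.I := by
    rw [hψ]; simpa using avg_val 4 1 T_four
  rw [w0, w1, w4] at hlt
  norm_num at hlt

end Pool.Agent.S11510
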