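import Pool.Statements.S12320
import Pool.Agent.Lib.MP_f02039_co.RedFinal
import Pool.Agent.Lib.MP_f02039_co.Final
import Pool.Agent.Lib.MP_f02039_co.Glue
import Pool.Agent.Lib.MP_f02039_co.R1
import Pool.Agent.Lib.MP_f02039_co.R4
import Pool.Agent.Lib.MP_f02039_co.R5
import Pool.Agent.Lib.MP_f02039_co.R6
import Pool.Agent.Lib.MP_f02039_co.R7
import Pool.Agent.Lib.MP_f02039_co.R8
import Pool.Agent.Lib.MP_f02039_co.R8b
import Pool.Agent.Lib.MP_f02039_co.R9R10

set_option autoImplicit false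
open Pool Pool.MP_f02039_co

namespace Pool.Agent.S12320

/-- The negation of the preceding statement: For k in {1,2} and s≥2, except (k,s)=(1,2),(2,2),(1,3): the group presented by the {3,3,3,4,3} Coxeter relations plus (ρ1στσ)^s (k=1) or (ρ1στ)^(2s) (k=2) is infinite, its generators are nontrivial, and it has the intersection property. -/
theorem result :
    ¬ (∀ (k s : ℕ), (k = 1 ∨ k = 2) → 2 ≤ s → ¬ (k = 1 ∧ s = 2) → ¬ (k = 2 ∧ s = 2) →
    ¬ (k = 1 ∧ s = 3) →
  ∀ (σ τ : FreeGroup (Fin 6)),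
    σ = FreeGroup.of (2 : Fin 6) * FreeGroup.of (3 : Fin 6) * FreeGroup.of (4 : Fin 6) *
          FreeGroup.of (3 : Fin 6) * FreeGroup.of (2 : Fin 6) →
    τ = FreeGroup.of (5 : Fin 6) * FreeGroup.of (4 : Fin 6) * FreeGroup.of (3 : Fin 6) *
          FreeGroup.of (4 : Fin 6) * FreeGroup.of (5 : Fin 6) →
  ∀ (R : Set (FreeGroup (Fin 6))),
    R = {w | ∃ i j : Fin 6, w = (FreeGroup.of i * FreeGroup.of j) ^
          (if i = j then (1 : ℕ) else
            if (i.val + 1 = j.val ∨ j.val + 1 = i.val) then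
              (if min i.val j.val = 3 then (4 : ℕ) else 3)
            else 2)} ∪
        {if k = 1 then (FreeGroup.of (1 : Fin 6) * σ * τ * σ) ^ s
         else (FreeGroup.of (1 : Fin 6) * σ * τ) ^ (2 * s)} →
    Infinite (PresentedGroup R) ∧
    (∀ i : Fin 6, (PresentedGroup.of i : PresentedGroup R) ≠ 1) ∧
    ∀ I J : Set (Fin 6),
      Subgroup.closure ((PresentedGroup.of : Fin 6 → PresentedGroup R) '' I) ⊓
        Subgroup.closure ((PresentedGroup.of : Fin 6 → PresentedGroup R) '' J) =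
      Subgroup.closure ((PresentedGroup.of : Fin 6 → PresentedGroup R) '' (I ∩ J))) := by
  exact Pool.Agent.Lib.MP_f02039_co.Red.frozen_of_main
    (MPf02039.finite_of_specs MPf02039.specR1
      (MPf02039.specR4 MPf02039.hB1 MPf02039.hS1 MPf02039.hS2 MPf02039.hS3)
      (MPf02039.specR5 MPf02039.hB1 MPf02039.hB2 MPf02039.hS1)
      (MPf02039.R6.specR6 MPf02039.hB1 MPf02039.hB2)
      (MPf02039.R7.specR7 MPf02039.hB1 MPf02039.hB2)
      (MPf02039.specR8 MPf02039.hB1 MPf02039.hB2)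
      (MPf02039.specR8b MPf02039.hB1 MPf02039.hB2)
      (MPf02039.specR9 MPf02039.hB1 MPf02039.hB2)
      MPf02039.specR10)

end Pool.Agent.S12320
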