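import Pool.Statements.S12505
import Pool.Agent.Lib.MP_f9129e_co.Asymptotic

set_option autoImplicit false
open Pool Pool.MP_f9129e_co

namespace Pool.Agent.S12505

/-- For every p ≥ 5 there are edge colourings of K_n, for all n, with k(n) colours where k(n) ≤ n^ε eventually for each ε > 0, such that the union of any at most p−1 colour classes is properly p-colourable. -/
theorem result :
    ∀ p : ℕ, 5 ≤ p →
      ∃ k : ℕ → ℕ,
        (∀ ε : ℝ, 0 < ε → ∀ᶠ n : ℕ in Filter.atTop, (k n : ℝ) ≤ (n : ℝ) ^ ε) ∧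
        ∀ n : ℕ, ∃ c : Sym2 (Fin n) → Fin (k n),
          ∀ S : Finset (Fin (k n)), S.card ≤ p - 1 →
            (SimpleGraph.fromRel (fun i j : Fin n => c s(i, j) ∈ S)).Colorable p := by
  intro p hp
  obtain ⟨r, rfl⟩ : ∃ r, p = r + 1 := ⟨p - 1, by omega⟩
  obtain ⟨k, hk, hcol⟩ := Pool.Agent.Lib.MP_f9129e_co.exists_colouring r
  refine ⟨k, hk, fun n => ?_⟩
  obtain ⟨c, hs, hc⟩ := hcol n
  refine ⟨Sym2.lift ⟨c, hs⟩, fun S hS => ?_⟩
  obtain ⟨f, hf⟩ := hc S (by simpa using hS)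
  refine ⟨SimpleGraph.Coloring.mk f ?_⟩
  intro x y hxy
  rw [SimpleGraph.fromRel_adj] at hxy
  obtain ⟨hne, h | h⟩ := hxy
  · exact hf x y hne (by simpa using h)
  · exact (hf y x hne.symm (by simpa using h)).symm

end Pool.Agent.S12505
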