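import Pool.Statements.S12636
import Pool.Agent.Lib.MP_fef54c_co.Detect

set_option autoImplicit false
open Filter Topology
open Pool Pool.MP_fef54c_co

namespace Pool.Agent.S12636


open Pool.Agent.Lib.MP_fef54c_co in
lemma lower (n : ℕ) (hn : 1 ≤ n) (S : Finset (Fin n → Fin 2))
    (hS : Function.Injective
      (fun (x : Fin n → Fin 3) (s : S) => ∑ l : Fin n, Mx (x l) ((s : Fin n → Fin 2) l))) :
    (n : ℝ) * Real.log 4 ≤ (S.card : ℝ) * (3 + Real.log n / 2) := by
  have hn0 : (1 : ℝ) ≤ n := by exact_mod_cast hn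
  have hsep : ∀ y y' : Fin n → Fin 4, (∀ s ∈ S, zi s y = zi s y') → y = y' := by
    intro y y' h
    apply lift_inj S hS
    intro s hs
    have h1 := h s hs
    have h2 : ∀ z : Fin n → Fin 4,
        zi s z = 2 * (∑ l, ind (s l) * ((z l : ℕ) : ℤ)) - 3 * ∑ l, ind (s l) := by
      intro z
      unfold zi
      rw [Finset.mul_sum, Finset.mul_sum, ← Finset.sum_sub_distrib]
      apply Finset.sum_congr rfl
      intro l _
      ring
    rw [h2, h2] at h1
    linarith
  have hsq : Real.sqrt (5 * n) ^ 2 = 5 * n := Real.sq_sqrt (by positivity)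
  have hpos : 0 < Real.sqrt (5 * n) := Real.sqrt_pos.mpr (by positivity)
  have h := count_ineq S hsep (Real.sqrt (5 * n)) hpos hsq.ge
  have hs1 : (1 : ℝ) ≤ Real.sqrt n := by
    rw [Real.one_le_sqrt]; exact hn0
  have hsnn : Real.sqrt n ^ 2 = n := Real.sq_sqrt (by positivity)
  have h5 : Real.sqrt (5 * n) ≤ 2.25 * Real.sqrt n := by
    rw [Real.sqrt_le_left (by positivity)]
    nlinarith
  have he : (6.5 : ℝ) ≤ Real.exp 2 := by
    have h1 : (2.7 : ℝ) ≤ Real.exp 1 := by
      have := Real.exp_one_gt_d9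
      linarith
    have h2 : Real.exp 2 = Real.exp 1 ^ 2 := by
      rw [← Real.exp_nat_mul]; norm_num
    rw [h2]
    nlinarith
  have hsl : Real.sqrt n = Real.exp (Real.log n / 2) := by
    rw [Real.sqrt_eq_rpow, Real.rpow_def_of_pos (by linarith)]
    congr 1
    ring
  have hb : 2 * (Real.sqrt (5 * n) + 1) ≤ Real.exp (2 + Real.log n / 2) := by
    rw [Real.exp_add, ← hsl]
    have : 2 * (Real.sqrt (5 * n) + 1) ≤ 6.5 * Real.sqrt n := by linarith
    refine le_trans this ?_
    exact mul_le_mul_of_nonneg_right he (by positivity)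
  have h6 : (4 : ℝ) ^ n * Real.exp (-(S.card : ℝ))
      ≤ Real.exp ((S.card : ℝ) * (2 + Real.log n / 2)) := by
    refine le_trans h ?_
    rw [Real.exp_nat_mul]
    exact pow_le_pow_left₀ (by positivity) hb _
  have h7 : (4 : ℝ) ^ n = Real.exp ((n : ℝ) * Real.log 4) := by
    rw [Real.exp_nat_mul, Real.exp_log (by norm_num)]
  rw [h7, ← Real.exp_add, Real.exp_le_exp] at h6
  linarith

open Pool.Agent.Lib.MP_fef54c_co in
lemma separable (n : ℕ) : Function.Injective
      (fun (x : Fin n → Fin 3) (s : (Finset.univ : Finset (Fin n → Fin 2))) =>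
        ∑ l : Fin n, Mx (x l) ((s : Fin n → Fin 2) l)) := by
  intro x x' h
  funext l
  have h1 := congrFun h ⟨fun k => if k = l then 1 else 0, Finset.mem_univ _⟩
  simp only [Mx_eq] at h1
  have h2 : ∀ z : Fin n → Fin 3,
      ∑ k : Fin n, ind (if k = l then 1 else 0) * dig (z k) = dig (z l) := by
    intro z
    rw [Finset.sum_eq_single l]
    · simp [ind]
    · intro b _ hb
      simp [ind, hb]
    · simp
  rw [h2, h2] at h1
  revert h1
  generalize x l = a
  generalize x' l = b
  revert a b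
  decide

/-- The negation of the preceding statement: For every p×q integer matrix with p ≥ 2 whose distinct rows never differ by a constant vector, the least size of S ⊆ [q]^n making the row-sum map on [p]^n injective, times log base p of n, divided by n, tends to 2. -/
theorem result :
    ¬ (∀ (p q : ℕ) (M : Matrix (Fin p) (Fin q) ℤ),
      2 ≤ p →
      (∀ i j : Fin p, i ≠ j → ∃ s t : Fin q, M i s - M j s ≠ M i t - M j t) →
      Tendsto
        (fun n : ℕ =>
          ((sInf {k : ℕ | ∃ S : Finset (Fin n → Fin q), S.card = k ∧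
              Function.Injective
                (fun (x : Fin n → Fin p) (s : S) =>
                  ∑ l : Fin n, M (x l) ((s : Fin n → Fin q) l))} : ℕ) : ℝ)
            * Real.logb (p : ℝ) (n : ℝ) / (n : ℝ))
        atTop (𝓝 2)) := by
  intro H
  have hT := H 3 2 Pool.Agent.Lib.MP_fef54c_co.Mx (by norm_num) (by decide)
  have h1 := hT.eventually (gt_mem_nhds (show (2 : ℝ) < 2.1 by norm_num))
  have h2 : ∀ᶠ n : ℕ in atTop, (54 : ℝ) ≤ Real.log n :=
    (Real.tendsto_log_atTop.comp tendsto_natCast_atTop_atTop).eventually_ge_atTop 54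
  obtain ⟨n, hn1, hn2, hn3⟩ := (h1.and (h2.and (eventually_ge_atTop 1))).exists
  set K : Set ℕ := {k : ℕ | ∃ S : Finset (Fin n → Fin 2), S.card = k ∧
              Function.Injective
                (fun (x : Fin n → Fin 3) (s : S) =>
                  ∑ l : Fin n, Pool.Agent.Lib.MP_fef54c_co.Mx (x l) ((s : Fin n → Fin 2) l))}
    with hK
  have hne : K.Nonempty := ⟨_, Finset.univ, rfl, separable n⟩
  obtain ⟨S, hcard, hinj⟩ := Nat.sInf_mem hne
  have hlow := lower n hn3 S hinj
  rw [hcard] at hlow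
  set m : ℝ := ((sInf K : ℕ) : ℝ) with hm
  set L : ℝ := Real.log n with hL
  have hn0 : (1 : ℝ) ≤ n := by exact_mod_cast hn3
  have hm0 : 0 ≤ m := by positivity
  have hl3 : 0 < Real.log 3 := Real.log_pos (by norm_num)
  have hl43 : 5 * Real.log 3 ≤ 4 * Real.log 4 := by
    have e1 : 5 * Real.log 3 = Real.log (3 ^ 5) := by
      rw [Real.log_pow]; norm_num
    have e2 : 4 * Real.log 4 = Real.log (4 ^ 4) := by
      rw [Real.log_pow]; norm_num
    rw [e1, e2]
    exact Real.log_le_log (by norm_num) (by norm_num)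
  have hval : m * Real.logb ((3 : ℕ) : ℝ) (n : ℝ) / (n : ℝ) < 2.1 := hn1
  rw [Real.logb, div_lt_iff₀ (by linarith)] at hval
  have h3 : m * L < 2.1 * n * Real.log 3 := by
    have h4 : m * (L / Real.log ((3 : ℕ) : ℝ)) = m * L / Real.log 3 := by
      push_cast; ring
    rw [h4, div_lt_iff₀ hl3] at hval
    exact hval
  -- n * log 4 ≤ m * (3 + L / 2), and 3 ≤ L / 18
  have h5 : m * (3 + L / 2) ≤ m * (5 / 9 * L) := by
    apply mul_le_mul_of_nonneg_left _ hm0
    linarith
  have h6 : (n : ℝ) * Real.log 4 ≤ 5 / 9 * (m * L) := by linarith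
  have h7 : (n : ℝ) * (5 * Real.log 3) ≤ n * (4 * Real.log 4) :=
    mul_le_mul_of_nonneg_left hl43 (by linarith)
  have h8 : 0 < (n : ℝ) * Real.log 3 := mul_pos (by linarith) hl3
  nlinarith

end Pool.Agent.S12636
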