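-- Proof of the frozen statement S12709 (MP_084b88_gt, Q1 of Chakerian for all convex bodies).
-- All parts are in Pool/Agent/Lib/MP_084b88_gt: the generators QD/CTS.lean, the cover and the regime I QD/FC.lean.
import Pool.Statements.S12709
import Pool.Agent.Lib.MP_084b88_gt.QD.CTS
import Pool.Agent.Lib.MP_084b88_gt.QD.FC

set_option autoImplicit false
open Pointwise MeasureTheory
open Pool Pool.MP_084b88_gt

namespace Pool.Agent.S12709

/-- For a convex body K in 3-space, if every plane section through the interior has isoperimetric ratio π·area/V₁² at least c, then 3π·V₁(K)·vol(K)/(4·V₂(K)²) is at least c, with intrinsic volumes defined by the Steiner formula. -/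
theorem result :
    ∀ (K : Set (EuclideanSpace ℝ (Fin 3))), Convex ℝ K → IsCompact K → (interior K).Nonempty →
    ∀ c : ℝ,
    (∀ H : AffineSubspace ℝ (EuclideanSpace ℝ (Fin 3)),
        Module.finrank ℝ H.direction = 2 → (∃ x ∈ interior K, x ∈ H) →
        ∀ a1 a2 : ℝ,
          (∀ t : ℝ, 0 ≤ t →
            (volume ((K ∩ (H : Set (EuclideanSpace ℝ (Fin 3)))) +
              Metric.closedBall (0 : EuclideanSpace ℝ (Fin 3)) t)).toReal
              = 2 * a2 * t + Real.pi * a1 * t ^ 2 + 4 / 3 * Real.pi * t ^ 3) →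
          c * a1 ^ 2 ≤ Real.pi * a2) →
    ∀ V1 V2 : ℝ,
      (∀ t : ℝ, 0 ≤ t →
        (volume (K + Metric.closedBall (0 : EuclideanSpace ℝ (Fin 3)) t)).toReal
          = (volume K).toReal + 2 * V2 * t + Real.pi * V1 * t ^ 2 + 4 / 3 * Real.pi * t ^ 3) →
      4 * c * V2 ^ 2 ≤ 3 * Real.pi * V1 * (volume K).toReal := by
  exact Pool.Agent.Lib.MP_084b88_gt.QV.mainF Pool.Agent.Lib.MP_084b88_gt.QV.cts

end Pool.Agent.S12709
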