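import Pool.Statements.S12798
import Pool.Agent.Lib.MP_1501ba_gt.Final

set_option autoImplicit false
open Pool Pool.MP_1501ba_gt

namespace Pool.Agent.S12798

open Pool.Agent.Lib.MP_1501ba_gt

/-- The negation: there is a continuum with a minimal monotone map onto the unit interval which is
not irreducible. -/
theorem result :
    ¬ (∀ (M : Type) [MetricSpace M] [CompactSpace M] [ConnectedSpace M]
      (f : C(M, unitInterval)),
      Function.Surjective f →
      (∀ t : unitInterval, IsPreconnected (f ⁻¹' {t})) →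
      (∀ D : Set M, IsClosed D → D ≠ Set.univ → f '' D = Set.univ →
        ¬ ∀ t : unitInterval, IsPreconnected (D ∩ f ⁻¹' {t})) →
      ∃ p q : M, ∀ K : Set M, IsClosed K → IsConnected K → p ∈ K → q ∈ K →
        K = Set.univ) := by
  intro H
  letI : MetricSpace ↥Lib.MP_1501ba_gt.M :=
    TopologicalSpace.metrizableSpaceMetric ↥Lib.MP_1501ba_gt.M
  obtain ⟨p, q, hpq⟩ := H ↥Lib.MP_1501ba_gt.M proj proj_surjective proj_fibre proj_minimal
  exact bad_ne_univ (proj p) (proj q) (hpq (bad (proj p) (proj q)) (isClosed_bad _ _)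
    ⟨⟨p, Or.inl (Or.inr rfl)⟩, isPreconnected_bad _ _⟩ (Or.inl (Or.inr rfl)) (Or.inr rfl))

end Pool.Agent.S12798
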