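/-
MP_37d555_gt (Petty; Holmes-Thompson; Gruber), frozen statement S13019.

Proof. Let `g` be the gauge of `K`. The hypothesis says that `M g u = ∫_K |dg_x(u)| dx` is a positive
multiple of `g u` (modules GAUGE, PROJ, WULFF). Differentiating in `u` at a point `y` of differentiability
and using an integral identity with its equality case (module SIGN), one gets for all such `y` and all `e`
with `dg_y(e) = 0` that `g (e + t y) ≥ g e`: Birkhoff orthogonality is symmetric. In dimension at least
three this forces `g` to be differentiable off zero (module SMOOTH) and Euclidean (modules SYMM, PYTH, ELL).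
-/
import Pool.Statements.S13019
import Pool.Agent.Lib.MP_37d555_gt.FinalA
import Pool.Agent.Lib.MP_37d555_gt.Gauge
import Pool.Agent.Lib.MP_37d555_gt.Proj
import Pool.Agent.Lib.MP_37d555_gt.Wulff
import Pool.Agent.Lib.MP_37d555_gt.Half
import Pool.Agent.Lib.MP_37d555_gt.Sign
import Pool.Agent.Lib.MP_37d555_gt.Smooth
import Pool.Agent.Lib.MP_37d555_gt.Symm
import Pool.Agent.Lib.MP_37d555_gt.Pyth
import Pool.Agent.Lib.MP_37d555_gt.Ell

set_option autoImplicit false
open Pool Pool.MP_37d555_gt

namespace Pool.Agent.S13019

/-- For n ≥ 3, if an origin-symmetric convex body K in n-space has projection body (support function u ↦ (n−1)-volume of K projected onto u^⊥) equal to a positive homothetic copy of its polar, then K is an ellipsoid. -/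
theorem result :
    ∀ n : ℕ, 3 ≤ n →
      ∀ K : Set (EuclideanSpace ℝ (Fin n)),
        IsCompact K → Convex ℝ K → (interior K).Nonempty → (∀ x ∈ K, -x ∈ K) →
        (∃ c : ℝ, 0 < c ∧ ∃ t : EuclideanSpace ℝ (Fin n),
          {y : EuclideanSpace ℝ (Fin n) |
              ∀ u : EuclideanSpace ℝ (Fin n), ‖u‖ = 1 →
                inner ℝ y u ≤
                  (MeasureTheory.Measure.hausdorffMeasure ((n : ℝ) - 1)
                    ((fun x : EuclideanSpace ℝ (Fin n) => x - inner ℝ x u • u) '' K)).toReal}
            = (fun y : EuclideanSpace ℝ (Fin n) => c • y + t) ''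
                {y : EuclideanSpace ℝ (Fin n) | ∀ x ∈ K, inner ℝ x y ≤ 1}) →
        ∃ A : EuclideanSpace ℝ (Fin n) ≃L[ℝ] EuclideanSpace ℝ (Fin n),
          ∃ v : EuclideanSpace ℝ (Fin n),
            K = (fun x : EuclideanSpace ℝ (Fin n) => A x + v) '' Metric.closedBall 0 1 := by
  open Pool.Agent.Lib.MP_37d555_gt in
  exact assemble specGauge specProj specWulff (specSign specHalf) specSmooth specSymm specPyth specEll

end Pool.Agent.S13019
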