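import Pool.Statements.S13892
import Pool.Agent.Lib.MP_c4305c_gt.Vd
import Pool.Agent.Lib.MP_c4305c_gt.Constr
import Pool.Agent.Lib.MP_c4305c_gt.Omega

set_option autoImplicit false
open Pool Pool.MP_c4305c_gt

namespace Pool.Agent.S13892

open Topology Set Pool.Agent.Lib.MP_c4305c_gt

/-- The negation of the preceding statement: For each infinite compact Hausdorff C there is a cardinal λ so that for every T1 space X: X×C is normal iff X is <λ-paracompact and w(C)-collectionwise normal, where w(C) is the least size of a base of C. -/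
theorem result :
    ¬ (∀ (C : Type) [TopologicalSpace C] [CompactSpace C] [T2Space C] [Infinite C],
    ∃ lam : Cardinal.{0}, ∀ (X : Type) [TopologicalSpace X] [T1Space X],
      (NormalSpace (X × C) ↔
        ((∀ (ι : Type) (U : ι → Set X), Cardinal.mk ι < lam → (∀ i, IsOpen (U i)) →
            (⋃ i, U i) = Set.univ →
            ∃ V : ι → Set X, (∀ i, IsOpen (V i)) ∧ (∀ i, V i ⊆ U i) ∧
              (⋃ i, V i) = Set.univ ∧ LocallyFinite V) ∧
         (∀ (ι : Type) (F : ι → Set X),
            Cardinal.mk ι ≤ sInf {κ : Cardinal.{0} | ∃ B : Set (Set C),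
              TopologicalSpace.IsTopologicalBasis B ∧ Cardinal.mk B = κ} →
            (∀ i, IsClosed (F i)) →
            (∀ x : X, ∃ W ∈ nhds x, ∀ i j, (W ∩ F i).Nonempty → (W ∩ F j).Nonempty → i = j) →
            ∃ V : ι → Set X, (∀ i, IsOpen (V i)) ∧ (∀ i, F i ⊆ V i) ∧
              Pairwise (Function.onFun Disjoint V))))) := by
  intro hmain
  obtain ⟨X, τ, π, hX⟩ := exists_vd
  have h2 := hX.t2
  have h3 := hX.wlc
  have hunc := hX.unc
  have hinf : Infinite (OnePoint X) := by
    have : Infinite X := inferInstance
    exact Infinite.of_injective _ (OnePoint.coe_injective (X := X))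
  obtain ⟨lam, hlam⟩ := hmain (OnePoint X)
  rcases le_or_gt lam (Cardinal.aleph 1) with hle | hgt
  · -- the space X is a counterexample
    refine hX.not_normal_prod ((hlam X).2 ⟨?_, ?_⟩)
    · intro ι U hι hU hcov
      have hcount : Countable ι := by
        rw [← Cardinal.mk_le_aleph0_iff, ← Cardinal.lt_aleph_one_iff]
        exact hι.trans_le hle
      exact hX.cpara U hU hcov
    · intro ι F _ hF hdisc
      exact hX.cwn F hF hdisc
  · -- the space of countable ordinals is a counterexample
    obtain ⟨i1, i2, i3, hb⟩ := exists_omega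
    let _ : TopologicalSpace W1 := Preorder.topology W1
    have _ : OrderTopology W1 := ⟨rfl⟩
    have hnorm : NormalSpace (W1 × OnePoint X) := normal_prod hb hX.tight
    have h := ((hlam W1).1 hnorm).1 W1 (fun i => Iio i) (by rw [mk_W1]; exact hgt)
      (fun i => isOpen_Iio) (by
        rw [eq_univ_iff_forall]
        intro x
        obtain ⟨y, hy⟩ := exists_gt x
        exact mem_iUnion.2 ⟨y, hy⟩)
    obtain ⟨V, -, hV, hcov, hlf⟩ := h
    exact not_refine hb V hV hcov hlf

end Pool.Agent.S13892
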