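import Pool.Statements.S14147
import Pool.Agent.Lib.MP_e62a5f_gt.Final

set_option autoImplicit false
open Classical
open Pool Pool.MP_e62a5f_gt

namespace Pool.Agent.S14147

/-- In any finite-dimensional real normed space where every finite subset has a positive definite matrix exp(-distance), the magnitude (sum of entries of the inverse matrix) of nonempty finite subsets is continuous in the Hausdorff distance. -/
theorem result :
    ∀ (U : Type) [NormedAddCommGroup U] [NormedSpace ℝ U] [FiniteDimensional ℝ U],
      (∀ X : Finset U,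
        (Matrix.of fun (x y : ↥X) => Real.exp (-‖(x : U) - (y : U)‖)).PosDef) →
      ∀ X : Finset U, X.Nonempty → ∀ ε : ℝ, 0 < ε → ∃ δ : ℝ, 0 < δ ∧
        ∀ Y : Finset U, Y.Nonempty →
          Metric.hausdorffDist (X : Set U) (Y : Set U) < δ →
          |(∑ i, ∑ j,
              (Matrix.of fun (x y : ↥Y) => Real.exp (-‖(x : U) - (y : U)‖))⁻¹ i j) -
            (∑ i, ∑ j,
              (Matrix.of fun (x y : ↥X) => Real.exp (-‖(x : U) - (y : U)‖))⁻¹ i j)| < ε := by
  intro U _ _ _ h X hX ε hε
  exact Pool.Agent.Lib.MP_e62a5f_gt.magnitude_continuous h X hX ε hε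

end Pool.Agent.S14147
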