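import Pool.Statements.S14161
import Pool.Agent.Lib.MP_eb6644_gt.Final

set_option autoImplicit false
open Topology
open Pool Pool.MP_eb6644_gt

namespace Pool.Agent.S14161

/-- For every compact linearly ordered space that is a continuous image of a Valdivia compactum, the set of points with no countable neighbourhood base has cardinality at most aleph-one. -/
theorem result :
    ∀ (K : Type) [LinearOrder K] [TopologicalSpace K] [OrderTopology K] [CompactSpace K],
      (∃ (Γ : Type) (L : Set (Γ → ℝ)),
          IsCompact L ∧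
          L ⊆ closure (L ∩ {x : Γ → ℝ | (Function.support x).Countable}) ∧
          ∃ f : L → K, Continuous f ∧ Function.Surjective f) →
      Cardinal.mk {x : K | ¬ (𝓝 x).IsCountablyGenerated} ≤ Cardinal.aleph 1 := by
  classical
  intro K _ _ _ _ h
  obtain ⟨Γ, L, hL, hd, f, hf, hfs⟩ := h
  by_cases hK : Nonempty K
  · obtain ⟨k₀⟩ := hK
    let g : (Γ → ℝ) → K := fun x => if hx : x ∈ L then f ⟨x, hx⟩ else k₀
    have hgf : ∀ x (hx : x ∈ L), g x = f ⟨x, hx⟩ := fun x hx => by simp [g, hx]
    have hg : ContinuousOn g L := by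
      rw [continuousOn_iff_continuous_restrict]
      convert hf using 1
      funext x
      exact hgf x.1 x.2
    refine Pool.Agent.Lib.MP_eb6644_gt.main_theorem hL hg (fun q => ?_) hd
    obtain ⟨⟨x, hx⟩, rfl⟩ := hfs q
    exact ⟨x, hx, hgf x hx⟩
  · have : IsEmpty K := not_nonempty_iff.1 hK
    have : Cardinal.mk {x : K | ¬ (𝓝 x).IsCountablyGenerated} = 0 := by
      rw [Cardinal.mk_eq_zero_iff]
      infer_instance
    rw [this]
    exact zero_le

end Pool.Agent.S14161
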