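import Pool.Statements.S14199
import Pool.Agent.Lib.MP_f1379f_gt.EQ.EQA

set_option autoImplicit false
open Pool Pool.MP_f1379f_gt

namespace Pool.Agent.S14199

/-- For every set of points in 8-dimensional Euclidean space with pairwise distances at least 2, and every point x of it, the Voronoi cell of x has Lebesgue volume at least 16. -/
theorem result :
    ∀ X : Set (EuclideanSpace ℝ (Fin 8)),
      (∀ x ∈ X, ∀ x' ∈ X, x ≠ x' → (2 : ℝ) ≤ dist x x') →
      ∀ x ∈ X,
        (16 : ENNReal) ≤
          MeasureTheory.volume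
            {y : EuclideanSpace ℝ (Fin 8) | ∀ x' ∈ X, dist y x ≤ dist y x'} :=
  Pool.Agent.Lib.MP_f1379f_gt.FV.frozen

end Pool.Agent.S14199
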