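import Pool.Statements.S14335
import Pool.Agent.Lib.MP_064548_lc.Main

set_option autoImplicit false
open Pool Pool.MP_064548_lc

namespace Pool.Agent.S14335

open Pool.Agent.DLink

/-- The polynomial equation, with variables indexed by `Fin 4 ⊕ (Fin p × Fin p)`. -/
theorem link_aux (K : Type) [Field K] [Finite K] (p : ℕ) [hp : Fact p.Prime] [CharP K p] (ν : K) :
    ∃ P : MvPolynomial (Option (Fin 2) ⊕ (Fin 4 ⊕ (Fin p × Fin p))) (MvPolynomial (Fin 2) K),
      ∀ v : Option (Fin 2) → MvPolynomial (Fin 2) K,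
        (∃ y : Fin 4 ⊕ (Fin p × Fin p) → MvPolynomial (Fin 2) K,
          MvPolynomial.eval (Sum.elim v y) P = 0) ↔
        (∃ (h1 x y s : MvPolynomial (Fin 2) K) (Y : ℕ → ℕ → MvPolynomial (Fin 2) K),
          Sys p ν (v none) (v (some 0)) (v (some 1)) h1 x y s Y) := by
  classical
  have hp0 : 0 < p := hp.out.pos
  let R := MvPolynomial (Fin 2) K
  let W : MvPolynomial (Option (Fin 2) ⊕ (Fin 4 ⊕ (Fin p × Fin p))) R :=
    MvPolynomial.C (MvPolynomial.X 0)
  let Z : MvPolynomial (Option (Fin 2) ⊕ (Fin 4 ⊕ (Fin p × Fin p))) R :=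
    MvPolynomial.C (MvPolynomial.X 1)
  let N : MvPolynomial (Option (Fin 2) ⊕ (Fin 4 ⊕ (Fin p × Fin p))) R :=
    MvPolynomial.C (MvPolynomial.C ν)
  let f : MvPolynomial (Option (Fin 2) ⊕ (Fin 4 ⊕ (Fin p × Fin p))) R :=
    MvPolynomial.X (Sum.inl none)
  let B : MvPolynomial (Option (Fin 2) ⊕ (Fin 4 ⊕ (Fin p × Fin p))) R :=
    MvPolynomial.X (Sum.inl (some 0))
  let c : MvPolynomial (Option (Fin 2) ⊕ (Fin 4 ⊕ (Fin p × Fin p))) R :=
    MvPolynomial.X (Sum.inl (some 1))
  let u : Fin 4 → MvPolynomial (Option (Fin 2) ⊕ (Fin 4 ⊕ (Fin p × Fin p))) R := fun i =>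
    MvPolynomial.X (Sum.inr (Sum.inl i))
  let V : Fin p → Fin p → MvPolynomial (Option (Fin 2) ⊕ (Fin 4 ⊕ (Fin p × Fin p))) R :=
    fun i j => MvPolynomial.X (Sum.inr (Sum.inr (i, j)))
  let E1 := (u 1) ^ 2 + W * (u 1) * (u 2) + (u 2) ^ 2 - 1
  let E2 := 2 * (u 1) + W * (u 2) - (1 + (W - 1) * (u 0))
  let E3 := (1 + (W - 1) * (u 0)) - B - (W - Z) * (u 3)
  let F := 1 + Z * (1 + (W - 1) * (u 0)) + B ^ p * f
  let E4 := (V ⟨0, hp0⟩ ⟨0, hp0⟩ + N * F + c * (1 + (1 + (W - 1) * (u 0)))) * F ^ (p - 1) -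
    ∑ j : Fin p, ∑ i : Fin p, W ^ (j : ℕ) * (Z ^ (i : ℕ) * (V i j) ^ p)
  refine ⟨(E1 ^ 2 - W * E2 ^ 2) ^ 2 - W * (E3 ^ 2 - W * E4 ^ 2) ^ 2, fun v => ?_⟩
  constructor
  · rintro ⟨y, hy⟩
    rw [map_sub, map_mul, map_pow, map_pow] at hy
    simp only [W, MvPolynomial.eval_C] at hy
    obtain ⟨hA, hC⟩ := sq_sub_aniso _ _ hy
    rw [map_sub, map_mul, map_pow, map_pow] at hA hC
    simp only [W, MvPolynomial.eval_C] at hA hC
    obtain ⟨h1, h2⟩ := sq_sub_aniso _ _ hA
    obtain ⟨h3, h4⟩ := sq_sub_aniso _ _ hC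
    refine ⟨y (Sum.inl 0), y (Sum.inl 1), y (Sum.inl 2), y (Sum.inl 3),
      fun i j => if h : i < p ∧ j < p then y (Sum.inr (⟨i, h.1⟩, ⟨j, h.2⟩)) else 0, ?_, ?_, ?_, ?_⟩
    · simp only [E1, W, u, map_sub, map_add, map_mul, map_pow, map_one, MvPolynomial.eval_C,
        MvPolynomial.eval_X, Sum.elim_inr] at h1
      exact sub_eq_zero.1 h1
    · simp only [E2, W, u, map_sub, map_add, map_mul, map_one, map_ofNat, MvPolynomial.eval_C,
        MvPolynomial.eval_X, Sum.elim_inr] at h2
      exact sub_eq_zero.1 h2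
    · simp only [E3, W, Z, B, u, map_sub, map_add, map_mul, map_one, MvPolynomial.eval_C,
        MvPolynomial.eval_X, Sum.elim_inr, Sum.elim_inl] at h3
      exact sub_eq_zero.1 h3
    · simp only [E4, F, W, Z, B, N, V, f, c, u, map_sub, map_add, map_mul, map_one, map_pow, map_sum,
        MvPolynomial.eval_C, MvPolynomial.eval_X, Sum.elim_inr, Sum.elim_inl] at h4
      rw [sub_eq_zero] at h4
      beta_reduce
      rw [dif_pos (show 0 < p ∧ 0 < p from ⟨hp0, hp0⟩), h4, Finset.sum_range]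
      refine Finset.sum_congr rfl fun j _ => ?_
      rw [Finset.sum_range]
      refine Finset.sum_congr rfl fun i _ => ?_
      rw [dif_pos (show (i : ℕ) < p ∧ (j : ℕ) < p from ⟨i.2, j.2⟩)]
  · rintro ⟨h1, x, y, s, Y, e1, e2, e3, e4⟩
    refine ⟨Sum.elim ![h1, x, y, s] (fun ij => Y ij.1 ij.2), ?_⟩
    have k1 : MvPolynomial.eval (Sum.elim v (Sum.elim ![h1, x, y, s] (fun ij => Y ij.1 ij.2))) E1
        = 0 := by
      simp only [E1, W, u, map_sub, map_add, map_mul, map_pow, map_one, MvPolynomial.eval_C,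
        MvPolynomial.eval_X, Sum.elim_inr, Sum.elim_inl]
      exact sub_eq_zero.2 e1
    have k2 : MvPolynomial.eval (Sum.elim v (Sum.elim ![h1, x, y, s] (fun ij => Y ij.1 ij.2))) E2
        = 0 := by
      simp only [E2, W, u, map_sub, map_add, map_mul, map_one, map_ofNat, MvPolynomial.eval_C,
        MvPolynomial.eval_X, Sum.elim_inr, Sum.elim_inl]
      exact sub_eq_zero.2 e2
    have k3 : MvPolynomial.eval (Sum.elim v (Sum.elim ![h1, x, y, s] (fun ij => Y ij.1 ij.2))) E3
        = 0 := by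
      simp only [E3, W, Z, B, u, map_sub, map_add, map_mul, map_one, MvPolynomial.eval_C,
        MvPolynomial.eval_X, Sum.elim_inr, Sum.elim_inl]
      exact sub_eq_zero.2 e3
    have k4 : MvPolynomial.eval (Sum.elim v (Sum.elim ![h1, x, y, s] (fun ij => Y ij.1 ij.2))) E4
        = 0 := by
      simp only [E4, F, W, Z, B, N, V, f, c, u, map_sub, map_add, map_mul, map_one, map_pow, map_sum,
        MvPolynomial.eval_C, MvPolynomial.eval_X, Sum.elim_inr, Sum.elim_inl]
      rw [Finset.sum_range] at e4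
      simp only [Finset.sum_range] at e4
      exact sub_eq_zero.2 e4
    simp only [map_sub, map_mul, map_pow, k1, k2, k3, k4]
    ring

/-- For every finite field K there are n ≥ 1 and a polynomial equation over K[W,Z] defining α(f,g) with g in K[Z]^n, such that every f has some g with α(f,g) and each g is related to only finitely many f. -/
theorem result :
    ∀ (K : Type) [Field K] [Finite K],
      ∃ n : ℕ, 0 < n ∧ ∃ k : ℕ,
        ∃ P : MvPolynomial (Option (Fin n) ⊕ Fin k) (MvPolynomial (Fin 2) K),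
          (∀ f : MvPolynomial (Fin 2) K, ∃ g : Fin n → Polynomial K,
            ∃ y : Fin k → MvPolynomial (Fin 2) K,
              MvPolynomial.eval
                (Sum.elim
                  (fun o : Option (Fin n) =>
                    Option.elim o f
                      (fun i => Polynomial.aeval (MvPolynomial.X 1 : MvPolynomial (Fin 2) K) (g i)))
                  y) P = 0) ∧
          (∀ g : Fin n → Polynomial K,
            {f : MvPolynomial (Fin 2) K |
              ∃ y : Fin k → MvPolynomial (Fin 2) K,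
                MvPolynomial.eval
                  (Sum.elim
                    (fun o : Option (Fin n) =>
                      Option.elim o f
                        (fun i => Polynomial.aeval (MvPolynomial.X 1 : MvPolynomial (Fin 2) K) (g i)))
                    y) P = 0}.Finite) := by
  intro K _ _
  obtain ⟨p, hpc⟩ := CharP.exists K
  have hp : Fact p.Prime := ⟨CharP.char_is_prime K p⟩
  obtain ⟨ν, hν⟩ := exists_nu (K := K) p hp.out
  obtain ⟨P, hP⟩ := link_aux K p ν
  obtain ⟨k, P', hP'⟩ := reindex P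
  refine ⟨2, by norm_num, k, P', ?_, ?_⟩
  · intro f
    obtain ⟨B, c, h1, x, y, s, Y, hS⟩ := sys_exists p ν f
    refine ⟨![B, c], ?_⟩
    rw [hP', hP]
    exact ⟨h1, x, y, s, Y, hS⟩
  · intro g
    refine (sys_finite p ν hν (g 0) (g 1)).subset ?_
    rintro f hf
    have hf' := (hP' _).1 hf
    rw [hP] at hf'
    exact hf'

end Pool.Agent.S14335
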