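import Pool.Statements.S14715
import Pool.Agent.Lib.MP_556c5c_lc.All

set_option autoImplicit false
open Pool Pool.MP_556c5c_lc

namespace Pool.Agent.S14715

/-- Every archimedean ordered field whose first-order theory (in the ordered ring language) has no ict-pattern of depth ω, i.e. is strongly NIP, is real closed: positives are squares and odd-degree polynomials have roots. -/
theorem result :
    ∀ (K : Type) [Field K] [LinearOrder K] [IsStrictOrderedRing K] [Archimedean K],
      (¬ ∃ (n : ℕ) (φ : ℕ → Set (ℕ → K)),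
          (∀ i, ∀ D : Set (Set (ℕ → K)),
            (∀ p : MvPolynomial ℕ ℤ, {v : ℕ → K | MvPolynomial.aeval v p = 0} ∈ D) →
            (∀ p : MvPolynomial ℕ ℤ, {v : ℕ → K | 0 < MvPolynomial.aeval v p} ∈ D) →
            (∀ S ∈ D, Sᶜ ∈ D) →
            (∀ S ∈ D, ∀ T ∈ D, S ∩ T ∈ D) →
            (∀ S ∈ D, ∀ k : ℕ, {v : ℕ → K | ∃ c : K, Function.update v k c ∈ S} ∈ D) →
            φ i ∈ D) ∧
          ∀ N : ℕ, ∃ b : ℕ → ℕ → ℕ → K, ∀ η : ℕ → ℕ, (∀ i < N, η i < N) →
            ∃ a : ℕ → K, ∀ i < N, ∀ j < N,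
              ((fun k : ℕ => if k < n then a k else b i j k) ∈ φ i ↔ j = η i)) →
      (∀ x : K, 0 < x → ∃ y : K, y * y = x) ∧
        ∀ p : Polynomial K, Odd p.natDegree → ∃ r : K, p.IsRoot r := by
  intro K _ _ _ _ h
  exact Pool.Agent.Lib.MP_556c5c_lc.All.final K h

end Pool.Agent.S14715
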