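import Pool.Statements.S14925
import Pool.Agent.Lib.MP_77ea03_lc.Assembly
import Pool.Agent.Lib.MP_77ea03_lc.ThinB

set_option autoImplicit false
open Pool Pool.MP_77ea03_lc

namespace Pool.Agent.S14925

/-- In any NIP structure on the reals defining < and + where every definable set has interior or is nowhere dense, every infinite field interpreted (definable set modulo definable equivalence, definable + and ·) is isomorphic to the reals or the complex numbers. -/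
theorem result :
  ∀ (L : FirstOrder.Language.{0, 0}) [L.Structure ℝ],
    Set.Definable (∅ : Set ℝ) L {v : Fin 2 → ℝ | v 0 < v 1} →
    Set.Definable (∅ : Set ℝ) L {v : Fin 3 → ℝ | v 0 + v 1 = v 2} →
    (∀ (m k : ℕ) (φ : L.Formula (Fin m ⊕ Fin k)), ∃ N : ℕ, ∀ a : Fin N → Fin m → ℝ,
        ¬ ∀ S : Set (Fin N), ∃ b : Fin k → ℝ,
            ∀ i : Fin N, (φ.Realize (Sum.elim (a i) b) ↔ i ∈ S)) →
    (∀ (n : ℕ) (Y : Set (Fin n → ℝ)), Set.Definable (Set.univ : Set ℝ) L Y →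
        (interior Y).Nonempty ∨ IsNowhereDense Y) →
    ∀ (n : ℕ) (X : Set (Fin n → ℝ)) (E : Set (Fin n ⊕ Fin n → ℝ))
      (A Mu : Set (Fin n ⊕ Fin n ⊕ Fin n → ℝ)),
      Set.Definable (Set.univ : Set ℝ) L X →
      Set.Definable (Set.univ : Set ℝ) L E →
      Set.Definable (Set.univ : Set ℝ) L A →
      Set.Definable (Set.univ : Set ℝ) L Mu →
      ∀ (K : Type) [Field K] [Infinite K] (g : (Fin n → ℝ) → K),
        g '' X = Set.univ →
        (∀ a ∈ X, ∀ b ∈ X, (Sum.elim a b ∈ E ↔ g a = g b)) →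
        (∀ a ∈ X, ∀ b ∈ X, ∀ c ∈ X,
            (Sum.elim a (Sum.elim b c) ∈ A ↔ g a + g b = g c)) →
        (∀ a ∈ X, ∀ b ∈ X, ∀ c ∈ X,
            (Sum.elim a (Sum.elim b c) ∈ Mu ↔ g a * g b = g c)) →
        Nonempty (K ≃+* ℝ) ∨ Nonempty (K ≃+* ℂ) := by
  intro L _ hlt hadd hNIP hnl n X E A Mu hX hE hA hMu K _ _ g hg hgE hgA hgM
  exact Pool.Agent.Lib.MP_77ea03_lc.frozenThm Pool.Agent.Lib.MP_77ea03_lc.thinStmtB L hlt hadd hNIP
    hnl n X E A Mu hX hE hA hMu K g hg hgE hgA hgM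

end Pool.Agent.S14925
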