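import Pool.Statements.S15782
import Pool.Agent.Lib.MP_b5b0d6_mp.Riesz

set_option autoImplicit false
open Pool Pool.MP_b5b0d6_mp

namespace Pool.Agent.S15782

/-- The negation of the preceding statement: For every real limit-periodic V on ℤ: if some site spectral measure of the discrete Schrödinger operator H_V is not singular, then for every real c every site spectral measure of H_{cV} is absolutely continuous. -/
theorem result :
    ¬ (∀ V : ℤ → ℝ,
      (∀ ε : ℝ, 0 < ε → ∃ p : ℤ, 0 < p ∧ ∃ W : ℤ → ℝ,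
          Function.Periodic W p ∧ ∀ n : ℤ, |V n - W n| < ε) →
      (∃ k : ℤ, ∃ μ : MeasureTheory.Measure ℝ, MeasureTheory.IsFiniteMeasure μ ∧
          (∀ m : ℕ, MeasureTheory.Integrable (fun x : ℝ => x ^ m) μ) ∧
          (∀ m : ℕ, ∫ x, x ^ m ∂μ =
              Nat.iterate (fun u : ℤ → ℝ => fun n : ℤ => u (n + 1) + u (n - 1) + V n * u n)
                m (Pi.single k (1 : ℝ) : ℤ → ℝ) k) ∧
          ¬ MeasureTheory.Measure.MutuallySingular μ (MeasureTheory.volume : MeasureTheory.Measure ℝ)) →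
      ∀ c : ℝ, ∀ k : ℤ, ∀ μ : MeasureTheory.Measure ℝ, MeasureTheory.IsFiniteMeasure μ →
          (∀ m : ℕ, MeasureTheory.Integrable (fun x : ℝ => x ^ m) μ) →
          (∀ m : ℕ, ∫ x, x ^ m ∂μ =
              Nat.iterate (fun u : ℤ → ℝ => fun n : ℤ => u (n + 1) + u (n - 1) + c * V n * u n)
                m (Pi.single k (1 : ℝ) : ℤ → ℝ) k) →
          MeasureTheory.Measure.AbsolutelyContinuous μ (MeasureTheory.volume : MeasureTheory.Measure ℝ)) := by
  intro H
  open Pool.Agent.LimPer in
  -- scaling factor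
  set M : ℝ := ∑' j, |dd j| with hM
  have hM0 : 0 ≤ M := tsum_nonneg fun j => abs_nonneg _
  set ε : ℝ := 1 / (M + 1) with hε
  have hεpos : 0 < ε := by positivity
  have hsd : Summable fun j => |ε * dd j| := by
    simp only [abs_mul]
    exact summable_dd.mul_left _
  have hlt : ∑' j, |ε * dd j| < 2 := by
    simp only [abs_mul]
    rw [tsum_mul_left, abs_of_pos hεpos, ← hM, hε, one_div, inv_mul_lt_iff₀ (by positivity)]
    linarith
  -- the potential
  have hVeq : ∀ n, 1 / ε * Vinf (fun j => ε * dd j) n = Vinf dd n := by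
    intro n
    have h1 : ∀ j, lev (fun j => ε * dd j) n j = ε * lev dd n j := by
      intro j
      unfold lev
      split_ifs <;> simp
    simp only [Vinf, h1]
    rw [tsum_mul_left]
    field_simp
  obtain ⟨k0, μ0, hf0, hi0, hm0, hns⟩ := exists_nonsingular (fun j => ε * dd j) hsd hlt
  obtain ⟨k1, μ1, hf1, hi1, hm1, hnac⟩ := exists_not_ac
  apply hnac
  refine H (Vinf (fun j => ε * dd j)) ?_ ⟨k0, μ0, hf0, hi0, ?_, hns⟩ (1 / ε) k1 μ1 hf1 hi1 ?_
  · intro δ hδ
    exact Vinf_limitPeriodic _ hsd δ hδ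
  · intro m
    rw [hm0, fnl_pow]
  · intro m
    rw [hm1, fnl_pow]
    simp only [hVeq]

end Pool.Agent.S15782
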