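import Pool.Statements.S16388
import Pool.Agent.Lib.MP_2ab887_nt.Final

set_option autoImplicit false
open Filter Topology
open Pool Pool.MP_2ab887_nt

namespace Pool.Agent.S16388

open Pool.Agent.Lib.MP_2ab887_nt

/-- The two binary quartic forms, over `RatFunc kk`. -/
noncomputable def form : Fin 2 → MvPolynomial (Fin 2) (RatFunc kk) :=
  ![FF (MvPolynomial.C RatFunc.X) (MvPolynomial.X 0) (MvPolynomial.X 1),
    GG (MvPolynomial.C RatFunc.X) (MvPolynomial.X 0) (MvPolynomial.X 1)]

theorem FF_homog {R : Type*} [CommRing R] (c : R) :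
    (FF (MvPolynomial.C c) (MvPolynomial.X 0) (MvPolynomial.X 1) :
      MvPolynomial (Fin 2) R).IsHomogeneous 4 := by
  have hX : ∀ j : Fin 2, (MvPolynomial.X j : MvPolynomial (Fin 2) R).IsHomogeneous 1 :=
    fun j => MvPolynomial.isHomogeneous_X _ j
  have hX2 : ∀ j : Fin 2, (MvPolynomial.X j ^ 2 : MvPolynomial (Fin 2) R).IsHomogeneous 2 :=
    fun j => (hX j).pow 2
  have hC : ∀ c : R, (MvPolynomial.C c : MvPolynomial (Fin 2) R).IsHomogeneous 0 :=
    fun c => MvPolynomial.isHomogeneous_C _ c
  have h1 : (MvPolynomial.X 0 ^ 2 + MvPolynomial.X 0 * MvPolynomial.X 1 :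
      MvPolynomial (Fin 2) R).IsHomogeneous 2 :=
    (hX2 0).add ((hX 0).mul (hX 1))
  have h2 : (MvPolynomial.C c * MvPolynomial.X 0 * MvPolynomial.X 1 :
      MvPolynomial (Fin 2) R).IsHomogeneous 2 := ((hC c).mul (hX 0)).mul (hX 1)
  have h3 : (MvPolynomial.C c + MvPolynomial.C c ^ 2 :
      MvPolynomial (Fin 2) R).IsHomogeneous 0 := (hC c).add ((hC c).pow 2)
  unfold FF
  exact MvPolynomial.IsHomogeneous.mul (m := 2) (n := 2) h1
    (((hX2 0).add h2).add (MvPolynomial.IsHomogeneous.mul (m := 0) (n := 2) h3 (hX2 1)))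

theorem GG_homog {R : Type*} [CommRing R] (c : R) :
    (GG (MvPolynomial.C c) (MvPolynomial.X 0) (MvPolynomial.X 1) :
      MvPolynomial (Fin 2) R).IsHomogeneous 4 := by
  have hX : ∀ j : Fin 2, (MvPolynomial.X j : MvPolynomial (Fin 2) R).IsHomogeneous 1 :=
    fun j => MvPolynomial.isHomogeneous_X _ j
  have hX2 : ∀ j : Fin 2, (MvPolynomial.X j ^ 2 : MvPolynomial (Fin 2) R).IsHomogeneous 2 :=
    fun j => (hX j).pow 2
  have hC : ∀ c : R, (MvPolynomial.C c : MvPolynomial (Fin 2) R).IsHomogeneous 0 :=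
    fun c => MvPolynomial.isHomogeneous_C _ c
  have h2 : (MvPolynomial.C c * MvPolynomial.X 0 * MvPolynomial.X 1 :
      MvPolynomial (Fin 2) R).IsHomogeneous 2 := ((hC c).mul (hX 0)).mul (hX 1)
  have h4 : (MvPolynomial.C c * MvPolynomial.X 1 ^ 2 :
      MvPolynomial (Fin 2) R).IsHomogeneous 2 :=
    MvPolynomial.IsHomogeneous.mul (m := 0) (n := 2) (hC c) (hX2 1)
  unfold GG
  exact MvPolynomial.IsHomogeneous.mul (m := 2) (n := 2) h4 (((hX2 0).add h2).add h4)

theorem form_homog (i : Fin 2) : (form i).IsHomogeneous 4 := by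
  fin_cases i
  · exact FF_homog _
  · exact GG_homog _

theorem two_cl : (2 : AlgebraicClosure (RatFunc kk)) = 0 := by
  have h := congrArg (algebraMap (RatFunc kk) (AlgebraicClosure (RatFunc kk))) two_kk
  rwa [map_ofNat, map_zero] at h

theorem form_noZero (y : Fin 2 → AlgebraicClosure (RatFunc kk))
    (hy : ∀ i, MvPolynomial.aeval y (form i) = 0) : y = 0 := by
  have h0 := hy 0
  have h1 := hy 1
  change MvPolynomial.aeval y
    (FF (MvPolynomial.C RatFunc.X) (MvPolynomial.X 0) (MvPolynomial.X 1)) = 0 at h0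
  change MvPolynomial.aeval y
    (GG (MvPolynomial.C RatFunc.X) (MvPolynomial.X 0) (MvPolynomial.X 1)) = 0 at h1
  have e0 := map_FF (MvPolynomial.aeval y :
    MvPolynomial (Fin 2) (RatFunc kk) →ₐ[RatFunc kk] AlgebraicClosure (RatFunc kk)).toRingHom
    (MvPolynomial.C RatFunc.X) (MvPolynomial.X 0) (MvPolynomial.X 1)
  have e1 := map_GG (MvPolynomial.aeval y :
    MvPolynomial (Fin 2) (RatFunc kk) →ₐ[RatFunc kk] AlgebraicClosure (RatFunc kk)).toRingHom
    (MvPolynomial.C RatFunc.X) (MvPolynomial.X 0) (MvPolynomial.X 1)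
  simp only [AlgHom.toRingHom_eq_coe, RingHom.coe_coe, MvPolynomial.aeval_C,
    MvPolynomial.aeval_X] at e0 e1
  rw [h0] at e0
  rw [h1] at e1
  have hX : algebraMap (RatFunc kk) (AlgebraicClosure (RatFunc kk)) RatFunc.X ≠ 0 := by
    rw [ne_eq, map_eq_zero]
    exact RatFunc.X_ne_zero
  obtain ⟨a, b⟩ := no_common_zero two_cl hX e0.symm e1.symm
  ext i
  fin_cases i
  · simpa using a
  · simpa using b

theorem iterate_eq (n : ℕ) :
    (fun (z : Fin (1 + 1) → RatFunc kk) (j : Fin (1 + 1)) =>
      MvPolynomial.eval z (form j))^[n] (pt 0) = pt n := by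
  induction n with
  | zero => rfl
  | succ n ih =>
    rw [Function.iterate_succ_apply', ih, pt_succ]
    funext j
    fin_cases j
    · change MvPolynomial.eval (pt n)
        (FF (MvPolynomial.C RatFunc.X) (MvPolynomial.X 0) (MvPolynomial.X 1)) = _
      rw [map_FF]
      simp
    · change MvPolynomial.eval (pt n)
        (GG (MvPolynomial.C RatFunc.X) (MvPolynomial.X 0) (MvPolynomial.X 1)) = _
      rw [map_GG]
      simp

theorem pt_zero_ne : pt 0 ≠ 0 := by
  intro h
  have h1 := congrFun h 1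
  simp [pt, orb, acc] at h1

/-- The negation of the preceding statement: For every function field K of a curve over an algebraically closed field, every degree d≥2 endomorphism of projective N-space over K and every K-point, the canonical height, the limit of height(f^n(P))/d^n, is a rational number. -/
theorem result :
    ¬ (∀ (k K : Type) [Field k] [IsAlgClosed k] [Field K] [Algebra (RatFunc k) K],
      FunctionField k K →
      ∀ (N d : ℕ), 2 ≤ d →
      ∀ F : Fin (N + 1) → MvPolynomial (Fin (N + 1)) K,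
        (∀ i, (F i).IsHomogeneous d) →
        (∀ y : Fin (N + 1) → AlgebraicClosure K,
            (∀ i, MvPolynomial.aeval y (F i) = 0) → y = 0) →
        ∀ x : Fin (N + 1) → K, x ≠ 0 →
          ∃ q : ℚ,
            Tendsto
              (fun n : ℕ =>
                (∑ᶠ v : {v : Valuation K (WithZero (Multiplicative ℤ)) //
                      Function.Surjective v ∧
                        ∀ c : k, c ≠ 0 → v (algebraMap (RatFunc k) K (RatFunc.C c)) = 1},
                    ((sInf {m : ℤ | ∀ i,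
                        v.1 (((fun (z : Fin (N + 1) → K) (j : Fin (N + 1)) =>
                                MvPolynomial.eval z (F j))^[n] x) i)
                          ≤ WithZero.coe (Multiplicative.ofAdd m)} : ℤ) : ℝ))
                  / (d : ℝ) ^ n)
              atTop (𝓝 (q : ℝ))) := by
  intro h
  obtain ⟨q, hq⟩ := h kk (RatFunc kk) (by infer_instance) 1 4 (by norm_num) form form_homog
    form_noZero (pt 0) pt_zero_ne
  have hq' : Tendsto (fun n : ℕ => ((orb n).1.natDegree : ℝ) / 4 ^ n) atTop (𝓝 (q : ℝ)) := by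
    refine hq.congr ?_
    intro n
    rw [iterate_eq n]
    change (∑ᶠ v : Pl kk, loc (pt n) v) / ((4 : ℕ) : ℝ) ^ n = _
    rw [finsum_loc]
    norm_num
  obtain ⟨m, n, hmn, hrep⟩ := tail_repeats (α := fun n => (orb n).1.natDegree)
    (e := fun n => dig (orb n)) deg_rec (fun n => dig_eq _) hq'
  exact not_same_itinerary hmn hrep

end Pool.Agent.S16388
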