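import Pool.Statements.S16940
import Pool.Agent.Lib.MP_50d0fc_nt.Identity

set_option autoImplicit false
open Complex DirichletCharacter
open Pool Pool.MP_50d0fc_nt

namespace Pool.Agent.S16940

/-- The negation of the preceding statement: There are A>0, D>1/2 such that for prime q→∞, uniformly in θ in [0,2π], the max over non-principal χ mod q with L(1/2,χ)≠0 of Re(e^{-iθ}L'/L(1/2,χ)) is asymptotic to A·√(log q)·(log log q)^D. -/
theorem result :
    ¬ (∃ A D : ℝ, 0 < A ∧ 1 / 2 < D ∧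
      ∀ ε : ℝ, 0 < ε → ∃ Q : ℕ, ∀ (q : ℕ) [NeZero q], q.Prime → Q ≤ q →
        ∀ θ : ℝ, θ ∈ Set.Icc (0 : ℝ) (2 * Real.pi) →
          (∀ χ : DirichletCharacter ℂ q, χ ≠ 1 → LFunction χ (1 / 2) ≠ 0 →
            (Complex.exp (-(θ : ℂ) * Complex.I) *
                (deriv (LFunction χ) (1 / 2) / LFunction χ (1 / 2))).re ≤
              (1 + ε) * A * Real.sqrt (Real.log q) * (Real.log (Real.log q)) ^ D) ∧
          (∃ χ : DirichletCharacter ℂ q, χ ≠ 1 ∧ LFunction χ (1 / 2) ≠ 0 ∧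
            (1 - ε) * A * Real.sqrt (Real.log q) * (Real.log (Real.log q)) ^ D ≤
              (Complex.exp (-(θ : ℂ) * Complex.I) *
                (deriv (LFunction χ) (1 / 2) / LFunction χ (1 / 2))).re)) := by
  rintro ⟨A, D, hA, _hD, h⟩
  obtain ⟨Q, hQ⟩ := h (1 / 2) (by norm_num)
  obtain ⟨q, hq, hqQ, hlog, hneg⟩ :=
    Pool.Agent.Lib.MP_50d0fc_nt.exists_re_neg Q
  have : NeZero q := ⟨hq.ne_zero⟩
  obtain ⟨_, χ, hχ, h0, hle⟩ := hQ q hq hqQ 0 ⟨le_refl _, by positivity⟩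
  have h1 := hneg χ hχ h0
  have h2 : 0 < (1 - 1 / 2 : ℝ) * A * Real.sqrt (Real.log q) * (Real.log (Real.log q)) ^ D := by
    have hll : 0 < Real.log (Real.log q) := Real.log_pos hlog
    have hs : 0 < Real.sqrt (Real.log q) := Real.sqrt_pos.mpr (by linarith)
    have hp : 0 < (Real.log (Real.log q)) ^ D := Real.rpow_pos_of_pos hll D
    positivity
  have h3 : (Complex.exp (-((0 : ℝ) : ℂ) * Complex.I) *
                (deriv (LFunction χ) (1 / 2) / LFunction χ (1 / 2))).re =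
      (deriv (LFunction χ) (1 / 2) / LFunction χ (1 / 2)).re := by
    simp
  rw [h3] at hle
  linarith

end Pool.Agent.S16940
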