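import Pool.Statements.S18950
import Pool.Agent.Lib.MP_f29d01_nt.Check

set_option autoImplicit false
open Pool Pool.MP_f29d01_nt

namespace Pool.Agent.S18950

open Pool.Agent.Lib.MP_f29d01_nt Filter Topology

/-- the sign sequence: completely multiplicative, `-1` exactly at seven primes -/
noncomputable def sgn : ℕ → ℝ :=
  flipAt (flipAt (flipAt (flipAt (flipAt (flipAt (flipAt one1 54709) 54371) 36761) 18713) 17137)
    13469) 2003

lemma bd_exists : ∃ m δ D : ℝ, Bd sgn F m δ D ∧ D ≤ 6 / 10000000 := by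
  have h0 := Bd.base
  have h1 := h0.step (p := 54709) (by norm_num) (by decide)
  have h2 := h1.step (p := 54371) (by norm_num) (by decide)
  have h3 := h2.step (p := 36761) (by norm_num) (by decide)
  have h4 := h3.step (p := 18713) (by norm_num) (by decide)
  have h5 := h4.step (p := 17137) (by norm_num) (by decide)
  have h6 := h5.step (p := 13469) (by norm_num) (by decide)
  have h7 := h6.step (p := 2003) (by norm_num) (by decide)
  refine ⟨_, _, _, h7, ?_⟩
  norm_num

lemma upper_mem {t L : ℝ} (h0 : 0 < t) (h1 : t < 1)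
    (hL : Tendsto (fun N : ℕ => (1 / Real.pi) *
      ∑ n ∈ Finset.Icc 1 N, sgn n * Real.sin (2 * Real.pi * (n : ℝ) * t) / (n : ℝ))
      atTop (𝓝 L)) : L ≤ 1 / 2 - 4 / 10000000 := by
  obtain ⟨m, δ, D, hB, hD⟩ := bd_exists
  have e1 := upper hB hL
  have e2 := V_le h0 h1
  linarith

/-- The negation of the preceding statement: For every completely multiplicative ±1 sequence a_n and every ε>0, there is a t where the series (1/π)Σ a_n sin(2πnt)/n converges to a value of absolute value at least 1/2−ε; that is, the sup of ∣s∣ is at least 1/2. -/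
theorem result :
    ¬ (∀ a : ℕ → ℝ,
      (∀ n : ℕ, 1 ≤ n → (a n = 1 ∨ a n = -1)) →
      a 1 = 1 →
      (∀ m n : ℕ, 1 ≤ m → 1 ≤ n → a (m * n) = a m * a n) →
      ∀ ε : ℝ, 0 < ε →
        ∃ t L : ℝ,
          Filter.Tendsto
            (fun N : ℕ => (1 / Real.pi) *
              ∑ n ∈ Finset.Icc 1 N, a n * Real.sin (2 * Real.pi * (n : ℝ) * t) / (n : ℝ))
            Filter.atTop (nhds L) ∧
          1 / 2 - ε ≤ |L|) := by
  intro H
  obtain ⟨m, δ, D, hB, hD⟩ := bd_exists
  obtain ⟨t, L, hL, habs⟩ := H sgn hB.cm.pm hB.cm.one hB.cm.mul (1 / 10000000) (by norm_num)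
  -- reduce to the fractional part
  have hsin : ∀ n : ℕ, Real.sin (2 * Real.pi * (n : ℝ) * t) =
      Real.sin (2 * Real.pi * (n : ℝ) * Int.fract t) := by
    intro n
    have e : 2 * Real.pi * (n : ℝ) * t = 2 * Real.pi * (n : ℝ) * Int.fract t +
        (((n : ℤ) * ⌊t⌋ : ℤ) : ℝ) * (2 * Real.pi) := by
      have := Int.fract_add_floor t
      conv_lhs => rw [← this]
      push_cast
      ring
    rw [e, Real.sin_add_int_mul_two_pi]
  have hL1 : Tendsto (fun N : ℕ => (1 / Real.pi) *
      ∑ n ∈ Finset.Icc 1 N, sgn n * Real.sin (2 * Real.pi * (n : ℝ) * Int.fract t) / (n : ℝ))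
      atTop (𝓝 L) := by
    refine hL.congr ?_
    intro N
    congr 1
    apply Finset.sum_congr rfl
    intro n _
    rw [hsin n]
  have hL2 : Tendsto (fun N : ℕ => (1 / Real.pi) *
      ∑ n ∈ Finset.Icc 1 N, sgn n * Real.sin (2 * Real.pi * (n : ℝ) * (1 - Int.fract t)) / (n : ℝ))
      atTop (𝓝 (-L)) := by
    refine hL1.neg.congr ?_
    intro N
    rw [← mul_neg, ← Finset.sum_neg_distrib]
    congr 1
    apply Finset.sum_congr rfl
    intro n _
    have e : 2 * Real.pi * (n : ℝ) * (1 - Int.fract t) =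
        (n : ℝ) * (2 * Real.pi) - 2 * Real.pi * (n : ℝ) * Int.fract t := by ring
    rw [e, Real.sin_nat_mul_two_pi_sub]
    ring
  rcases eq_or_lt_of_le (Int.fract_nonneg t) with h | h
  · -- integral t: the sum is zero
    have hL0 : L = 0 := by
      have : Tendsto (fun _ : ℕ => (0 : ℝ)) atTop (𝓝 L) := by
        refine hL1.congr ?_
        intro N
        rw [← h]
        simp
      exact (tendsto_nhds_unique this tendsto_const_nhds)
    rw [hL0, abs_zero] at habs
    norm_num at habs
  · have h1 := Int.fract_lt_one t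
    have e1 := upper_mem h h1 hL1
    have e2 := upper_mem (by linarith) (by linarith) hL2
    have e3 : |L| ≤ 1 / 2 - 4 / 10000000 := abs_le.mpr ⟨by linarith, e1⟩
    linarith

end Pool.Agent.S18950
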