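import Pool.Statements.S19083
import Pool.Agent.Lib.MP_fddcb9_nt.Main

set_option autoImplicit false
open Pool Pool.MP_fddcb9_nt

namespace Pool.Agent.S19083

/-- For all sufficiently large primes p and every A ⊆ ℤ_p of size ⌊2√(p−2)⌋: some residue is not a nonempty subset sum of A exactly when, for some nonzero b, the centered absolute values of the elements of b·A sum to at most p−2. -/
theorem result :
    ∃ p₀ : ℕ, ∀ p : ℕ, p.Prime → p₀ < p →
      ∀ A : Finset (ZMod p),
        A.card = ⌊2 * Real.sqrt ((p : ℝ) - 2)⌋₊ →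
        ((∃ x : ZMod p, ∀ B : Finset (ZMod p), B ⊆ A → B.Nonempty → B.sum id ≠ x) ↔
          ∃ b : ZMod p, b ≠ 0 ∧
            ∑ y ∈ A.image (fun a => b * a), |(ZMod.valMinAbs y)| ≤ (p : ℤ) - 2) := by
  refine ⟨10 ^ 40, fun p hp hlt A hA => ?_⟩
  have hfact : Fact p.Prime := ⟨hp⟩
  obtain ⟨h1, h2, h3⟩ := Pool.Agent.Lib.FDD.size_facts p A.card hp hlt hA
  exact Pool.Agent.Lib.FDD.main_equiv A A.card rfl h1 h2 h3

end Pool.Agent.S19083
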