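import Pool.Statements.S19265
import Pool.Agent.Lib.MP_391fb1_pr.Fin2
import Pool.Agent.Lib.MP_391fb1_pr.N4
import Pool.Agent.Lib.MP_391fb1_pr.N56

set_option autoImplicit false
open MeasureTheory ProbabilityTheory
open Pool Pool.MP_391fb1_pr

namespace Pool.Agent.S19265

/-- For independent uniform variables on [-1,1] and real weights whose squares sum to 1, the differential entropy of the weighted sum is at most that of the equally weighted sum scaled by 1/sqrt(n). -/
theorem result :
    ∀ (n : ℕ) (Ω : Type) [MeasurableSpace Ω] (P : Measure Ω) [IsProbabilityMeasure P]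
      (U : Fin n → Ω → ℝ),
      (∀ i, Measurable (U i)) →
      iIndepFun U P →
      (∀ i, MeasureTheory.pdf.IsUniform (U i) (Set.Icc (-1 : ℝ) 1) P volume) →
      ∀ d : Fin n → ℝ, ∑ i, d i ^ 2 = 1 →
        -(∫ x : ℝ, ((P.map (fun ω => ∑ i, d i * U i ω)).rnDeriv volume x).toReal *
            Real.log ((P.map (fun ω => ∑ i, d i * U i ω)).rnDeriv volume x).toReal)
          ≤ -(∫ x : ℝ, ((P.map (fun ω => (Real.sqrt n)⁻¹ * ∑ i, U i ω)).rnDeriv volume x).toReal *
            Real.log ((P.map (fun ω => (Real.sqrt n)⁻¹ * ∑ i, U i ω)).rnDeriv volume x).toReal) := by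
  exact Pool.Agent.Lib.MP391fb1.final Pool.Agent.Lib.MP391fb1.ineq4
    Pool.Agent.Lib.MP391fb1.ineq5 Pool.Agent.Lib.MP391fb1.ineq6

end Pool.Agent.S19265
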