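import Pool.Statements.S19447
import Pool.Agent.Lib.MP_8622f1_pr.UN.STR
import Pool.Agent.Lib.MP_8622f1_pr.UN.NUB
import Pool.Agent.Lib.MP_8622f1_pr.UN.FIN

set_option autoImplicit false
open Classical Filter Topology
open Pool Pool.MP_8622f1_pr

namespace Pool.Agent.S19447

/-- For every connected, locally finite, transitive, non-amenable graph there is β>0 and a finite spin set A whose free-boundary Ising correlation limit differs from the average of its plus- and minus-boundary limits. -/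
theorem result :
  ∀ (V : Type) (G : SimpleGraph V) [G.LocallyFinite],
    G.Connected →
    (∀ x y : V, ∃ φ : G ≃g G, φ x = y) →
    (∃ c : ℝ, 0 < c ∧ ∀ S : Finset V,
        c * (S.card : ℝ) ≤ ∑ x ∈ S, ((G.neighborFinset x \ S).card : ℝ)) →
    ∀ σ : ℝ → Finset V → Finset V → V → ℝ,
      (∀ (h : ℝ) (Λ S : Finset V) (x : V),
          σ h Λ S x = if x ∈ Λ then (if x ∈ S then (1 : ℝ) else -1) else h) →
    ∀ E : ℝ → Finset V → Finset V → ℝ,
      (∀ (h : ℝ) (Λ S : Finset V),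
          E h Λ S = ∑ x ∈ Λ, ∑ y ∈ G.neighborFinset x,
            (if y ∈ Λ then (1 / 2 : ℝ) else 1) * σ h Λ S x * σ h Λ S y) →
    ∀ C : ℝ → ℝ → Finset V → Finset V → ℝ,
      (∀ (β h : ℝ) (A Λ : Finset V),
          C β h A Λ =
            (∑ S ∈ Λ.powerset, (∏ x ∈ A, σ h Λ S x) * Real.exp (β * E h Λ S)) /
              ∑ S ∈ Λ.powerset, Real.exp (β * E h Λ S)) →
    ∃ β : ℝ, 0 < β ∧ ∃ A : Finset V, ∃ a p m : ℝ,
      Tendsto (fun Λ : Finset V => C β 0 A Λ) atTop (𝓝 a) ∧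
      Tendsto (fun Λ : Finset V => C β 1 A Λ) atTop (𝓝 p) ∧
      Tendsto (fun Λ : Finset V => C β (-1) A Λ) atTop (𝓝 m) ∧
      a ≠ (p + m) / 2 :=
  MP8622.UN.final MP8622.UN.key MP8622.UN.nun

end Pool.Agent.S19447
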