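import Pool.Statements.S19556
import Pool.Agent.Lib.MP_a838d0_pr.Final

set_option autoImplicit false
open Pool Pool.MP_a838d0_pr

namespace Pool.Agent.S19556

/-- The negation of the preceding statement: For every connected locally finite plane-embeddable graph with all degrees at least 7, Bernoulli(p) site percolation with p_c < p < 1 − p_c almost surely has infinitely many infinite open clusters. -/
theorem result :
    ¬ (∀ (V : Type) (G : SimpleGraph V) [G.LocallyFinite], G.Connected → (∀ v, 7 ≤ G.degree v) →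
  (∃ f : V → ℂ, Function.Injective f ∧ ∃ γ : V → V → ℝ → ℂ, ∀ u v, G.Adj u v →
     ContinuousOn (γ u v) (Set.Icc 0 1) ∧ Set.InjOn (γ u v) (Set.Icc 0 1) ∧
     γ u v 0 = f u ∧ γ u v 1 = f v ∧
     (∀ t ∈ Set.Ioo (0:ℝ) 1, ∀ w, γ u v t ≠ f w) ∧
     ∀ u' v', G.Adj u' v' → ∀ t ∈ Set.Ioo (0:ℝ) 1, ∀ t' ∈ Set.Ioo (0:ℝ) 1,
       γ u v t = γ u' v' t' → (u = u' ∧ v = v') ∨ (u = v' ∧ v = u')) →
  ∀ μ : ℝ → MeasureTheory.Measure (V → Bool),
    (∀ p ∈ Set.Icc (0:ℝ) 1, ∀ S : Finset V,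
      μ p {ω | ∀ v ∈ S, ω v = true} = ENNReal.ofReal p ^ S.card) →
    ∀ p : ℝ,
      sSup {q : ℝ | q ∈ Set.Icc (0:ℝ) 1 ∧
        μ q {ω | ∃ c : (G.induce {v | ω v = true}).ConnectedComponent, c.supp.Infinite} = 0} < p →
      p < 1 - sSup {q : ℝ | q ∈ Set.Icc (0:ℝ) 1 ∧
        μ q {ω | ∃ c : (G.induce {v | ω v = true}).ConnectedComponent, c.supp.Infinite} = 0} →
      ∀ᵐ ω ∂ μ p,
        {c : (G.induce {v | ω v = true}).ConnectedComponent | c.supp.Infinite}.Infinite) := by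
  exact Pool.Agent.Lib.MP_a838d0_pr.not_main

end Pool.Agent.S19556
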